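import Pool.Agent.MP_1231ed_gt.R.Prod

set_option autoImplicit false

section FStm
namespace Pool.Agent.MP_1231ed_gt.R

/-- A pseudo-Euclidean model of a metric space. -/
structure Mod (X E : Type) [MetricSpace X] [AddCommGroup E] [Module ℝ E] : Type where
  B : E →ₗ[ℝ] E →ₗ[ℝ] ℝ
  ι : X → E
  symm : ∀ v w, B v w = B w v
  dist_sq : ∀ x y, B (ι x - ι y) (ι x - ι y) = dist x y ^ 2
  nondeg : ∀ v, (∀ x y, B v (ι x - ι y) = 0) → v = 0
  span : Submodule.span ℝ {v | ∃ x y, v = ι x - ι y} = ⊤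

variable {X E : Type} [MetricSpace X] [AddCommGroup E] [Module ℝ E]

/-- Product projections. -/
structure Pr (M : Mod X E) (P : Module.End ℝ E) : Prop where
  idem : P * P = P
  adj : ∀ v w, M.B (P v) w = M.B v (P w)
  mem : ∀ x y, ∃ z, M.ι z = M.ι y + P (M.ι x - M.ι y)

/-- The fibre of a projection through a point. -/
def Fib (M : Mod X E) (P : Module.End ℝ E) (x : X) : Set X :=
  {y | P (M.ι y - M.ι x) = M.ι y - M.ι x}

/-- Translations. -/
def Tr (M : Mod X E) : AddSubgroup E where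
  carrier := {v | (∀ x, ∃ z, M.ι z = M.ι x + v) ∧ ∀ x, ∃ z, M.ι z = M.ι x - v}
  zero_mem' := ⟨fun x => ⟨x, by simp⟩, fun x => ⟨x, by simp⟩⟩
  add_mem' := by
    rintro v w ⟨h1, h2⟩ ⟨h3, h4⟩
    refine ⟨fun x => ?_, fun x => ?_⟩
    · obtain ⟨z, hz⟩ := h1 x
      obtain ⟨z', hz'⟩ := h3 z
      exact ⟨z', by rw [hz', hz, add_assoc]⟩
    · obtain ⟨z, hz⟩ := h2 x
      obtain ⟨z', hz'⟩ := h4 z
      exact ⟨z', by rw [hz', hz, sub_sub]⟩
  neg_mem' := by
    rintro v ⟨h1, h2⟩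
    exact ⟨fun x => by simpa [sub_eq_add_neg] using h2 x, fun x => by simpa using h1 x⟩

/-- The Hilbert part. -/
def Hs (M : Mod X E) : Submodule ℝ E where
  carrier := {v | ∀ (t : ℝ) (x : X), ∃ z, M.ι z = M.ι x + t • v}
  zero_mem' := fun t x => ⟨x, by simp⟩
  add_mem' := by
    intro v w h1 h2 t x
    obtain ⟨z, hz⟩ := h1 t x
    obtain ⟨z', hz'⟩ := h2 t z
    exact ⟨z', by rw [hz', hz, smul_add, add_assoc]⟩
  smul_mem' := fun c v h t x => by simpa [smul_smul] using h (t * c) x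

/-- The measure of a projection. -/
def mu (M : Mod X E) (x y : X) (P : Module.End ℝ E) : ℝ :=
  M.B (P (M.ι x - M.ι y)) (M.ι x - M.ι y)

/-- The projection onto the Hilbert part. -/
structure IsPi (M : Mod X E) (π : Module.End ℝ E) : Prop where
  pr : Pr M π
  mem : ∀ v, π v ∈ Hs M
  fix : ∀ v ∈ Hs M, π v = v

/-- Below `C` all projections commute and there is no atom. -/
structure Cont (M : Mod X E) (C : Module.End ℝ E) : Prop where
  pr : Pr M C
  comm : ∀ S S', Pr M S → Pr M S' → C * S = S → C * S' = S' → S * S' = S' * S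
  split : ∀ S, Pr M S → C * S = S → S ≠ 0 → ∃ S', Pr M S' ∧ S * S' = S' ∧ S' ≠ 0 ∧ S' ≠ S

section basic

variable {M : Mod X E} {P Q : Module.End ℝ E}

theorem Mod.inj (M : Mod X E) : Function.Injective M.ι := fun x y h => by
  have := M.dist_sq x y
  rw [h, sub_self, map_zero] at this
  exact dist_eq_zero.1 (pow_eq_zero_iff two_ne_zero |>.1 this.symm)

theorem Mod.ext_vec (M : Mod X E) {v w : E} (h : ∀ x y, M.B v (M.ι x - M.ι y) = M.B w (M.ι x - M.ι y)) :
    v = w :=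
  sub_eq_zero.1 (M.nondeg _ fun x y => by rw [LinearMap.map_sub₂, h, sub_self])

theorem Mod.ind (M : Mod X E) {p : E → Prop} (h : ∀ x y, p (M.ι x - M.ι y)) (h0 : p 0)
    (ha : ∀ v w, p v → p w → p (v + w)) (hs : ∀ (c : ℝ) v, p v → p (c • v)) (v : E) : p v := by
  have hv : v ∈ Submodule.span ℝ {v | ∃ x y, v = M.ι x - M.ι y} := by rw [M.span]; trivial
  induction hv using Submodule.span_induction with
  | mem v hv => obtain ⟨x, y, rfl⟩ := hv; exact h x y
  | zero => exact h0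
  | add v w _ _ h1 h2 => exact ha v w h1 h2
  | smul c v _ h1 => exact hs c v h1

theorem Mod.ext_end (M : Mod X E) {F : Type} [AddCommGroup F] [Module ℝ F] {f g : E →ₗ[ℝ] F}
    (h : ∀ x y, f (M.ι x - M.ι y) = g (M.ι x - M.ι y)) : f = g :=
  LinearMap.ext fun v => M.ind (p := fun v => f v = g v) h (by simp)
    (fun v w h1 h2 => by rw [map_add, map_add, h1, h2])
    (fun c v h1 => by rw [map_smul, map_smul, h1]) v

theorem Mod.polar (M : Mod X E) (a b c d : X) : M.B (M.ι a - M.ι b) (M.ι c - M.ι d) =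
    (dist a d ^ 2 + dist b c ^ 2 - dist a c ^ 2 - dist b d ^ 2) / 2 := by
  rw [← M.dist_sq, ← M.dist_sq, ← M.dist_sq, ← M.dist_sq]
  simp only [map_sub, LinearMap.sub_apply]
  rw [M.symm (M.ι d) (M.ι a), M.symm (M.ι c) (M.ι b), M.symm (M.ι c) (M.ι a),
    M.symm (M.ι d) (M.ι b)]
  ring

theorem Mod.cont (M : Mod X E) (y : X) (w : E) : Continuous fun x => M.B (M.ι x - M.ι y) w := by
  refine M.ind (p := fun w => Continuous fun x => M.B (M.ι x - M.ι y) w) (fun c d => ?_) ?_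
    (fun v w h1 h2 => ?_) (fun c v h1 => ?_) w
  · simp only [M.polar]; fun_prop
  · simp only [map_zero]; exact continuous_const
  · simp only [map_add]; exact h1.add h2
  · simp only [map_smul]; exact h1.const_smul c

theorem Pr.idem_apply (h : Pr M P) (v : E) : P (P v) = P v := by
  rw [← Module.End.mul_apply, h.idem]

theorem Pr.zero : Pr M 0 := ⟨by simp, by simp, fun _ y => ⟨y, by simp⟩⟩

theorem Pr.one : Pr M 1 := ⟨by simp, by simp, fun x _ => ⟨x, by simp⟩⟩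

theorem Pr.compl (h : Pr M P) : Pr M (1 - P) := by
  refine ⟨by rw [sub_mul, mul_sub, mul_sub, h.idem]; simp, fun v w => by simp [h.adj], fun x y => ?_⟩
  obtain ⟨z, hz⟩ := h.mem y x
  exact ⟨z, by rw [hz]; simp only [LinearMap.sub_apply, Module.End.one_apply, map_sub]; abel⟩

theorem Pr.swap (h : Pr M P) (h' : Pr M Q) {S : Module.End ℝ E} (hS : Pr M S) (e : P * Q = S) :
    Q * P = S :=
  LinearMap.ext fun v => M.ext_vec fun x y => by
    rw [Module.End.mul_apply, h'.adj, h.adj, ← Module.End.mul_apply, e, hS.adj]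

theorem Pr.mul (h : Pr M P) (h' : Pr M Q) (e : P * Q = Q * P) : Pr M (P * Q) := by
  refine ⟨?_, fun v w => ?_, fun x y => ?_⟩
  · rw [mul_assoc, ← mul_assoc Q, ← e, mul_assoc, h'.idem, ← mul_assoc, h.idem]
  · rw [Module.End.mul_apply, h.adj, h'.adj, ← Module.End.mul_apply, ← e]
  · obtain ⟨z, hz⟩ := h'.mem x y
    obtain ⟨z', hz'⟩ := h.mem z y
    exact ⟨z', by rw [hz', hz, add_sub_cancel_left]; rfl⟩

theorem Pr.add (h : Pr M P) (h' : Pr M Q) (e : P * Q = 0) : Pr M (P + Q) := by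
  have e' : Q * P = 0 := h.swap h' Pr.zero e
  refine ⟨by rw [add_mul, mul_add, mul_add, h.idem, h'.idem, e, e']; simp,
    fun v w => by simp [h.adj, h'.adj], fun x y => ?_⟩
  obtain ⟨z, hz⟩ := h.mem x y
  obtain ⟨z', hz'⟩ := h'.mem x z
  refine ⟨z', ?_⟩
  rw [hz', hz, ← sub_sub, map_sub Q (M.ι x - M.ι y), ← Module.End.mul_apply Q P, e',
    LinearMap.add_apply, LinearMap.zero_apply, sub_zero, add_assoc]

theorem Pr.sub (h : Pr M P) (h' : Pr M Q) (e : P * Q = Q) : Pr M (P - Q) := by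
  have e' : Q * P = Q := h.swap h' h' e
  have : P - Q = P * (1 - Q) := by rw [mul_sub, mul_one, e]
  rw [this]
  exact h.mul h'.compl (by rw [mul_sub, sub_mul, e, e', mul_one, one_mul])

theorem Pr.mu_eq (h : Pr M P) {x y z : X} (hz : M.ι z = M.ι y + P (M.ι x - M.ι y)) :
    mu M x y P = dist z y ^ 2 := by
  rw [← M.dist_sq, hz, add_sub_cancel_left, h.adj, h.idem_apply, ← h.adj, mu]

theorem Pr.mu_nonneg (h : Pr M P) (x y : X) : 0 ≤ mu M x y P := by
  obtain ⟨z, hz⟩ := h.mem x y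
  rw [h.mu_eq hz]; positivity

theorem Pr.mu_eq_zero (h : Pr M P) {x y : X} (h0 : mu M x y P = 0) : P (M.ι x - M.ι y) = 0 := by
  obtain ⟨z, hz⟩ := h.mem x y
  rw [h.mu_eq hz, pow_eq_zero_iff two_ne_zero, dist_eq_zero] at h0
  rw [h0] at hz
  exact left_eq_add.1 hz

theorem mu_add (x y : X) (P Q : Module.End ℝ E) : mu M x y (P + Q) = mu M x y P + mu M x y Q := by
  simp only [mu, LinearMap.add_apply, LinearMap.map_add₂]

theorem mu_sub (x y : X) (P Q : Module.End ℝ E) : mu M x y (P - Q) = mu M x y P - mu M x y Q := by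
  simp only [mu, LinearMap.sub_apply, LinearMap.map_sub₂]

theorem mu_one (x y : X) : mu M x y 1 = dist x y ^ 2 := M.dist_sq x y

theorem Pr.mu_mono (h : Pr M P) (h' : Pr M Q) (e : P * Q = Q) (x y : X) :
    mu M x y Q ≤ mu M x y P := by
  have := (h.sub h' e).mu_nonneg x y
  rw [mu_sub] at this
  linarith

theorem Hs_le_Tr {v : E} (h : v ∈ Hs M) : v ∈ Tr M :=
  ⟨fun x => by simpa using h 1 x, fun x => by simpa [sub_eq_add_neg] using h (-1) x⟩

theorem Pr.tr (h : Pr M P) {v : E} (hv : v ∈ Tr M) : P v ∈ Tr M := by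
  refine ⟨fun x => ?_, fun x => ?_⟩
  · obtain ⟨z, hz⟩ := hv.1 x
    obtain ⟨z', hz'⟩ := h.mem z x
    exact ⟨z', by rw [hz', hz, add_sub_cancel_left]⟩
  · obtain ⟨z, hz⟩ := hv.2 x
    obtain ⟨z', hz'⟩ := h.mem z x
    exact ⟨z', by rw [hz', hz, sub_sub_cancel_left, map_neg, sub_eq_add_neg]⟩

theorem Pr.hs (h : Pr M P) {v : E} (hv : v ∈ Hs M) : P v ∈ Hs M := fun t x => by
  obtain ⟨z, hz⟩ := hv t x
  obtain ⟨z', hz'⟩ := h.mem z x
  exact ⟨z', by rw [hz', hz, add_sub_cancel_left, map_smul]⟩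

theorem Tr_nonneg [Nonempty X] {v : E} (hv : v ∈ Tr M) : 0 ≤ M.B v v := by
  obtain ⟨x⟩ := ‹Nonempty X›
  obtain ⟨z, hz⟩ := hv.1 x
  have := M.dist_sq z x
  rw [hz, add_sub_cancel_left] at this
  rw [this]; positivity

theorem Tr_eq_zero [Nonempty X] {v : E} (hv : v ∈ Tr M) (h0 : M.B v v = 0) : v = 0 := by
  obtain ⟨x⟩ := ‹Nonempty X›
  obtain ⟨z, hz⟩ := hv.1 x
  have := M.dist_sq z x
  rw [hz, add_sub_cancel_left, h0, eq_comm, pow_eq_zero_iff two_ne_zero, dist_eq_zero] at this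
  rw [this] at hz
  exact left_eq_add.1 hz

theorem IsPi.comm {π : Module.End ℝ E} (h : IsPi M π) (hP : Pr M P) : π * P = P * π := by
  have e : π * (P * π) = P * π := LinearMap.ext fun v => h.fix _ (hP.hs (h.mem v))
  refine LinearMap.ext fun v => M.ext_vec fun x y => ?_
  have e' := LinearMap.congr_fun e
  simp only [Module.End.mul_apply] at e' ⊢
  rw [← e' v, h.pr.adj, h.pr.adj, hP.adj, hP.adj, h.pr.adj, e']

theorem Tr_cs {v : E} (hv : v ∈ Tr M) (c d : X) :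
    |M.B v (M.ι c - M.ι d)| ≤ Real.sqrt (M.B v v) * dist c d := by
  have key : ∀ v ∈ Tr M, M.B v (M.ι c - M.ι d) ≤ Real.sqrt (M.B v v) * dist c d := by
    intro v hv
    obtain ⟨z, hz⟩ := hv.1 c
    have h1 := M.dist_sq z c
    have h2 := M.dist_sq z d
    rw [hz, add_sub_cancel_left] at h1
    rw [hz, add_sub_right_comm, LinearMap.map_add₂, map_add, map_add, M.dist_sq, h1,
      M.symm _ v] at h2
    rw [h1, Real.sqrt_sq dist_nonneg]
    have h3 := pow_le_pow_left₀ dist_nonneg (dist_triangle z c d) 2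
    nlinarith
  have := key (-v) (neg_mem hv)
  simp only [map_neg, LinearMap.neg_apply, neg_neg] at this
  exact abs_le.2 ⟨by linarith, key v hv⟩

theorem self_mem_Fib (P : Module.End ℝ E) (x : X) : x ∈ Fib M P x := by simp [Fib]

end basic

/-! Statements of the steps. -/

def SEmb : Prop := ∀ (X : Type) [MetricSpace X] [Nonempty X],
  ∃ (E : Type) (_ : AddCommGroup E) (_ : Module ℝ E), Nonempty (Mod X E)

def SLin : Prop := ∀ (X E : Type) [MetricSpace X] [AddCommGroup E] [Module ℝ E] (M : Mod X E)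
  (f g : X → X), (∀ x y z w, M.B (M.ι (f x) - M.ι (f y)) (M.ι z - M.ι w) =
    M.B (M.ι x - M.ι y) (M.ι (g z) - M.ι (g w))) →
  ∃ L : Module.End ℝ E, ∀ x y, L (M.ι x - M.ι y) = M.ι (f x) - M.ι (f y)

def SProj : Prop := ∀ (X E : Type) [MetricSpace X] [AddCommGroup E] [Module ℝ E] (M : Mod X E)
  (Y Z : Type) [MetricSpace Y] [MetricSpace Z] (e : X ≃ Y × Z),
  (∀ p q : X, dist p q ^ 2 = dist (e p).1 (e q).1 ^ 2 + dist (e p).2 (e q).2 ^ 2) →
  ∃ P : Module.End ℝ E, Pr M P ∧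
    (∀ p q : X, M.ι (e.symm ((e p).1, (e q).2)) = M.ι q + P (M.ι p - M.ι q)) ∧
    ∀ x : X, ∃ g : Fib M P x ≃ᵢ Y, ∀ p, g p = (e p).1

def SConj : Prop := ∀ (X E : Type) [MetricSpace X] [AddCommGroup E] [Module ℝ E] (M : Mod X E)
  (f : X ≃ᵢ X), (∀ x, f (f x) = x) → ∃ c : Module.End ℝ E ≃+* Module.End ℝ E,
    (∀ P, c (c P) = P) ∧ (∀ P, Pr M P → Pr M (c P)) ∧ (∀ π, IsPi M π → c π = π) ∧
    (∀ P x, Nonempty (Fib M P x ≃ᵢ Fib M (c P) (f x))) ∧
    ∀ P Q : Module.End ℝ E, (∀ x y, ∃ z, M.ι z = M.ι y + P (M.ι x - M.ι y) ∧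
      M.ι (f z) = M.ι (f y) + Q (M.ι (f x) - M.ι (f y))) → c P = Q

def SHI : Prop := ∀ (X E : Type) [MetricSpace X] [CompleteSpace X] [Nonempty X] [AddCommGroup E]
  [Module ℝ E] (M : Mod X E), ∃ (W : Type) (_ : NormedAddCommGroup W) (_ : InnerProductSpace ℝ W)
    (_ : CompleteSpace W) (j : W →ₗ[ℝ] E), LinearMap.range j = Hs M ∧
      ∀ v w : W, inner ℝ v w = M.B (j v) (j w)

def SPi : Prop := ∀ (X E : Type) [MetricSpace X] [CompleteSpace X] [Nonempty X] [AddCommGroup E]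
  [Module ℝ E] (M : Mod X E), ∃ π, IsPi M π

def SHF : Prop := ∀ (X E : Type) [MetricSpace X] [CompleteSpace X] [AddCommGroup E]
  [Module ℝ E] (M : Mod X E) (Q : Module.End ℝ E) (x : X), Pr M Q → (∀ v, Q v ∈ Hs M) →
  ∃ (U : Type) (_ : NormedAddCommGroup U) (_ : InnerProductSpace ℝ U) (_ : CompleteSpace U),
    Nonempty (Fib M Q x ≃ᵢ U)

def SHDim : Prop := ∀ (W U U' : Type) [MetricSpace W] [NormedAddCommGroup U] [InnerProductSpace ℝ U]
  [CompleteSpace U] [NormedAddCommGroup U'] [InnerProductSpace ℝ U'] [CompleteSpace U'],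
  IsProd W U U → IsProd W U' U' → Nonempty (U ≃ᵢ U')

def STr : Prop := ∀ (X E : Type) [MetricSpace X] [AddCommGroup E] [Module ℝ E] (M : Mod X E)
  (P P' : Module.End ℝ E), Pr M P → Pr M P' → ∀ x y : X,
    ((1 - P) * P' * P) (M.ι x - M.ι y) ∈ Tr M

def SBern : Prop := ∀ (X E : Type) [MetricSpace X] [CompleteSpace X] [Nonempty X] [AddCommGroup E]
  [Module ℝ E] (M : Mod X E) (P P' : Module.End ℝ E), Pr M P → Pr M P' → ∀ g ∈ Tr M, P g = g →
    (P * P' * P * (1 - P * P' * P)) g ∈ Hs M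

def SComm : Prop := ∀ (X E : Type) [MetricSpace X] [CompleteSpace X] [Nonempty X] [AddCommGroup E]
  [Module ℝ E] (M : Mod X E) (π P P' : Module.End ℝ E), IsPi M π → Pr M P → Pr M P' →
    (1 - π) * (P * P') = (1 - π) * (P' * P)

def SSup : Prop := ∀ (X E : Type) [MetricSpace X] [CompleteSpace X] [AddCommGroup E]
  [Module ℝ E] (M : Mod X E) (D : Set (Module.End ℝ E)), D.Nonempty → (∀ P ∈ D, Pr M P) →
  (∀ P ∈ D, ∀ Q ∈ D, ∃ S ∈ D, S * P = P ∧ S * Q = Q) →
  ∃ Q, Pr M Q ∧ (∀ P ∈ D, Q * P = P) ∧ (∀ S, Pr M S → (∀ P ∈ D, S * P = 0) → S * Q = 0) ∧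
    ∀ x y, IsLUB (mu M x y '' D) (mu M x y Q)

def SSupO : Prop := ∀ (X E : Type) [MetricSpace X] [CompleteSpace X] [AddCommGroup E]
  [Module ℝ E] (M : Mod X E) (T : Set (Module.End ℝ E)), (∀ P ∈ T, Pr M P) →
  (∀ P ∈ T, ∀ Q ∈ T, P ≠ Q → P * Q = 0) →
  ∃ Q, Pr M Q ∧ (∀ P ∈ T, Q * P = P) ∧ ∀ S, Pr M S → (∀ P ∈ T, S * P = 0) → S * Q = 0

def SCol : Prop := ∀ (I : Type) (s t : I → I), (∀ i, s (s i) = i) → (∀ i, t (t i) = i) →
  (∀ i, s i ≠ i) → (∀ i, t i ≠ i) → ∃ T : Set I, ∀ i, (s i ∈ T ↔ i ∉ T) ∧ (t i ∈ T ↔ i ∉ T)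

def SFib : Prop := ∀ (X E : Type) [MetricSpace X] [AddCommGroup E] [Module ℝ E] (M : Mod X E)
  (P : Module.End ℝ E), Pr M P → (∀ x y, Nonempty (Fib M P x ≃ᵢ Fib M P y)) ∧
    (∀ x, P ≠ 0 ↔ Nontrivial (Fib M P x)) ∧
    ∀ Q x, Pr M Q → P * Q = 0 → IsProd (Fib M (P + Q) x) (Fib M P x) (Fib M Q x)

def SCongr : Prop := ∀ (X Y Z X' Y' Z' : Type) [MetricSpace X] [MetricSpace Y] [MetricSpace Z]
  [MetricSpace X'] [MetricSpace Y'] [MetricSpace Z'],
  (IsProd X Y Z → Nonempty (X ≃ᵢ X') → Nonempty (Y ≃ᵢ Y') → Nonempty (Z ≃ᵢ Z') → IsProd X' Y' Z') ∧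
  (IsProd X Y Z → IsProd X' Y' Z' → Nonempty (Y ≃ᵢ Y') → Nonempty (Z ≃ᵢ Z') → Nonempty (X ≃ᵢ X'))

def SSub : Prop := ∀ (X E : Type) [MetricSpace X] [AddCommGroup E] [Module ℝ E] (M : Mod X E)
  (C : Module.End ℝ E) (x : X) (Y Z : Type) [MetricSpace Y] [MetricSpace Z], Pr M C →
  IsProd (Fib M C x) Y Z → ∃ Q, Pr M Q ∧ C * Q = Q ∧ Nonempty (Fib M Q x ≃ᵢ Y)

def SSmall : Prop := ∀ (X E : Type) [MetricSpace X] [CompleteSpace X] [AddCommGroup E]
  [Module ℝ E] (M : Mod X E) (C : Module.End ℝ E) (x y : X), Cont M C →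
  ∀ S, Pr M S → C * S = S → 0 < mu M x y S → ∀ ε : ℝ, 0 < ε →
    ∃ S', Pr M S' ∧ S * S' = S' ∧ 0 < mu M x y S' ∧ mu M x y S' ≤ ε

def SIvt : Prop := ∀ (X E : Type) [MetricSpace X] [CompleteSpace X] [AddCommGroup E]
  [Module ℝ E] (M : Mod X E) (C : Module.End ℝ E) (x y : X), Cont M C →
  ∀ S₁ S₂, Pr M S₁ → Pr M S₂ → C * S₂ = S₂ → S₂ * S₁ = S₁ → ∀ m : ℝ, mu M x y S₁ ≤ m →
    m ≤ mu M x y S₂ → ∃ S, Pr M S ∧ S₂ * S = S ∧ S * S₁ = S₁ ∧ mu M x y S = m

def SChain : Prop := ∀ (X E : Type) [MetricSpace X] [CompleteSpace X] [AddCommGroup E]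
  [Module ℝ E] (M : Mod X E) (C : Module.End ℝ E) (x y : X), Cont M C →
  ∃ T : ℝ → Module.End ℝ E, (∀ t, Pr M (T t) ∧ C * T t = T t) ∧
    (∀ s t, 0 ≤ s → s ≤ t → t ≤ 1 → T t * T s = T s) ∧
    ∀ t, 0 ≤ t → t ≤ 1 → mu M x y (T t) = mu M x y C * t

/-- Snowflaked cubes of all dimensions with corner `a`. -/
def Cubes {A : Type} [MetricSpace A] (a : A) : Prop :=
  ∃ c : ℝ, 0 < c ∧ ∀ n : ℕ, ∃ γ : (Fin n → Set.Icc (0 : ℝ) 1) → A, γ 0 = a ∧
    ∀ s t, dist (γ s) (γ t) ^ 2 = c / n * ∑ i, |(s i : ℝ) - t i|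

def SCube : Prop := ∀ (X E : Type) [MetricSpace X] [CompleteSpace X] [AddCommGroup E]
  [Module ℝ E] (M : Mod X E) (C P : Module.End ℝ E) (x : X), Cont M C → C ≠ 0 → P * C = C →
  Cubes (⟨x, self_mem_Fib P x⟩ : Fib M P x)

def SPack : Prop := ∀ (A : Type) [MetricSpace A] (a : A), Cubes a → ∀ r : ℝ, 0 < r →
  ¬ TotallyBounded (Metric.ball a r)

end Pool.Agent.MP_1231ed_gt.R

end FStm

section FStm2
namespace Pool.Agent.MP_1231ed_gt.R

variable {X E : Type} [MetricSpace X] [AddCommGroup E] [Module ℝ E]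

/-- The data of a decomposition as a square. -/
structure Flip (M : Mod X E) (P : Module.End ℝ E)
    (c : Module.End ℝ E ≃+* Module.End ℝ E) : Prop where
  pr : Pr M P
  cP : c P = 1 - P
  inv : ∀ Q, c (c Q) = Q
  cpr : ∀ Q, Pr M Q → Pr M (c Q)
  fib : ∀ Q x, Pr M Q → Nonempty (Fib M Q x ≃ᵢ Fib M (c Q) x)

/-- An orthogonal family of projections. -/
def Orth (M : Mod X E) {J : Type} (e : J → Module.End ℝ E) : Prop :=
  (∀ j, Pr M (e j)) ∧ ∀ i j, i ≠ j → e i * e j = 0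

/-- The supremum of a family of projections. -/
def IsSup (M : Mod X E) {J : Type} (e : J → Module.End ℝ E) (Q : Module.End ℝ E) : Prop :=
  Pr M Q ∧ (∀ j, Q * e j = e j) ∧ ∀ S, Pr M S → (∀ j, S * e j = 0) → S * Q = 0

def SPyth : Prop := ∀ (X E : Type) [MetricSpace X] [CompleteSpace X] [AddCommGroup E]
  [Module ℝ E] (M : Mod X E) (J : Type) (e : J → Module.End ℝ E) (Q : Module.End ℝ E),
  Orth M e → IsSup M e Q → ∀ x y, HasSum (fun j => mu M x y (e j)) (mu M x y Q)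

def SAsm : Prop := ∀ (X E : Type) [MetricSpace X] [CompleteSpace X] [AddCommGroup E]
  [Module ℝ E] (M : Mod X E) (J : Type) (e : J → Module.End ℝ E) (Q : Module.End ℝ E),
  Orth M e → IsSup M e Q → ∀ (x : X) (w : J → X), (∀ j, w j ∈ Fib M (e j) x) →
    Summable (fun j => dist (w j) x ^ 2) →
    ∃ z ∈ Fib M Q x, ∀ j, e j (M.ι z - M.ι x) = M.ι (w j) - M.ι x

def SInf : Prop := ∀ (X E : Type) [MetricSpace X] [CompleteSpace X] [AddCommGroup E]
  [Module ℝ E] (M : Mod X E) (J : Type) (e f : J → Module.End ℝ E) (Q Q' : Module.End ℝ E) (x : X),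
  Orth M e → Orth M f → IsSup M e Q → IsSup M f Q' →
  (∀ j, Nonempty (Fib M (e j) x ≃ᵢ Fib M (f j) x)) → (∃ K : ℝ, ∀ y z, mu M y z Q ≤ K) →
  Nonempty (Fib M Q x ≃ᵢ Fib M Q' x)

def SNu : Prop := ∀ (X E : Type) [MetricSpace X] [AddCommGroup E] [Module ℝ E] (M : Mod X E)
  (C : Module.End ℝ E) (x : X), Pr M C → (∃ K : ℝ, ∀ y z, mu M y z C ≤ K) →
  ∃ nu : Module.End ℝ E → ℝ,
    (∀ Q Q', Pr M Q → Pr M Q' → C * Q = Q → C * Q' = Q' → Q * Q' = 0 →
      nu (Q + Q') = nu Q + nu Q') ∧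
    (∀ Q Q', Nonempty (Fib M Q x ≃ᵢ Fib M Q' x) → nu Q = nu Q') ∧
    ∀ Q, Pr M Q → C * Q = Q → nu Q = 0 → Q = 0

def SBdd : Prop := ∀ (X E : Type) [MetricSpace X] [CompleteSpace X] [AddCommGroup E]
  [Module ℝ E] (M : Mod X E) (C P P' : Module.End ℝ E)
  (c c' : Module.End ℝ E ≃+* Module.End ℝ E) (x : X), Pr M C →
  (∀ S S', Pr M S → Pr M S' → C * S = S → S * S' = S' * S) → Flip M P c → Flip M P' c' →
  c C = C → c' C = C → (∃ K : ℝ, ∀ y z, mu M y z C ≤ K) →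
  Nonempty (Fib M (C * P) x ≃ᵢ Fib M (C * P') x)

end Pool.Agent.MP_1231ed_gt.R

end FStm2

section FEmb
namespace Pool.Agent.MP_1231ed_gt.R

namespace EmbA

variable {X : Type} [MetricSpace X]

/-- The kernel with base point `o`. -/
noncomputable def kr (o x y : X) : ℝ := (dist x o ^ 2 + dist y o ^ 2 - dist x y ^ 2) / 2

/-- Its bilinear extension. -/
noncomputable def B0 (o : X) : (X →₀ ℝ) →ₗ[ℝ] (X →₀ ℝ) →ₗ[ℝ] ℝ :=
  Finsupp.linearCombination ℝ fun x => Finsupp.linearCombination ℝ (kr o x)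

theorem B0_single (o x y : X) :
    B0 o (Finsupp.single x 1) (Finsupp.single y 1) = kr o x y := by
  simp [B0]

theorem B0_flip (o : X) : (B0 o).flip = B0 o := by
  ext x y
  simp only [LinearMap.comp_apply, Finsupp.lsingle_apply, LinearMap.flip_apply, B0_single, kr,
    dist_comm x y]
  ring

theorem B0_base (o : X) : B0 o (Finsupp.single o 1) = 0 := by
  ext y
  simp only [LinearMap.comp_apply, Finsupp.lsingle_apply, B0_single, kr, dist_self,
    dist_comm o y, LinearMap.zero_comp, LinearMap.zero_apply]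
  ring

end EmbA

open EmbA

theorem sEmb : SEmb := by
  intro X _ hX
  obtain ⟨o⟩ := hX
  have hs : ∀ v w, B0 o v w = B0 o w v := fun v w => by
    rw [← LinearMap.flip_apply, B0_flip]
  have h0 : (Submodule.Quotient.mk (Finsupp.single o 1) : _ ⧸ LinearMap.ker (B0 o)) = 0 :=
    (Submodule.Quotient.mk_eq_zero _).2 (B0_base o)
  refine ⟨(X →₀ ℝ) ⧸ LinearMap.ker (B0 o), inferInstance, inferInstance, ⟨
    { B := (B0 o).liftQ₂ _ _ le_rfl (by rw [B0_flip])
      ι := fun x => Submodule.Quotient.mk (Finsupp.single x 1)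
      symm := fun v w => ?_
      dist_sq := fun x y => ?_
      nondeg := fun v hv => ?_
      span := ?_ }⟩⟩
  · obtain ⟨v, rfl⟩ := Submodule.Quotient.mk_surjective _ v
    obtain ⟨w, rfl⟩ := Submodule.Quotient.mk_surjective _ w
    exact hs v w
  · simp only [map_sub, LinearMap.sub_apply, LinearMap.liftQ₂_mk, B0_single, kr, dist_self,
      dist_comm y x]
    ring
  · obtain ⟨v, rfl⟩ := Submodule.Quotient.mk_surjective _ v
    refine (Submodule.Quotient.mk_eq_zero _).2 (LinearMap.mem_ker.2 ?_)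
    ext x
    have := hv x o
    rw [h0, sub_zero, LinearMap.liftQ₂_mk] at this
    exact this
  · refine eq_top_iff.2 fun v _ => ?_
    obtain ⟨v, rfl⟩ := Submodule.Quotient.mk_surjective _ v
    induction v using Finsupp.induction_linear with
    | zero => exact zero_mem _
    | add f g h1 h2 =>
      rw [Submodule.Quotient.mk_add]
      exact add_mem (h1 trivial) (h2 trivial)
    | single x c =>
      rw [← mul_one c, ← smul_eq_mul, ← Finsupp.smul_single, Submodule.Quotient.mk_smul]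
      exact Submodule.smul_mem _ c (Submodule.subset_span ⟨x, o, by rw [h0, sub_zero]⟩)

theorem sLin : SLin := by
  intro X E _ _ _ M f g h
  have ex : ∀ v, ∃ v', ∀ z w, M.B v' (M.ι z - M.ι w) = M.B v (M.ι (g z) - M.ι (g w)) := by
    refine M.ind (fun x y => ⟨_, h x y⟩) ⟨0, fun z w => by simp⟩ ?_ ?_
    · rintro v w ⟨v', h1⟩ ⟨w', h2⟩
      exact ⟨v' + w', fun z u => by rw [LinearMap.map_add₂, LinearMap.map_add₂, h1, h2]⟩
    · rintro c v ⟨v', h1⟩
      exact ⟨c • v', fun z u => by rw [LinearMap.map_smul₂, LinearMap.map_smul₂, h1]⟩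
  choose L hL using ex
  refine ⟨⟨⟨L, fun v w => M.ext_vec fun z u => ?_⟩, fun c v => M.ext_vec fun z u => ?_⟩,
    fun x y => M.ext_vec fun z u => (hL _ z u).trans (h x y z u).symm⟩
  · rw [LinearMap.map_add₂, hL, hL, hL, LinearMap.map_add₂]
  · rw [RingHom.id_apply, LinearMap.map_smul₂, hL, hL, LinearMap.map_smul₂]

end Pool.Agent.MP_1231ed_gt.R

end FEmb

section FProj
namespace Pool.Agent.MP_1231ed_gt.R

namespace ProjA

variable {X E : Type} [MetricSpace X] [AddCommGroup E] [Module ℝ E]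

theorem adj_of (M : Mod X E) (L : Module.End ℝ E)
    (h : ∀ x y z w, M.B (L (M.ι x - M.ι y)) (M.ι z - M.ι w) =
      M.B (M.ι x - M.ι y) (L (M.ι z - M.ι w))) (v w : E) : M.B (L v) w = M.B v (L w) := by
  refine M.ind (p := fun v => M.B (L v) w = M.B v (L w)) (fun x y => ?_) (by simp)
    (fun v v' h1 h2 => by simp only [map_add, LinearMap.add_apply, h1, h2])
    (fun c v h1 => by simp only [map_smul, LinearMap.smul_apply, h1]) v
  exact M.ind (p := fun w => M.B (L (M.ι x - M.ι y)) w = M.B (M.ι x - M.ι y) (L w)) (h x y)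
    (by simp) (fun v v' h1 h2 => by simp only [map_add, h1, h2])
    (fun c v h1 => by simp only [map_smul, h1]) w

theorem l2 {A B : Type} [MetricSpace A] [MetricSpace B] (a a' : A) (b b' : B) :
    dist (WithLp.toLp 2 (a, b)) (WithLp.toLp 2 (a', b')) ^ 2 = dist a a' ^ 2 + dist b b' ^ 2 := by
  rw [WithLp.prod_dist_eq_add (by norm_num)]
  have h2 : (2 : ENNReal).toReal = ((2 : ℕ) : ℝ) := by norm_num
  rw [h2, Real.rpow_natCast, Real.rpow_natCast, one_div,
    Real.rpow_inv_natCast_pow (by positivity) two_ne_zero]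
  rfl

theorem split (M : Mod X E) (C : Module.End ℝ E) (hC : Pr M C) (x : X) :
    ∃ e : X ≃ Fib M C x × Fib M (1 - C) x,
      (∀ p q : X, dist p q ^ 2 = dist (e p).1 (e q).1 ^ 2 + dist (e p).2 (e q).2 ^ 2) ∧
      ∀ p, M.ι (e p).2 = M.ι x + (1 - C) (M.ι p - M.ι x) := by
  choose a ha using fun p => hC.mem p x
  choose b hb using fun p => hC.compl.mem p x
  choose c hc using hC.mem
  have ha' : ∀ p, a p ∈ Fib M C x := fun p => by
    change C (M.ι (a p) - M.ι x) = M.ι (a p) - M.ι x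
    rw [ha, add_sub_cancel_left, hC.idem_apply]
  have hb' : ∀ p, b p ∈ Fib M (1 - C) x := fun p => by
    change (1 - C) (M.ι (b p) - M.ι x) = M.ι (b p) - M.ι x
    rw [hb, add_sub_cancel_left, hC.compl.idem_apply]
  have key : ∀ (u : Fib M C x) (v : Fib M (1 - C) x),
      C (M.ι v - M.ι x) = 0 ∧ M.ι (c u v) - M.ι x = (M.ι u - M.ι x) + (M.ι v - M.ι x) := by
    intro u v
    have hu : C (M.ι u - M.ι x) = M.ι u - M.ι x := u.2
    have hv : (1 - C) (M.ι v - M.ι x) = M.ι v - M.ι x := v.2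
    rw [LinearMap.sub_apply, Module.End.one_apply, sub_eq_self] at hv
    refine ⟨hv, ?_⟩
    have : M.ι u - M.ι v = (M.ι u - M.ι x) - (M.ι v - M.ι x) := by abel
    rw [hc, this, map_sub, hu, hv]
    abel
  refine ⟨⟨fun p => (⟨a p, ha' p⟩, ⟨b p, hb' p⟩), fun z => c z.1 z.2, fun p => ?_, fun z => ?_⟩,
    fun p q => ?_, hb⟩
  · apply M.inj
    have := (key ⟨a p, ha' p⟩ ⟨b p, hb' p⟩).2
    rw [ha, hb, add_sub_cancel_left, add_sub_cancel_left, LinearMap.sub_apply,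
      Module.End.one_apply, add_sub_cancel, sub_left_inj] at this
    exact this
  · obtain ⟨u, v⟩ := z
    obtain ⟨h1, h2⟩ := key u v
    have hu : C (M.ι u - M.ι x) = M.ι u - M.ι x := u.2
    refine Prod.ext (Subtype.ext (M.inj ?_)) (Subtype.ext (M.inj ?_))
    · change M.ι (a (c u v)) = M.ι u
      rw [ha, h2, map_add, hu, h1]
      abel
    · change M.ι (b (c u v)) = M.ι v
      rw [hb, h2, LinearMap.sub_apply, Module.End.one_apply, map_add, hu, h1]
      abel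
  · change dist p q ^ 2 = dist (a p) (a q) ^ 2 + dist (b p) (b q) ^ 2
    have e1 : M.ι (a p) - M.ι (a q) = C (M.ι p - M.ι q) := by
      rw [ha, ha]; simp only [map_sub]; abel
    have e2 : M.ι (b p) - M.ι (b q) = (M.ι p - M.ι q) - C (M.ι p - M.ι q) := by
      rw [hb, hb]; simp only [LinearMap.sub_apply, Module.End.one_apply, map_sub]; abel
    rw [← M.dist_sq, ← M.dist_sq, ← M.dist_sq, e1, e2]
    generalize M.ι p - M.ι q = v
    have h1 : M.B (C v) (C v) = M.B v (C v) := by rw [hC.adj, hC.idem_apply]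
    have h2 : M.B (C v) v = M.B v (C v) := hC.adj v v
    simp only [map_sub, LinearMap.sub_apply, h1, h2]
    ring

end ProjA

theorem sProj (h : SLin) : SProj := by
  intro X E _ _ _ M Y Z _ _ e he
  rcases isEmpty_or_nonempty X with hX | ⟨⟨x₀⟩⟩
  · exact ⟨0, Pr.zero, fun p => hX.elim p, fun p => hX.elim p⟩
  obtain ⟨L, hL⟩ := h X E M (fun p => e.symm ((e p).1, (e x₀).2))
    (fun p => e.symm ((e p).1, (e x₀).2)) fun x y z w => by
      simp only [M.polar, he, Equiv.apply_symm_apply]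
      ring
  have h2 : ∀ p q : X, M.ι (e.symm ((e p).1, (e q).2)) = M.ι q + L (M.ι p - M.ι q) := by
    intro p q
    rw [← sub_eq_iff_eq_add', hL]
    refine M.ext_vec fun z w => ?_
    simp only [M.polar, he, Equiv.apply_symm_apply]
    ring
  have h3 : ∀ x p : X, p ∈ Fib M L x ↔ (e p).2 = (e x).2 := by
    intro x p
    change L (M.ι p - M.ι x) = M.ι p - M.ι x ↔ _
    rw [eq_sub_iff_add_eq', ← h2, M.inj.eq_iff, Equiv.symm_apply_eq, Prod.ext_iff]
    exact ⟨fun h => h.2.symm, fun h => ⟨rfl, h.symm⟩⟩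
  refine ⟨L, ⟨M.ext_end fun x y => ?_, ProjA.adj_of M L fun x y z w => ?_,
    fun x y => ⟨_, h2 x y⟩⟩, h2, fun x => ?_⟩
  · rw [Module.End.mul_apply, hL, hL]
    simp only [Equiv.apply_symm_apply]
  · rw [hL, hL]
    simp only [M.polar, he, Equiv.apply_symm_apply]
    ring
  · refine ⟨⟨⟨fun p => (e p).1, fun y => ⟨e.symm (y, (e x).2), (h3 _ _).2 (by simp)⟩,
      fun p => Subtype.ext ?_, fun y => by simp⟩, Isometry.of_dist_eq fun p q => ?_⟩, fun _ => rfl⟩
    · change e.symm ((e p).1, (e x).2) = p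
      rw [← (h3 x p).1 p.2, Prod.mk.eta, Equiv.symm_apply_apply]
    · change dist (e p).1 (e q).1 = dist (p : X) q
      have := he p q
      rw [(h3 x p).1 p.2, (h3 x q).1 q.2, dist_self, zero_pow two_ne_zero, add_zero] at this
      exact (pow_left_inj₀ dist_nonneg dist_nonneg two_ne_zero).1 this.symm

theorem sSub (h1 : SProj) (h2 : SFib) : SSub := by
  have _ := h2
  intro X E _ _ _ M C x Y Z _ _ hC ⟨e', he'⟩
  obtain ⟨e, he, hb⟩ := ProjA.split M C hC x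
  let F : X ≃ Y × WithLp 2 (Z × Fib M (1 - C) x) :=
    e.trans (((e'.prodCongr (Equiv.refl _)).trans (Equiv.prodAssoc _ _ _)).trans
      ((Equiv.refl _).prodCongr (WithLp.equiv 2 _).symm))
  have hF : ∀ p, F p = ((e' (e p).1).1, WithLp.toLp 2 ((e' (e p).1).2, (e p).2)) := fun _ => rfl
  obtain ⟨Q, hQ, h3, h4⟩ := h1 X E M Y _ F fun p q => by
    rw [hF, hF, ProjA.l2, he, he', add_assoc]
  obtain ⟨g, -⟩ := h4 x
  refine ⟨Q, hQ, M.ext_end fun p q => ?_, ⟨g⟩⟩
  have h5 := h3 p q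
  have h6 : (F (F.symm ((F p).1, (F q).2))).2 = (F q).2 := by rw [Equiv.apply_symm_apply]
  generalize F.symm ((F p).1, (F q).2) = z at h5 h6
  rw [hF, hF] at h6
  have h7 : (e z).2 = (e q).2 := congrArg (fun t => (WithLp.ofLp t).2) h6
  have h8 := hb z
  rw [h7, hb, add_right_inj, eq_comm, ← sub_eq_zero, ← map_sub, sub_sub_sub_cancel_right,
    LinearMap.sub_apply, Module.End.one_apply, sub_eq_zero] at h8
  rw [← sub_eq_iff_eq_add'] at h5
  rw [Module.End.mul_apply, ← h5, ← h8]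

end Pool.Agent.MP_1231ed_gt.R

end FProj

section FConj
namespace Pool.Agent.MP_1231ed_gt.R

namespace ConjA

/-- conjugation by an involution -/
def cj {R : Type} [Ring R] (L : R) (h : L * L = 1) : R ≃+* R where
  toFun P := L * P * L
  invFun P := L * P * L
  left_inv P := by
    show L * (L * P * L) * L = P
    rw [← mul_assoc, ← mul_assoc, h, one_mul, mul_assoc, h, mul_one]
  right_inv P := by
    show L * (L * P * L) * L = P
    rw [← mul_assoc, ← mul_assoc, h, one_mul, mul_assoc, h, mul_one]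
  map_mul' P Q := by
    rw [mul_assoc (L * P) L, ← mul_assoc L (L * Q), ← mul_assoc L L, h, one_mul]
    simp only [mul_assoc]
  map_add' P Q := by rw [mul_add, add_mul]

end ConjA

theorem sConj (h : SLin) : SConj := by
  intro X E _ _ _ M f hf
  have hd : ∀ x z, dist (f x) z = dist x (f z) := fun x z => by rw [← f.dist_eq, hf]
  have h0 : ∀ x y z w, M.B (M.ι (f x) - M.ι (f y)) (M.ι z - M.ι w) =
      M.B (M.ι x - M.ι y) (M.ι (f z) - M.ι (f w)) := fun x y z w => by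
    simp only [M.polar, hd]
  obtain ⟨L, hL⟩ := h X E M f f h0
  have h1 : L * L = 1 := M.ext_end fun x y => by
    rw [Module.End.mul_apply, hL, hL, hf, hf, Module.End.one_apply]
  have h2 : ∀ v, L (L v) = v := fun v => by rw [← Module.End.mul_apply, h1, Module.End.one_apply]
  have h3 : ∀ v w, M.B (L v) w = M.B v (L w) := fun v w => by
    have e : M.B.comp L = M.B.compl₂ L := M.ext_end fun x y => M.ext_end fun z w => by
      rw [LinearMap.comp_apply, LinearMap.compl₂_apply, hL, hL, h0]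
    exact LinearMap.congr_fun (LinearMap.congr_fun e v) w
  have h4 : ∀ {y z : X} {v : E}, M.ι z = M.ι y + v → M.ι (f z) = M.ι (f y) + L v :=
    fun {y z v} e => by
      rw [← sub_eq_iff_eq_add', ← hL, e, add_sub_cancel_left]
  have hc : ∀ P v, ConjA.cj L h1 P v = L (P (L v)) := fun P v => rfl
  have h5 : ∀ P, Pr M P → Pr M (ConjA.cj L h1 P) := fun P hP => by
    refine ⟨by rw [← map_mul, hP.idem], fun v w => by rw [hc, hc, h3, hP.adj, h3], fun x y => ?_⟩
    obtain ⟨z, hz⟩ := hP.mem (f x) (f y)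
    exact ⟨f z, by rw [h4 hz, hf, hc, hL]⟩
  have h6 : ∀ v ∈ Hs M, L v ∈ Hs M := fun v hv t x => by
    obtain ⟨z, hz⟩ := hv t (f x)
    exact ⟨f z, by rw [h4 hz, hf, map_smul]⟩
  refine ⟨ConjA.cj L h1, fun P => (ConjA.cj L h1).left_inv P, h5, fun π hπ => ?_,
    fun P x => ⟨f.toEquiv.subtypeEquiv fun y => ?_, ?_⟩, fun P Q hQ => M.ext_end fun x y => ?_⟩
  · have e1 : π * ConjA.cj L h1 π = ConjA.cj L h1 π :=
      LinearMap.ext fun v => hπ.fix _ (h6 _ (hπ.mem _))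
    have e2 : ConjA.cj L h1 π * π = π := LinearMap.ext fun v => by
      rw [Module.End.mul_apply, hc, hπ.fix _ (h6 _ (hπ.mem _)), h2]
    exact (hπ.pr.swap (h5 π hπ.pr) (h5 π hπ.pr) e1).symm.trans e2
  · change P (M.ι y - M.ι x) = M.ι y - M.ι x ↔
      L (P (L (M.ι (f y) - M.ι (f x)))) = M.ι (f y) - M.ι (f x)
    rw [← hL, h2]
    exact ⟨fun e => by rw [e], fun e => by rw [← h2 (P _), e, h2]⟩
  · exact Isometry.of_dist_eq fun a b => f.dist_eq a.1 b.1
  · obtain ⟨z, z1, z2⟩ := hQ (f x) (f y)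
    rw [h4 z1, hf, hf] at z2
    rw [hc, hL]
    exact add_left_cancel z2

end Pool.Agent.MP_1231ed_gt.R

end FConj

section FHI
open Filter Topology

namespace Pool.Agent.MP_1231ed_gt.R

namespace HIA

variable {X E : Type} [MetricSpace X] [AddCommGroup E] [Module ℝ E] (M : Mod X E)

theorem complete [CompleteSpace X] [Nonempty X] {W : Type} [NormedAddCommGroup W]
    [InnerProductSpace ℝ W] (j : W →ₗ[ℝ] E) (hj : LinearMap.range j = Hs M)
    (hi : ∀ v w : W, inner ℝ v w = M.B (j v) (j w)) : CompleteSpace W := by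
  have hd : ∀ (t : ℝ) (x z z' : X) (v v' : W), M.ι z = M.ι x + t • j v →
      M.ι z' = M.ι x + t • j v' → dist z z' = |t| * dist v v' := fun t x z z' v v' h h' => by
    have e := M.dist_sq z z'
    rw [h, h', add_sub_add_left_eq_sub, ← smul_sub, ← map_sub, ← map_smul, ← hi,
      real_inner_self_eq_norm_sq, norm_smul, Real.norm_eq_abs, ← dist_eq_norm] at e
    exact ((pow_left_inj₀ (by positivity) dist_nonneg two_ne_zero).1 e).symm
  have hm : ∀ (t : ℝ) (x : X) (v : W), ∃ z, M.ι z = M.ι x + t • j v := fun t x v =>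
    (show j v ∈ Hs M from hj ▸ LinearMap.mem_range_self j v) t x
  choose ζ hζ using hm
  refine Metric.complete_of_cauchySeq_tendsto fun u hu => ?_
  have hz : ∀ (t : ℝ) (x : X), ∃ z, Tendsto (fun n => ζ t x (u n)) atTop (𝓝 z) := fun t x =>
    cauchySeq_tendsto_of_complete ((LipschitzWith.of_dist_le_mul (K := ⟨|t|, abs_nonneg t⟩)
      fun v v' => (hd t x _ _ v v' (hζ t x v) (hζ t x v')).le).uniformContinuous.comp_cauchySeq hu)
  choose z hz using hz
  have hl : ∀ (t : ℝ) (x : X) (w : E), Tendsto (fun n => t * M.B (j (u n)) w) atTop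
      (𝓝 (M.B (M.ι (z t x) - M.ι x) w)) := fun t x w => by
    refine (((M.cont x w).tendsto _).comp (hz t x)).congr fun n => ?_
    simp only [Function.comp_apply, hζ, add_sub_cancel_left, LinearMap.map_smul₂, smul_eq_mul]
  obtain ⟨x₀⟩ := ‹Nonempty X›
  have hv : M.ι (z 1 x₀) - M.ι x₀ ∈ Hs M := fun t x => ⟨z t x, by
    rw [← sub_eq_iff_eq_add']
    refine M.ext_vec fun a b => ?_
    rw [LinearMap.map_smul₂, smul_eq_mul]
    refine tendsto_nhds_unique (hl t x _) (Tendsto.const_mul t ?_)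
    simpa only [one_mul] using hl 1 x₀ (M.ι a - M.ι b)⟩
  rw [← hj] at hv
  obtain ⟨a, ha⟩ := hv
  refine ⟨a, tendsto_iff_dist_tendsto_zero.2
    ((tendsto_iff_dist_tendsto_zero.1 (hz 1 x₀)).congr fun n => ?_)⟩
  rw [hd 1 x₀ _ _ (u n) a (hζ 1 x₀ _) (by rw [ha, one_smul, add_sub_cancel]), abs_one, one_mul]

/-- The inner product on the Hilbert part. -/
@[reducible] def core [Nonempty X] : InnerProductSpace.Core ℝ (Hs M) where
  inner v w := M.B v w
  conj_inner_symm v w := M.symm _ _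
  re_inner_nonneg v := Tr_nonneg (Hs_le_Tr v.2)
  add_left v w u := by simp
  smul_left v w r := by simp
  definite v h := Subtype.ext (Tr_eq_zero (Hs_le_Tr v.2) h)

end HIA

theorem sHI : SHI := by
  intro X E _ _ _ _ _ M
  letI : NormedAddCommGroup (Hs M) := (HIA.core M).toNormedAddCommGroup
  letI : InnerProductSpace ℝ (Hs M) := InnerProductSpace.ofCore (HIA.core M).toCore
  exact ⟨Hs M, inferInstance, inferInstance,
    HIA.complete M (Hs M).subtype (Submodule.range_subtype _) fun _ _ => rfl, (Hs M).subtype,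
    Submodule.range_subtype _, fun _ _ => rfl⟩

end Pool.Agent.MP_1231ed_gt.R

end FHI

section FPi
namespace Pool.Agent.MP_1231ed_gt.R

namespace PiA

variable {X E W : Type} [MetricSpace X] [AddCommGroup E] [Module ℝ E] {M : Mod X E}
  [NormedAddCommGroup W] [InnerProductSpace ℝ W] [CompleteSpace W] {j : W →ₗ[ℝ] E}

/-- The Riesz representation of the form restricted to the Hilbert part. -/
theorem riesz (hr : LinearMap.range j = Hs M) (hj : ∀ v w : W, inner ℝ v w = M.B (j v) (j w)) :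
    ∃ p : E →ₗ[ℝ] W, ∀ v w, inner ℝ (p v) w = M.B v (j w) := by
  have hb : ∀ v, ∃ C : ℝ, ∀ w, ‖M.B v (j w)‖ ≤ C * ‖w‖ := by
    intro v
    refine M.ind (p := fun v => ∃ C : ℝ, ∀ w, ‖M.B v (j w)‖ ≤ C * ‖w‖) (fun x y => ?_)
      ⟨0, by simp⟩ ?_ ?_ v
    · refine ⟨dist x y, fun w => ?_⟩
      have h1 := Tr_cs (Hs_le_Tr (M := M) (hr ▸ LinearMap.mem_range_self j w)) x y
      rw [← hj, real_inner_self_eq_norm_sq, Real.sqrt_sq (norm_nonneg w), M.symm] at h1
      rw [Real.norm_eq_abs, mul_comm]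
      exact h1
    · rintro v v' ⟨C, h1⟩ ⟨C', h2⟩
      refine ⟨C + C', fun w => ?_⟩
      rw [LinearMap.map_add₂, add_mul]
      exact (norm_add_le _ _).trans (add_le_add (h1 w) (h2 w))
    · rintro c v ⟨C, h1⟩
      refine ⟨‖c‖ * C, fun w => ?_⟩
      rw [LinearMap.map_smul₂, norm_smul, mul_assoc]
      exact mul_le_mul_of_nonneg_left (h1 w) (norm_nonneg c)
  have he : ∀ v, ∃ u : W, ∀ w, inner ℝ u w = M.B v (j w) := by
    intro v
    obtain ⟨C, hC⟩ := hb v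
    exact ⟨(InnerProductSpace.toDual ℝ W).symm ((M.B v ∘ₗ j).mkContinuous C hC), fun w => by
      rw [InnerProductSpace.toDual_symm_apply]; rfl⟩
  choose p hp using he
  refine ⟨⟨⟨p, fun v v' => ?_⟩, fun c v => ?_⟩, hp⟩
  · exact ext_inner_right ℝ fun w => by rw [inner_add_left, hp, hp, hp, LinearMap.map_add₂]
  · exact ext_inner_right ℝ fun w => by
      rw [RingHom.id_apply, real_inner_smul_left, hp, hp, LinearMap.map_smul₂, smul_eq_mul]

end PiA

theorem sPi (h : SHI) : SPi := by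
  intro X E _ _ _ _ _ M
  obtain ⟨W, _, _, _, j, hr, hj⟩ := h X E M
  obtain ⟨p, hp⟩ := PiA.riesz hr hj
  have hm : ∀ v, (j ∘ₗ p) v ∈ Hs M := fun v => hr ▸ LinearMap.mem_range_self j (p v)
  have hf : ∀ v ∈ Hs M, (j ∘ₗ p) v = v := by
    intro v hv
    rw [← hr] at hv
    obtain ⟨u, rfl⟩ := hv
    have : p (j u) = u := ext_inner_right ℝ fun w => by rw [hp, hj]
    rw [LinearMap.comp_apply, this]
  refine ⟨j ∘ₗ p, ⟨LinearMap.ext fun v => hf _ (hm v), fun v w => ?_, fun x y => ?_⟩, hm, hf⟩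
  · rw [LinearMap.comp_apply, LinearMap.comp_apply, M.symm, ← hp, ← hp, real_inner_comm]
  · simpa using hm (M.ι x - M.ι y) 1 y

theorem sHF (h : SHI) : SHF := by
  intro X E _ _ _ _ M Q x hQ hH
  have : Nonempty X := ⟨x⟩
  obtain ⟨W, _, _, _, j, hr, hj⟩ := h X E M
  obtain ⟨p, hp⟩ := PiA.riesz hr hj
  set K : Submodule ℝ W := LinearMap.range (p ∘ₗ (Q - 1)) with hK
  have hU : ∀ w, w ∈ Kᗮ ↔ Q (j w) = j w := by
    intro w
    have e : ∀ v, inner ℝ ((p ∘ₗ (Q - 1)) v) w = M.B (Q (j w)) v - M.B (j w) v := by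
      intro v
      rw [LinearMap.comp_apply, hp, LinearMap.sub_apply, LinearMap.map_sub₂, hQ.adj,
        M.symm v, Module.End.one_apply, M.symm v]
    rw [Submodule.mem_orthogonal]
    constructor
    · intro h1
      exact M.ext_vec fun a b => sub_eq_zero.1 (by rw [← e]; exact h1 _ ⟨_, rfl⟩)
    · rintro h1 _ ⟨v, rfl⟩
      rw [e, h1, sub_self]
  have hz : ∀ w : Kᗮ, ∃ z : Fib M Q x, M.ι z = M.ι x + j w := by
    intro w
    obtain ⟨z, hz⟩ := (hr ▸ LinearMap.mem_range_self j w : j w ∈ Hs M) 1 x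
    rw [one_smul] at hz
    refine ⟨⟨z, ?_⟩, hz⟩
    show Q (M.ι z - M.ι x) = M.ι z - M.ι x
    rw [hz, add_sub_cancel_left]
    exact (hU w).1 w.2
  choose f hf using hz
  have hi : Isometry f := Isometry.of_dist_eq fun a b => by
    have h1 := M.dist_sq (f a) (f b)
    rw [hf, hf, add_sub_add_left_eq_sub, ← map_sub, ← hj, real_inner_self_eq_norm_sq] at h1
    rw [Subtype.dist_eq, Subtype.dist_eq, dist_eq_norm]
    exact ((sq_eq_sq₀ (norm_nonneg _) dist_nonneg).1 h1).symm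
  have hs : Function.Surjective f := by
    rintro ⟨y, hy⟩
    have hy' : Q (M.ι y - M.ι x) = M.ι y - M.ι x := hy
    have h1 := hH (M.ι y - M.ι x)
    rw [hy', ← hr] at h1
    obtain ⟨w, hw⟩ := h1
    refine ⟨⟨w, (hU w).2 (by rw [hw, hy'])⟩, Subtype.ext (M.inj ?_)⟩
    rw [hf]
    show M.ι x + j w = M.ι y
    rw [hw, add_sub_cancel]
  exact ⟨Kᗮ, inferInstance, inferInstance, inferInstance,
    ⟨(IsometryEquiv.mk (Equiv.ofBijective f ⟨hi.injective, hs⟩) hi).symm⟩⟩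

end Pool.Agent.MP_1231ed_gt.R

end FPi

section FHDim
namespace Pool.Agent.MP_1231ed_gt.R

namespace HDimA

open Cardinal

/-- an orthonormal family is not larger than a total family -/
theorem card_le {H I J : Type} [NormedAddCommGroup H] [InnerProductSpace ℝ H] (e : I → H)
    (he : ∀ x, (∀ i, inner ℝ (e i) x = 0) → x = 0) {f : J → H} (hf : Orthonormal ℝ f) :
    #J ≤ #I := by
  rcases finite_or_infinite I with hI | hI
  · have := Fintype.ofFinite I
    let T : H →ₗ[ℝ] (I → ℝ) := LinearMap.pi fun i => (innerSL ℝ (e i)).toLinearMap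
    have hT : LinearMap.ker T = ⊥ :=
      LinearMap.ker_eq_bot'.2 fun x hx => he x fun i => congrFun hx i
    have h := (hf.linearIndependent.map' T hT).cardinal_le_rank
    rwa [rank_fun', ← mk_fintype] at h
  · have h1 : (Set.univ : Set J) ⊆
        ⋃ i, Function.support fun j => ‖inner ℝ (f j) (e i)‖ ^ 2 := by
      intro j _
      by_contra hj
      refine hf.ne_zero j (he _ fun i => ?_)
      have h2 : ‖inner ℝ (f j) (e i)‖ ^ 2 = 0 := by
        by_contra h3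
        exact hj (Set.mem_iUnion.2 ⟨i, h3⟩)
      rw [real_inner_comm]
      exact norm_eq_zero.1 (pow_eq_zero_iff two_ne_zero |>.1 h2)
    have h4 := (mk_le_mk_of_subset h1).trans (mk_iUnion_le _)
    rw [mk_univ] at h4
    refine h4.trans ((mul_le_mul_right (ciSup_le' fun i => ?_) _).trans
      (mul_eq_self (aleph0_le_mk I)).le)
    exact (Set.Countable.le_aleph0 (hf.inner_products_summable (e i)).countable_support).trans
      (aleph0_le_mk I)

variable {U I : Type} [NormedAddCommGroup U] [InnerProductSpace ℝ U]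

/-- the doubled family -/
def dbl (b : I → U) : I ⊕ I → WithLp 2 (U × U) :=
  Sum.elim (fun i => WithLp.toLp 2 (b i, 0)) fun i => WithLp.toLp 2 (0, b i)

theorem dbl_on {b : I → U} (hb : Orthonormal ℝ b) : Orthonormal ℝ (dbl b) := by
  classical
  rw [orthonormal_iff_ite] at hb ⊢
  rintro (i | i) (j | j) <;> simp [dbl, WithLp.prod_inner_apply, hb]

theorem dbl_tot {b : I → U} (hb : ∀ x, (∀ i, inner ℝ (b i) x = 0) → x = 0)
    (x : WithLp 2 (U × U)) (h : ∀ i, inner ℝ (dbl b i) x = 0) : x = 0 := by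
  have h1 := hb (WithLp.ofLp x).1 fun i => by
    simpa [dbl, WithLp.prod_inner_apply] using h (Sum.inl i)
  have h2 := hb (WithLp.ofLp x).2 fun i => by
    simpa [dbl, WithLp.prod_inner_apply] using h (Sum.inr i)
  exact WithLp.ofLp_injective 2 (Prod.ext h1 h2)

theorem tot (b : HilbertBasis I ℝ U) (x : U) (h : ∀ i, inner ℝ (b i) x = 0) : x = 0 := by
  refine b.repr.injective ?_
  rw [map_zero]
  ext i
  rw [b.repr_apply_apply, h]
  rfl

theorem le_dbl {U' I' : Type} [NormedAddCommGroup U'] [InnerProductSpace ℝ U']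
    (b : HilbertBasis I ℝ U) (b' : HilbertBasis I' ℝ U')
    (Φ : WithLp 2 (U × U) ≃ₗᵢ[ℝ] WithLp 2 (U' × U')) : #I' + #I' ≤ #I + #I := by
  have h := card_le (fun i => Φ (dbl b i)) (fun x hx => ?_) (dbl_on b'.orthonormal)
  · simpa using h
  · have h1 := dbl_tot (tot b) (Φ.symm x) fun i => by
      rw [← Φ.inner_map_map, Φ.apply_symm_apply]
      exact hx i
    simpa using h1

theorem half {a b : Cardinal.{0}} (h : a + a ≤ b + b) : a ≤ b := by
  rcases lt_or_ge b ℵ₀ with hb | hb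
  · obtain ⟨n, rfl⟩ := lt_aleph0.1 hb
    obtain ⟨m, rfl⟩ := lt_aleph0.1 ((le_add_left le_rfl : a ≤ a + a).trans_lt
      (h.trans_lt (add_lt_aleph0 hb hb)))
    norm_cast at h ⊢
    omega
  · rw [add_eq_self hb] at h
    exact (le_add_left le_rfl : a ≤ a + a).trans h

omit [InnerProductSpace ℝ U] in
theorem iso {W : Type} [MetricSpace W] (h : IsProd W U U) : Nonempty (W ≃ᵢ WithLp 2 (U × U)) := by
  obtain ⟨e, he⟩ := h
  refine ⟨⟨e.trans (WithLp.equiv 2 _).symm, Isometry.of_dist_eq fun p q => ?_⟩⟩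
  rw [WithLp.prod_dist_eq_of_L2]
  exact (congrArg Real.sqrt (he p q).symm).trans (Real.sqrt_sq dist_nonneg)

end HDimA

open HDimA in
theorem sHDim : SHDim := by
  intro W U U' _ _ _ _ _ _ _ h h'
  obtain ⟨e⟩ := iso h
  obtain ⟨e'⟩ := iso h'
  obtain ⟨w, b, -⟩ := exists_hilbertBasis ℝ U
  obtain ⟨w', b', -⟩ := exists_hilbertBasis ℝ U'
  let Φ := (e.symm.trans e').toRealLinearIsometryEquiv
  obtain ⟨σ⟩ := Cardinal.eq.1 (le_antisymm (half (le_dbl b' b Φ.symm)) (half (le_dbl b b' Φ)))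
  let c : HilbertBasis w ℝ U' := HilbertBasis.mk (b'.orthonormal.comp σ σ.injective)
    (by rw [σ.surjective.range_comp, b'.dense_span])
  exact ⟨(b.repr.trans c.repr.symm).toIsometryEquiv⟩

end Pool.Agent.MP_1231ed_gt.R

end FHDim

section FComm
namespace Pool.Agent.MP_1231ed_gt.R

namespace CommA

variable {X E : Type} [MetricSpace X] [AddCommGroup E] [Module ℝ E] {M : Mod X E}
  {P P' : Module.End ℝ E}

theorem move (h : Pr M P) (h' : Pr M P') (x y p : X) :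
    ∃ z, M.ι z = M.ι p + ((1 - P) * P' * P) (M.ι x - M.ι y) := by
  obtain ⟨y₁, e₁⟩ := h.mem x y
  obtain ⟨p₁, e₂⟩ := h.mem y p
  obtain ⟨p₂, e₃⟩ := h.mem y₁ p
  obtain ⟨p₃, e₄⟩ := h'.mem p₂ p₁
  obtain ⟨z, e₅⟩ := h.compl.mem p₃ p
  have e₆ : M.ι p₂ - M.ι p₁ = P (M.ι x - M.ι y) := by
    rw [e₃, e₂, e₁, add_sub_right_comm (M.ι y), map_add, h.idem_apply]
    abel
  refine ⟨z, ?_⟩
  rw [e₅, e₄, e₆, e₂, add_assoc, add_sub_cancel_left, map_add, Module.End.mul_apply,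
    Module.End.mul_apply, LinearMap.sub_apply 1 P (P (M.ι y - M.ι p)), Module.End.one_apply,
    h.idem_apply, sub_self, zero_add]

theorem form (h : Pr M P) (h' : Pr M P') {g : E} (hg : P g = g) :
    M.B (P' g) (P' g) = M.B ((P * P' * P) g) g := by
  rw [Module.End.mul_apply, Module.End.mul_apply, hg, h.adj, hg, h'.adj, h'.adj, h'.idem_apply]

/-- A translation killed by `s (1 - s)` is orthogonal to the twisted vectors. -/
theorem orth [Nonempty X] (h : Pr M P) (h' : Pr M P') {g : E} (hg : g ∈ Tr M) (hP : P g = g)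
    (h0 : (P * P' * P * (1 - P * P' * P)) g = 0) (u : E) :
    M.B ((P * P' * (1 - P)) u) g = 0 := by
  have t₁ : (P * P' * P) g ∈ Tr M := h.tr (h'.tr (h.tr hg))
  have t₀ : g - (P * P' * P) g ∈ Tr M := sub_mem hg t₁
  have f₁ : P ((P * P' * P) g) = (P * P' * P) g := h.idem_apply _
  have f₀ : P (g - (P * P' * P) g) = g - (P * P' * P) g := by rw [map_sub, hP, f₁]
  have z₀ : (P * P' * P) (g - (P * P' * P) g) = 0 := h0
  have k₀ : P' (g - (P * P' * P) g) = 0 :=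
    Tr_eq_zero (h'.tr t₀) (by rw [form h h' f₀, z₀, LinearMap.map_zero₂])
  have k₁ : (1 - P') ((P * P' * P) g) = 0 := by
    refine Tr_eq_zero (h'.compl.tr t₁) ?_
    have e : (P * (1 - P') * P) ((P * P' * P) g) = 0 := by
      rw [map_sub, sub_eq_zero] at z₀
      rw [Module.End.mul_apply (P * (1 - P')), f₁, Module.End.mul_apply P (1 - P'),
        LinearMap.sub_apply, Module.End.one_apply, map_sub, f₁, sub_eq_zero]
      conv_lhs => rw [z₀]
      rw [Module.End.mul_apply (P * P') P ((P * P' * P) g), f₁]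
      rfl
    rw [form h h'.compl f₁, e, LinearMap.map_zero₂]
  rw [LinearMap.sub_apply, Module.End.one_apply, sub_eq_zero] at k₁
  rw [map_sub, sub_eq_zero, ← k₁] at k₀
  rw [Module.End.mul_apply, Module.End.mul_apply, h.adj, hP, h'.adj, k₀, h.compl.adj,
    LinearMap.sub_apply, Module.End.one_apply, f₁, sub_self, map_zero]

end CommA

theorem sTr : STr := by
  intro X E _ _ _ M P P' h h' x y
  refine ⟨fun p => CommA.move h h' x y p, fun p => ?_⟩
  obtain ⟨z, hz⟩ := CommA.move h h' y x p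
  exact ⟨z, by rw [hz, ← neg_sub (M.ι x), map_neg, sub_eq_add_neg (M.ι p)]⟩

theorem sComm (h1 : STr) (h2 : SBern) : SComm := by
  intro X E _ _ _ _ _ M π P P' hπ h h'
  have hR : Pr M (1 - π) := hπ.pr.compl
  have c : ∀ Q, Pr M Q → Commute (1 - π) Q := fun Q hQ =>
    (Commute.one_left Q).sub_left (hπ.comm hQ)
  have c₁ := c _ h.compl
  have c₂ := c _ h'
  have c₃ := c _ h
  have key : (1 - π) * ((1 - P) * P' * P) = 0 := by
    refine M.ext_end fun x y => ?_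
    have hg := h1 X E M P P' h h' x y
    have hP : (1 - P) (((1 - P) * P' * P) (M.ι x - M.ι y)) =
        ((1 - P) * P' * P) (M.ι x - M.ι y) := h.compl.idem_apply _
    have hH := h2 X E M (1 - P) P' h.compl h' _ hg hP
    have cs : Commute (1 - π) ((1 - P) * P' * (1 - P)) := (c₁.mul_right c₂).mul_right c₁
    have ca := cs.mul_right ((Commute.one_right (1 - π)).sub_right cs)
    have ho := CommA.orth h.compl h' (hR.tr hg)
      (by rw [← Module.End.mul_apply, ← c₁.eq, Module.End.mul_apply, hP])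
      (by rw [← Module.End.mul_apply, ← ca.eq, Module.End.mul_apply, LinearMap.sub_apply,
        Module.End.one_apply, hπ.fix _ hH, sub_self]) (M.ι x - M.ι y)
    rw [sub_sub_cancel] at ho
    rw [Module.End.mul_apply, LinearMap.zero_apply]
    refine Tr_eq_zero (hR.tr hg) ?_
    rw [hR.adj, hR.idem_apply]
    exact ho
  have e : (1 - π) * (P' * P) = (1 - π) * (P * P' * P) := by
    rw [← sub_eq_zero, ← key, ← mul_sub, sub_mul 1 P, one_mul, sub_mul P']
  have e' : P' * P * (1 - π) = P * P' * P * (1 - π) := by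
    rw [← (c₂.mul_right c₃).eq, ← ((c₃.mul_right c₂).mul_right c₃).eq, e]
  rw [e]
  refine LinearMap.ext fun v => M.ext_vec fun x y => ?_
  have e'' := LinearMap.congr_fun e' (M.ι x - M.ι y)
  simp only [Module.End.mul_apply] at e'' ⊢
  rw [hR.adj, hR.adj, h.adj, h.adj, h'.adj, h'.adj, h.adj v, ← e'']

end Pool.Agent.MP_1231ed_gt.R

end FComm

section FBern
open Filter Topology

namespace Pool.Agent.MP_1231ed_gt.R

namespace BernA

variable {X E : Type} [MetricSpace X] [AddCommGroup E] [Module ℝ E] {M : Mod X E}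

theorem lim1 [CompleteSpace X] {v : E} {δ : ℕ → ℝ} (hδ : Tendsto δ atTop (𝓝 0))
    (h : ∀ n, ∃ f ∈ Tr M, ∀ c d, |M.B (v - f) (M.ι c - M.ι d)| ≤ δ n * dist c d) (x : X) :
    ∃ z, M.ι z = M.ι x + v := by
  choose f hf hb using h
  choose z hz using fun n => (hf n).1 x
  have h1 : CauchySeq z := by
    refine Metric.cauchySeq_iff.2 fun ε hε => ?_
    obtain ⟨N, hN⟩ := eventually_atTop.1 (hδ.eventually (gt_mem_nhds (half_pos hε)))
    refine ⟨N, fun m hm n hn => ?_⟩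
    have e : M.ι (z m) - M.ι (z n) = (v - f n) - (v - f m) := by rw [hz, hz]; abel
    have h2 := M.dist_sq (z m) (z n)
    nth_rw 1 [e] at h2
    rw [LinearMap.map_sub₂] at h2
    have h3 := (abs_le.1 (hb n (z m) (z n))).2
    have h4 := (abs_le.1 (hb m (z m) (z n))).1
    have h5 := hN m hm
    have h6 := hN n hn
    by_contra h7
    have h8 := not_lt.1 h7
    nlinarith
  obtain ⟨y, hy⟩ := cauchySeq_tendsto_of_complete h1
  refine ⟨y, eq_add_of_sub_eq' (M.ext_vec fun c d => ?_)⟩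
  refine tendsto_nhds_unique (((M.cont x _).tendsto y).comp hy) ?_
  have h2 : Tendsto (fun n => M.B (v - f n) (M.ι c - M.ι d)) atTop (𝓝 0) :=
    squeeze_zero_norm (fun n => hb n c d) (by simpa using hδ.mul_const (dist c d))
  have h3 := h2.const_sub (M.B v (M.ι c - M.ι d))
  rw [sub_zero] at h3
  refine h3.congr fun n => ?_
  rw [Function.comp_apply, hz, add_sub_cancel_left, LinearMap.map_sub₂, sub_sub_cancel]

theorem lim2 [CompleteSpace X] {v : E} {δ : ℕ → ℝ} (hδ : Tendsto δ atTop (𝓝 0))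
    (h : ∀ n, ∃ f ∈ Tr M, ∃ e ∈ Tr M, ∃ r : ℝ, v - f = r • e ∧ |r| * √(M.B e e) ≤ δ n) :
    v ∈ Tr M := by
  have h1 : ∀ n, ∃ f ∈ Tr M, ∀ c d, |M.B (v - f) (M.ι c - M.ι d)| ≤ δ n * dist c d := fun n => by
    obtain ⟨f, hf, e, he, r, h1, h2⟩ := h n
    refine ⟨f, hf, fun c d => ?_⟩
    rw [h1, LinearMap.map_smul₂, smul_eq_mul, abs_mul]
    refine (mul_le_mul_of_nonneg_left (Tr_cs he c d) (abs_nonneg r)).trans ?_
    rw [← mul_assoc]
    exact mul_le_mul_of_nonneg_right h2 dist_nonneg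
  refine ⟨lim1 hδ h1, fun x => ?_⟩
  rw [sub_eq_add_neg]
  refine lim1 hδ (fun n => ?_) x
  obtain ⟨f, hf, h2⟩ := h1 n
  refine ⟨-f, neg_mem hf, fun c d => ?_⟩
  rw [← neg_sub', LinearMap.map_neg₂, abs_neg]
  exact h2 c d

theorem line [CompleteSpace X] {h : E} (H : ∀ m : ℕ, (1 / 2 : ℝ) ^ m • h ∈ Tr M) :
    h ∈ Hs M := fun t => by
  have h0 : h ∈ Tr M := by simpa using H 0
  have h1 := (tendsto_pow_atTop_nhds_zero_of_lt_one (r := (1 / 2 : ℝ)) (by norm_num)
    (by norm_num)).mul_const √(M.B h h)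
  rw [zero_mul] at h1
  refine (lim2 h1 fun n => ⟨_, zsmul_mem (H n) ⌊t * 2 ^ n⌋, h, h0,
    Int.fract (t * 2 ^ n) * (1 / 2) ^ n, ?_, ?_⟩).1
  · rw [← Int.cast_smul_eq_zsmul ℝ, smul_smul, ← sub_smul, Int.fract, sub_mul, mul_assoc,
      ← mul_pow]
    norm_num
  · refine mul_le_mul_of_nonneg_right ?_ (Real.sqrt_nonneg _)
    rw [abs_of_nonneg (mul_nonneg (Int.fract_nonneg _) (by positivity))]
    exact mul_le_of_le_one_left (by positivity) (Int.fract_lt_one _).le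

variable {G : E → Prop} {s u : Module.End ℝ E}

theorem half [CompleteSpace X] (hG : ∀ h, G h → h ∈ Tr M ∧ s h ∈ Tr M ∧ G (u h))
    (hu : ∀ h, u h = h - s h - s h) {h : E} (H : G h)
    (h0 : Tendsto (fun n => M.B ((u ^ n) h) ((u ^ n) h)) atTop (𝓝 0)) :
    (1 / 2 : ℝ) • h ∈ Tr M := by
  have h1 : ∀ n, G ((u ^ n) h) ∧ ∃ f ∈ Tr M, (1 / 2 : ℝ) • h - f = (1 / 2 : ℝ) • (u ^ n) h := by
    intro n
    induction n with
    | zero => exact ⟨H, 0, zero_mem _, sub_zero _⟩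
    | succ n ih =>
      obtain ⟨h1, f, hf, e⟩ := ih
      rw [pow_succ', Module.End.mul_apply]
      refine ⟨(hG _ h1).2.2, f + s ((u ^ n) h), add_mem hf (hG _ h1).2.1, ?_⟩
      rw [← sub_sub, e, hu]
      module
  have h2 := h0.sqrt.const_mul |(1 / 2 : ℝ)|
  rw [Real.sqrt_zero, mul_zero] at h2
  refine lim2 h2 fun n => ?_
  obtain ⟨h3, f, hf, e⟩ := h1 n
  exact ⟨f, hf, _, (hG _ h3).1, _, e, le_rfl⟩

theorem decay [Nonempty X] (hG : ∀ h, G h → h ∈ Tr M ∧ G (u h))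
    (adj : ∀ v w, M.B (u v) w = M.B v (u w)) (hc : ∀ h, G h → M.B (u h) (u h) ≤ M.B h h)
    {h : E} (H : G h) : Tendsto (fun n => M.B ((u ^ n) (h - u (u h))) ((u ^ n) (h - u (u h))))
      atTop (𝓝 0) := by
  have h1 : ∀ n, G ((u ^ n) h) := fun n => by
    induction n with
    | zero => exact H
    | succ n ih => rw [pow_succ']; exact (hG _ ih).2
  have h2 : Antitone fun n => M.B ((u ^ n) h) ((u ^ n) h) :=
    antitone_nat_of_succ_le fun n => by rw [pow_succ']; exact hc _ (h1 n)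
  have h3 := tendsto_atTop_ciInf h2 ⟨0, by rintro _ ⟨n, rfl⟩; exact Tr_nonneg (hG _ (h1 n)).1⟩
  have h4 := (tendsto_add_atTop_iff_nat 1).2 h3
  have h5 := ((h3.sub h4).sub h4).add ((tendsto_add_atTop_iff_nat 1).2 h4)
  rw [sub_self, zero_sub, neg_add_cancel] at h5
  refine h5.congr fun n => ?_
  have e : (u ^ n) (u (u h)) = u (u ((u ^ n) h)) := by
    simp only [← Module.End.mul_apply, ← mul_assoc, ← pow_succ, ← pow_succ']
  simp only [pow_succ', Module.End.mul_apply, map_sub, LinearMap.sub_apply, e]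
  rw [adj (u _) ((u ^ n) h), ← adj ((u ^ n) h) (u _)]
  ring

end BernA

open BernA in
theorem sBern : SBern := by
  intro X E _ _ _ _ _ M P P' hP hP' g hg hPg
  obtain ⟨s, hs⟩ : ∃ s, s = P * P' * P := ⟨_, rfl⟩
  obtain ⟨u, hu'⟩ : ∃ u, u = 1 - s - s := ⟨_, rfl⟩
  have hu : ∀ h, u h = h - s h - s h := fun h => by rw [hu']; rfl
  have hs' : ∀ h, s h = P (P' (P h)) := fun h => by rw [hs]; rfl
  have adj : ∀ v w, M.B (s v) w = M.B v (s w) := fun v w => by
    rw [hs', hs', hP.adj, hP'.adj, hP.adj]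
  have g1 : ∀ h, h ∈ Tr M ∧ P h = h → s h ∈ Tr M ∧ P (s h) = s h := fun h H => by
    rw [hs']
    exact ⟨hP.tr (hP'.tr (hP.tr H.1)), hP.idem_apply _⟩
  have g2 : ∀ h, h ∈ Tr M ∧ P h = h → u h ∈ Tr M ∧ P (u h) = u h := fun h H => by
    rw [hu, map_sub, map_sub, H.2, (g1 h H).2]
    exact ⟨sub_mem (sub_mem H.1 (g1 h H).1) (g1 h H).1, rfl⟩
  have hc : ∀ h, h ∈ Tr M ∧ P h = h → M.B (u h) (u h) ≤ M.B h h := fun h H => by
    have h1 := Tr_nonneg (hP.compl.tr (hP'.tr H.1))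
    rw [hP.compl.adj, hP.compl.idem_apply, LinearMap.sub_apply, map_sub] at h1
    have h2 : M.B h (s h) = M.B (P' h) (P' h) := by
      rw [hs', ← hP.adj, H.2, hP'.adj, hP'.idem_apply]
    have h3 : M.B (s h) (s h) = M.B (P' h) (P (P' h)) := by
      rw [hs', H.2, hP.adj, hP.idem_apply]
    rw [hu]
    simp only [map_sub, LinearMap.sub_apply, M.symm (s h) h, h2, h3]
    simp only [Module.End.one_apply] at h1
    linarith
  have h1 := decay (G := fun h => h ∈ Tr M ∧ P h = h) (fun h H => ⟨H.1, g2 h H⟩)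
    (fun v w => by simp only [hu, map_sub, LinearMap.sub_apply, adj]) hc ⟨hg, hPg⟩
  have e : (s * (1 - s)) g = (1 / 4 : ℝ) • (g - u (u g)) := by
    simp only [hu, map_sub, Module.End.mul_apply, LinearMap.sub_apply, Module.End.one_apply]
    module
  rw [← hs, e]
  refine Submodule.smul_mem _ _ (line fun m => ?_)
  have h2 := g2 _ (g2 _ ⟨hg, hPg⟩)
  induction m with
  | zero => simpa using sub_mem hg h2.1
  | succ m ih =>
    rw [pow_succ', mul_smul]
    refine half (G := fun h => h ∈ Tr M ∧ P h = h) (fun h H => ⟨H.1, (g1 h H).1, g2 h H⟩) hu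
      ⟨ih, by rw [map_smul, map_sub, hPg, h2.2]⟩ ?_
    have h3 := (h1.const_mul ((1 / 2 : ℝ) ^ m)).const_mul ((1 / 2 : ℝ) ^ m)
    rw [mul_zero, mul_zero] at h3
    simpa only [map_smul, LinearMap.smul_apply, smul_eq_mul] using h3

end Pool.Agent.MP_1231ed_gt.R

end FBern

section FSup
namespace Pool.Agent.MP_1231ed_gt.R

namespace SupA

open Filter Topology

variable {X E : Type} [MetricSpace X] [AddCommGroup E] [Module ℝ E] {M : Mod X E}
  {D : Set (Module.End ℝ E)}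

theorem exists_filter (hne : D.Nonempty) (hP : ∀ P ∈ D, Pr M P)
    (hd : ∀ P ∈ D, ∀ Q ∈ D, ∃ S ∈ D, S * P = P ∧ S * Q = Q) :
    ∃ F : Filter D, F.NeBot ∧ ∀ P : D, ∀ᶠ S : D in F, S.1 * P.1 = P.1 := by
  haveI := hne.to_subtype
  refine ⟨⨅ P : D, 𝓟 {S : D | S.1 * P.1 = P.1}, ?_,
    fun P => mem_iInf_of_mem P (mem_principal_self _)⟩
  refine iInf_neBot_of_directed' (fun P Q => ?_) fun P =>
    principal_neBot_iff.2 ⟨P, (hP _ P.2).idem⟩
  obtain ⟨S, hS, h1, h2⟩ := hd _ P.2 _ Q.2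
  refine ⟨⟨S, hS⟩, principal_mono.2 fun T hT => ?_, principal_mono.2 fun T hT => ?_⟩
  · change T.1 * P.1 = P.1
    rw [← h1, ← mul_assoc, show T.1 * S = S from hT]
  · change T.1 * Q.1 = Q.1
    rw [← h2, ← mul_assoc, show T.1 * S = S from hT]

theorem tends {F : Filter D} (hP : ∀ P ∈ D, Pr M P)
    (hF : ∀ P : D, ∀ᶠ S : D in F, S.1 * P.1 = P.1) {x y : X} {m : ℝ}
    (hm : IsLUB (mu M x y '' D) m) : Tendsto (fun S : D => mu M x y S.1) F (𝓝 m) := by
  refine tendsto_order.2 ⟨fun a ha => ?_, fun a ha => ?_⟩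
  · obtain ⟨_, ⟨P, hPD, rfl⟩, h1, -⟩ := hm.exists_between ha
    filter_upwards [hF ⟨P, hPD⟩] with S hS
    exact h1.trans_le ((hP _ S.2).mu_mono (hP _ hPD) hS x y)
  · exact Eventually.of_forall fun S => (hm.1 ⟨S.1, S.2, rfl⟩).trans_lt ha

theorem lub (hne : D.Nonempty) (hP : ∀ P ∈ D, Pr M P) (x y : X) :
    IsLUB (mu M x y '' D) (sSup (mu M x y '' D)) := by
  refine isLUB_csSup (hne.image _) ⟨mu M x y 1, ?_⟩
  rintro _ ⟨P, h, rfl⟩
  exact Pr.one.mu_mono (hP P h) (one_mul P) x y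

theorem lim_pt [CompleteSpace X] {F : Filter D} [F.NeBot] (hne : D.Nonempty)
    (hP : ∀ P ∈ D, Pr M P) (hF : ∀ P : D, ∀ᶠ S : D in F, S.1 * P.1 = P.1) (x y : X) :
    ∃ z, ∀ w, Tendsto (fun S : D => M.B (S.1 (M.ι x - M.ι y)) w) F
      (𝓝 (M.B (M.ι z - M.ι y) w)) := by
  choose z hz using fun S : D => (hP _ S.2).mem x y
  have hm := lub hne hP x y
  have hc : Cauchy (map z F) := by
    refine Metric.cauchy_iff.2 ⟨inferInstance, fun ε hε => ?_⟩
    obtain ⟨_, ⟨P, hPD, rfl⟩, h1, -⟩ := hm.exists_between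
      (sub_lt_self (sSup (mu M x y '' D)) (pow_pos (half_pos hε) 2))
    refine ⟨Metric.ball (z ⟨P, hPD⟩) (ε / 2), ?_, fun a ha b hb => ?_⟩
    · rw [mem_map]
      filter_upwards [hF ⟨P, hPD⟩] with S hS
      have h2 := (hP _ S.2).sub (hP _ hPD) hS
      have h3 : dist (z S) (z ⟨P, hPD⟩) ^ 2 = mu M x y S.1 - mu M x y P := by
        rw [← M.dist_sq, hz, hz, add_sub_add_left_eq_sub, ← LinearMap.sub_apply, h2.adj,
          h2.idem_apply, ← h2.adj, ← mu_sub, mu]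
      have h4 := hm.1 ⟨S.1, S.2, rfl⟩
      exact lt_of_pow_lt_pow_left₀ 2 (half_pos hε).le (by rw [h3]; linarith)
    · exact (dist_triangle_right a b _).trans_lt (by
        linarith [Metric.mem_ball.1 ha, Metric.mem_ball.1 hb])
  obtain ⟨z0, h0⟩ := CompleteSpace.complete hc
  refine ⟨z0, fun w => (((M.cont y w).tendsto z0).comp h0).congr fun S => ?_⟩
  rw [Function.comp_apply, hz, add_sub_cancel_left]

end SupA

open Filter Topology SupA

theorem sSup' : SSup := by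
  intro X E _ _ _ _ M D hne hP hd
  obtain ⟨F, hF0, hF⟩ := exists_filter hne hP hd
  have hex : ∀ v, ∃ v', ∀ w, Tendsto (fun S : D => M.B (S.1 v) w) F (𝓝 (M.B v' w)) := by
    refine M.ind (fun x y => ?_) ⟨0, fun w => by simp⟩ ?_ ?_
    · obtain ⟨z, hz⟩ := lim_pt hne hP hF x y
      exact ⟨_, hz⟩
    · rintro v w ⟨v', h1⟩ ⟨w', h2⟩
      exact ⟨v' + w', fun u => by simpa using (h1 u).add (h2 u)⟩
    · rintro c v ⟨v', h1⟩
      exact ⟨c • v', fun u => by simpa using (h1 u).const_mul c⟩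
  choose q hq using hex
  have huniq : ∀ v v', (∀ w, Tendsto (fun S : D => M.B (S.1 v) w) F (𝓝 (M.B v' w))) →
      q v = v' := fun v v' h => M.ext_vec fun x y => tendsto_nhds_unique (hq v _) (h _)
  let Q : Module.End ℝ E :=
    { toFun := q
      map_add' := fun v w => huniq _ _ fun u => by simpa using (hq v u).add (hq w u)
      map_smul' := fun c v => huniq _ _ fun u => by simpa using (hq v u).const_mul c }
  have hQ : ∀ v w, Tendsto (fun S : D => M.B (S.1 v) w) F (𝓝 (M.B (Q v) w)) := hq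
  have h1 : ∀ P ∈ D, P * Q = P := fun P h => LinearMap.ext fun v => M.ext_vec fun x y => by
    rw [Module.End.mul_apply, (hP P h).adj, (hP P h).adj]
    refine tendsto_nhds_unique (hQ v _) (tendsto_const_nhds.congr' ?_)
    filter_upwards [hF ⟨P, h⟩] with S hS
    rw [(hP _ S.2).adj, ← Module.End.mul_apply, hS]
  refine ⟨Q, ⟨?_, fun v w => ?_, fun x y => ?_⟩, fun P h => ?_, fun S hS h0 => ?_, fun x y => ?_⟩
  · refine LinearMap.ext fun v => huniq _ _ fun w => (hQ v w).congr fun S => ?_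
    rw [← Module.End.mul_apply, h1 _ S.2]
  · rw [M.symm v]
    refine tendsto_nhds_unique (hQ v w) ((hQ w v).congr fun S => ?_)
    rw [(hP _ S.2).adj, M.symm]
  · obtain ⟨z, hz⟩ := lim_pt hne hP hF x y
    exact ⟨z, by rw [show Q _ = _ from huniq _ _ hz, add_sub_cancel]⟩
  · refine LinearMap.ext fun v => huniq _ _ fun w => tendsto_const_nhds.congr' ?_
    filter_upwards [hF ⟨P, h⟩] with S hS
    rw [← Module.End.mul_apply, hS]
  · refine LinearMap.ext fun v => M.ext_vec fun x y => ?_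
    rw [Module.End.mul_apply, hS.adj]
    refine tendsto_nhds_unique (hQ v _) (tendsto_const_nhds.congr fun T => ?_)
    rw [← hS.adj, ← Module.End.mul_apply, h0 _ T.2]
  · have hm := lub hne hP x y
    rwa [tendsto_nhds_unique (tends hP hF hm) (hQ (M.ι x - M.ι y) (M.ι x - M.ι y))] at hm

theorem sSupO (h : SSup) : SSupO := by
  classical
  intro X E _ _ _ _ M T hP ho
  have hs : ∀ s : Finset (Module.End ℝ E), (↑s : Set _) ⊆ T → Pr M (∑ P ∈ s, P) := by
    intro s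
    induction s using Finset.induction_on with
    | empty => exact fun _ => by simpa using Pr.zero
    | insert a s ha ih =>
      intro hsub
      rw [Finset.coe_insert, Set.insert_subset_iff] at hsub
      rw [Finset.sum_insert ha]
      refine (hP a hsub.1).add (ih hsub.2) ?_
      rw [Finset.mul_sum]
      exact Finset.sum_eq_zero fun b hb => ho a hsub.1 b (hsub.2 hb) fun e => ha (e ▸ hb)
  have hm : ∀ s t : Finset (Module.End ℝ E), (↑t : Set _) ⊆ T → s ⊆ t →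
      (∑ P ∈ t, P) * ∑ P ∈ s, P = ∑ P ∈ s, P := by
    intro s t ht hst
    rw [Finset.mul_sum]
    refine Finset.sum_congr rfl fun a ha => ?_
    rw [Finset.sum_mul, Finset.sum_eq_single_of_mem a (hst ha)
      fun b hb hba => ho b (ht hb) a (ht (hst ha)) hba, (hP a (ht (hst ha))).idem]
  obtain ⟨Q, h1, h2, h3, -⟩ := h X E M
    {S | ∃ s : Finset (Module.End ℝ E), (↑s : Set _) ⊆ T ∧ S = ∑ P ∈ s, P}
    ⟨_, ∅, by simp, rfl⟩ (by rintro _ ⟨s, h, rfl⟩; exact hs s h) (by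
      rintro _ ⟨s, h, rfl⟩ _ ⟨t, h', rfl⟩
      have hu : (↑(s ∪ t) : Set _) ⊆ T := by
        rw [Finset.coe_union]; exact Set.union_subset h h'
      exact ⟨_, ⟨s ∪ t, hu, rfl⟩, hm _ _ hu Finset.subset_union_left,
        hm _ _ hu Finset.subset_union_right⟩)
  refine ⟨Q, h1, fun P hPT => h2 P ⟨{P}, by simpa using hPT, by simp⟩, fun S hS h0 => h3 S hS ?_⟩
  rintro _ ⟨s, hsT, rfl⟩
  rw [Finset.mul_sum]
  exact Finset.sum_eq_zero fun b hb => h0 b (hsT hb)

end Pool.Agent.MP_1231ed_gt.R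

end FSup

section FSmall
namespace Pool.Agent.MP_1231ed_gt.R

namespace SmallA

variable {X E : Type} [MetricSpace X] [AddCommGroup E] [Module ℝ E] {M : Mod X E}

theorem le_tr {P Q R : Module.End ℝ E} (h : Q * P = P) (h' : R * Q = Q) : R * P = P := by
  rw [← h, ← mul_assoc, h']

theorem mu_zero (x y : X) : mu M x y 0 = 0 := by simp [mu]

theorem zorn [CompleteSpace X] (h : SSup) (x y : X) {S₁ S₂ : Module.End ℝ E} (h1 : Pr M S₁)
    (h2 : Pr M S₂) (h12 : S₂ * S₁ = S₁) {m : ℝ} (hm : mu M x y S₁ ≤ m) :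
    ∃ S, (Pr M S ∧ S₂ * S = S ∧ S * S₁ = S₁ ∧ mu M x y S ≤ m) ∧
      ∀ S', Pr M S' → (S₂ - S) * S' = S' → mu M x y S + mu M x y S' ≤ m → S' = 0 := by
  let A := {S : Module.End ℝ E // Pr M S ∧ S₂ * S = S ∧ S * S₁ = S₁ ∧ mu M x y S ≤ m}
  have : Nonempty A := ⟨⟨S₁, h1, h12, h1.idem, hm⟩⟩
  obtain ⟨⟨S, a1, a2, a3, a4⟩, hS⟩ := exists_maximal_of_nonempty_chains_bounded
    (r := fun a b : A => b.1 * a.1 = a.1) (fun c hc hne => by
      obtain ⟨Q, q1, q2, q3, q4⟩ := h X E M (Subtype.val '' c) (hne.image _)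
        (by rintro _ ⟨a, -, rfl⟩; exact a.2.1) (by
          rintro _ ⟨a, ha, rfl⟩ _ ⟨b, hb, rfl⟩
          by_cases e : a = b
          · exact ⟨_, ⟨a, ha, rfl⟩, a.2.1.idem, e ▸ a.2.1.idem⟩
          · rcases hc ha hb e with e | e
            · exact ⟨_, ⟨b, hb, rfl⟩, e, b.2.1.idem⟩
            · exact ⟨_, ⟨a, ha, rfl⟩, a.2.1.idem, e⟩)
      obtain ⟨a, ha⟩ := hne
      have q5 := q3 _ h2.compl (by
        rintro _ ⟨b, -, rfl⟩
        rw [sub_mul, one_mul, b.2.2.1, sub_self])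
      rw [sub_mul, one_mul, sub_eq_zero] at q5
      refine ⟨⟨Q, q1, q5.symm, le_tr a.2.2.2.1 (q2 _ ⟨a, ha, rfl⟩), (q4 x y).2 ?_⟩,
        fun b hb => q2 _ ⟨b, hb, rfl⟩⟩
      rintro _ ⟨_, ⟨b, -, rfl⟩, rfl⟩
      exact b.2.2.2.2) fun h h' => le_tr h h'
  refine ⟨S, ⟨a1, a2, a3, a4⟩, fun S' b1 b2 b3 => ?_⟩
  have c1 : S * S' = 0 := by
    rw [← b2, ← mul_assoc, mul_sub, h2.swap a1 a1 a2, a1.idem, sub_self, zero_mul]
  have c2 : S₂ * S' = S' := le_tr b2 (by rw [mul_sub, h2.idem, a2])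
  have c3 : (S + S') * S = S := by rw [add_mul, a1.idem, a1.swap b1 Pr.zero c1, add_zero]
  have c4 : S * (S + S') = S + S' := hS ⟨S + S', a1.add b1 c1, by rw [mul_add, a2, c2],
    le_tr a3 c3, by rw [mu_add]; exact b3⟩ c3
  rw [mul_add, a1.idem, c1] at c4
  exact (add_left_cancel c4).symm

end SmallA

open SmallA in
theorem sSmall (h : SSup) : SSmall := by
  intro X E _ _ _ _ M C x y hC S hS hCS h0 ε hε
  obtain ⟨N, ⟨a1, a2, -, a4⟩, hN⟩ := zorn h x y Pr.zero hS (mul_zero S) (mu_zero x y).le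
  have b0 : mu M x y N = 0 := le_antisymm a4 (a1.mu_nonneg x y)
  have b1 : S * (S - N) = S - N := by rw [mul_sub, hS.idem, a2]
  have key : ∀ k : ℕ, ∃ S', Pr M S' ∧ (S - N) * S' = S' ∧ S' ≠ 0 ∧
      mu M x y S' ≤ mu M x y S * (1 / 2) ^ k := fun k => by
    induction k with
    | zero =>
      refine ⟨S - N, hS.sub a1 a2, (hS.sub a1 a2).idem, fun e => ?_, by rw [mu_sub, b0]; simp⟩
      rw [sub_eq_zero.1 e, b0] at h0
      exact lt_irrefl _ h0
    | succ k ih =>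
      obtain ⟨T, t1, t2, t3, t4⟩ := ih
      obtain ⟨U, u1, u2, u3, u4⟩ := hC.split T t1 (le_tr (le_tr t2 b1) hCS) t3
      rw [pow_succ, ← mul_assoc]
      by_cases e : mu M x y U ≤ mu M x y T / 2
      · exact ⟨U, u1, le_tr u2 t2, u3, by linarith⟩
      · refine ⟨T - U, t1.sub u1 u2, by rw [mul_sub, t2, le_tr u2 t2],
          fun e => u4 (sub_eq_zero.1 e).symm, ?_⟩
        rw [mu_sub]
        linarith [not_le.1 e]
  obtain ⟨k, hk⟩ := exists_pow_lt_of_lt_one (div_pos hε h0) (by norm_num : (1 / 2 : ℝ) < 1)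
  obtain ⟨T, t1, t2, t3, t4⟩ := key k
  rw [lt_div_iff₀' h0] at hk
  refine ⟨T, t1, le_tr t2 b1, not_le.1 fun e => t3 (hN T t1 t2 ?_), t4.trans hk.le⟩
  linarith

open SmallA in
theorem sIvt (h : SSup) (h2 : SSmall) : SIvt := by
  intro X E _ _ _ _ M C x y hC S₁ S₂ h1 h2' hC2 h12 m m1 m2
  obtain ⟨S, ⟨a1, a2, a3, a4⟩, hS⟩ := zorn h x y h1 h2' h12 m1
  refine ⟨S, a1, a2, a3, a4.antisymm (not_lt.1 fun e => ?_)⟩
  obtain ⟨T, t1, t2, t3, t4⟩ := h2 X E M C x y hC (S₂ - S) (h2'.sub a1 a2)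
    (by rw [mul_sub, hC2, le_tr a2 hC2]) (by rw [mu_sub]; linarith) _ (sub_pos.2 e)
  rw [hS T t1 t2 (by linarith), mu_zero] at t3
  exact lt_irrefl _ t3

end Pool.Agent.MP_1231ed_gt.R

end FSmall

section FChain
namespace Pool.Agent.MP_1231ed_gt.R

namespace ChainA

variable {X E : Type} [MetricSpace X] [AddCommGroup E] [Module ℝ E]

/-- a maximal chain of projections below `C` -/
theorem exists_max (M : Mod X E) (C : Module.End ℝ E) : ∃ K : Set (Module.End ℝ E),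
    (∀ S ∈ K, Pr M S ∧ C * S = S) ∧ (∀ S ∈ K, ∀ S' ∈ K, S' * S = S ∨ S * S' = S') ∧
    ∀ S, Pr M S → C * S = S → (∀ S' ∈ K, S' * S = S ∨ S * S' = S') → S ∈ K := by
  obtain ⟨K, hK⟩ := zorn_subset {K : Set (Module.End ℝ E) |
      (∀ S ∈ K, Pr M S ∧ C * S = S) ∧ ∀ S ∈ K, ∀ S' ∈ K, S' * S = S ∨ S * S' = S'} (by
    intro c hc hch
    refine ⟨⋃₀ c, ⟨?_, ?_⟩, fun s hs => Set.subset_sUnion_of_mem hs⟩
    · rintro S ⟨A, hA, hS⟩
      exact (hc hA).1 S hS
    · rintro S ⟨A, hA, hS⟩ S' ⟨A', hA', hS'⟩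
      rcases hch.total hA hA' with h | h
      · exact (hc hA').2 S (h hS) S' hS'
      · exact (hc hA).2 S hS S' (h hS'))
  refine ⟨K, hK.prop.1, hK.prop.2, fun S h1 h2 h3 => ?_⟩
  refine hK.le_of_ge (y := insert S K) ⟨?_, ?_⟩ (Set.subset_insert _ _) (Set.mem_insert _ _)
  · rintro A (rfl | hA)
    · exact ⟨h1, h2⟩
    · exact hK.prop.1 A hA
  · rintro A (rfl | hA) A' (rfl | hA')
    · exact Or.inl h1.idem
    · exact h3 A' hA'
    · exact (h3 A hA).symm
    · exact hK.prop.2 A hA A' hA'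

theorem onto [CompleteSpace X] (h1 : SSup) (h2 : SIvt) (M : Mod X E) (C : Module.End ℝ E)
    (x y : X) (hC : Cont M C) (K : Set (Module.End ℝ E)) (k1 : ∀ S ∈ K, Pr M S ∧ C * S = S)
    (k2 : ∀ S ∈ K, ∀ S' ∈ K, S' * S = S ∨ S * S' = S')
    (k3 : ∀ S, Pr M S → C * S = S → (∀ S' ∈ K, S' * S = S ∨ S * S' = S') → S ∈ K)
    (m : ℝ) (m0 : 0 ≤ m) (m1 : m ≤ mu M x y C) : ∃ S ∈ K, mu M x y S = m := by
  by_contra hno
  have pC := hC.pr
  have z0 : (0 : Module.End ℝ E) ∈ K :=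
    k3 0 Pr.zero (mul_zero _) fun S' _ => Or.inl (mul_zero _)
  have zC : C ∈ K := k3 C pC pC.idem fun S' h => Or.inr (k1 S' h).2
  have kC : ∀ B ∈ K, B * C = B := fun B h => pC.swap (k1 B h).1 (k1 B h).1 (k1 B h).2
  have LU : ∀ A ∈ K, ∀ B ∈ K, mu M x y A ≤ m → m ≤ mu M x y B → B * A = A := by
    intro A hA B hB a b
    rcases k2 A hA B hB with h | h
    · exact h
    · exact absurd ⟨A, hA, le_antisymm a (b.trans ((k1 A hA).1.mu_mono (k1 B hB).1 h x y))⟩ hno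
  obtain ⟨S₁, p1, u1, a1, l1⟩ := h1 X E M {S | S ∈ K ∧ mu M x y S ≤ m}
    ⟨0, z0, by simpa [mu] using m0⟩ (fun P h => (k1 P h.1).1) (fun P h Q h' => by
      rcases k2 P h.1 Q h'.1 with e | e
      · exact ⟨Q, h', e, (k1 Q h'.1).1.idem⟩
      · exact ⟨P, h, (k1 P h.1).1.idem, e⟩)
  have b1 : ∀ B ∈ K, m ≤ mu M x y B → B * S₁ = S₁ := by
    intro B hB b
    have := a1 (1 - B) (k1 B hB).1.compl fun A hA => by
      rw [sub_mul, one_mul, LU A hA.1 B hB hA.2 b, sub_self]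
    rw [sub_mul, one_mul, sub_eq_zero] at this
    exact this.symm
  have pD : ∀ B ∈ K, Pr M (C - B) := fun B h => pC.sub (k1 B h).1 (k1 B h).2
  have dD : ∀ B ∈ K, ∀ B' ∈ K, B' * B = B → (C - B) * (C - B') = C - B' := by
    intro B h B' h' e
    rw [sub_mul, mul_sub, mul_sub, pC.idem, (k1 B' h').2, kC B h,
      (k1 B' h').1.swap (k1 B h).1 (k1 B h).1 e, sub_self, sub_zero]
  obtain ⟨Q, pQ, uQ, aQ, lQ⟩ := h1 X E M {S | ∃ B ∈ K, m ≤ mu M x y B ∧ S = C - B}
    ⟨_, C, zC, m1, rfl⟩ (by rintro _ ⟨B, hB, -, rfl⟩; exact pD B hB) (by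
      rintro _ ⟨B, hB, b, rfl⟩ _ ⟨B', hB', b', rfl⟩
      rcases k2 B hB B' hB' with e | e
      · exact ⟨_, ⟨B, hB, b, rfl⟩, (pD B hB).idem, dD B hB B' hB' e⟩
      · exact ⟨_, ⟨B', hB', b', rfl⟩, dD B' hB' B hB e, (pD B' hB').idem⟩)
  have cQ : C * Q = Q := by
    have := aQ (1 - C) pC.compl (by
      rintro _ ⟨B, hB, -, rfl⟩
      rw [sub_mul, one_mul, mul_sub, pC.idem, (k1 B hB).2, sub_self])
    rw [sub_mul, one_mul, sub_eq_zero] at this
    exact this.symm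
  have c1 : C * S₁ = S₁ := b1 C zC m1
  have q1 : Q * S₁ = 0 := p1.swap pQ Pr.zero (aQ S₁ p1 (by
    rintro _ ⟨B, hB, b, rfl⟩
    rw [mul_sub, pC.swap p1 p1 c1, (k1 B hB).1.swap p1 p1 (b1 B hB b), sub_self]))
  have c2 : C * (C - Q) = C - Q := by rw [mul_sub, pC.idem, cQ]
  have e1 : mu M x y S₁ ≤ m := (l1 x y).2 (by rintro _ ⟨A, hA, rfl⟩; exact hA.2)
  have e2 : mu M x y Q ≤ mu M x y C - m := (lQ x y).2 (by
    rintro _ ⟨_, ⟨B, -, b, rfl⟩, rfl⟩
    rw [mu_sub]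
    linarith)
  obtain ⟨S, pS, s2, s1, sm⟩ := h2 X E M C x y hC S₁ (C - Q) p1 (pC.sub pQ cQ) c2
    (by rw [sub_mul, c1, q1, sub_zero]) m e1 (by rw [mu_sub]; linarith)
  refine hno ⟨S, k3 S pS (by rw [← s2, ← mul_assoc, c2]) fun A hA => ?_, sm⟩
  rcases le_total (mu M x y A) m with a | a
  · exact Or.inr (by rw [← u1 A ⟨hA, a⟩, ← mul_assoc, s1])
  · refine Or.inl ?_
    have f1 := pQ.swap (pD A hA) (pD A hA) (uQ _ ⟨A, hA, a, rfl⟩)
    have f2 : (C - A) * (C - Q) = 0 := by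
      rw [mul_sub, f1, sub_mul, pC.idem, kC A hA, sub_self]
    rw [sub_mul, c2, sub_eq_zero] at f2
    rw [← s2, ← mul_assoc, ← f2]

end ChainA

theorem sChain (h1 : SSup) (h2 : SIvt) : SChain := by
  intro X E _ _ _ _ M C x y hC
  obtain ⟨K, k1, k2, k3⟩ := ChainA.exists_max M C
  have key : ∀ m : ℝ, ∃ S ∈ K, 0 ≤ m → m ≤ mu M x y C → mu M x y S = m := by
    intro m
    by_cases h : 0 ≤ m ∧ m ≤ mu M x y C
    · obtain ⟨S, hS, e⟩ := ChainA.onto h1 h2 M C x y hC K k1 k2 k3 m h.1 h.2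
      exact ⟨S, hS, fun _ _ => e⟩
    · exact ⟨0, k3 0 Pr.zero (mul_zero _) fun S' _ => Or.inl (mul_zero _),
        fun a b => absurd ⟨a, b⟩ h⟩
  choose g g1 g2 using key
  have c0 := hC.pr.mu_nonneg x y
  have g3 : ∀ t, 0 ≤ t → t ≤ 1 → mu M x y (g (mu M x y C * t)) = mu M x y C * t :=
    fun t a b => g2 _ (mul_nonneg c0 a) (mul_le_of_le_one_right c0 b)
  refine ⟨fun t => g (mu M x y C * t), fun t => k1 _ (g1 _), fun s t a b c => ?_, g3⟩
  rcases (mul_le_mul_of_nonneg_left b c0).eq_or_lt with e | e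
  · simp only [e]
    exact (k1 _ (g1 _)).1.idem
  · refine (k2 _ (g1 _) _ (g1 _)).resolve_right fun h => ?_
    have := (k1 _ (g1 _)).1.mu_mono (k1 _ (g1 _)).1 h x y
    rw [g3 s a (b.trans c), g3 t (a.trans b) c] at this
    exact absurd e (not_lt.2 this)

end Pool.Agent.MP_1231ed_gt.R

end FChain

section FCube
namespace Pool.Agent.MP_1231ed_gt.R

namespace CubeA

open Finset

variable {X E : Type} [MetricSpace X] [AddCommGroup E] [Module ℝ E] {M : Mod X E}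

theorem pr_sum {I : Type} [DecidableEq I] (f : I → Module.End ℝ E) (hf : ∀ i, Pr M (f i))
    (ho : ∀ i j, i ≠ j → f i * f j = 0) (s : Finset I) : Pr M (∑ i ∈ s, f i) := by
  induction s using Finset.induction_on with
  | empty => simpa using Pr.zero
  | insert j s hj ih =>
    rw [sum_insert hj]
    refine (hf j).add ih ?_
    rw [mul_sum]
    exact sum_eq_zero fun i hi => ho j i fun e => hj (e ▸ hi)

/-- The point of the `i`-th of `n` intervals with parameter `r`. -/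
noncomputable def pt {n : ℕ} (i : Fin n) (r : Set.Icc (0 : ℝ) 1) : ℝ := (((i : ℕ) : ℝ) + r) / n

theorem npos {n : ℕ} (i : Fin n) : (0 : ℝ) < n := by exact_mod_cast i.pos

theorem pt_nonneg {n : ℕ} (i : Fin n) (r : Set.Icc (0 : ℝ) 1) : 0 ≤ pt i r :=
  div_nonneg (add_nonneg (Nat.cast_nonneg _) r.2.1) (Nat.cast_nonneg _)

theorem pt_le_one {n : ℕ} (i : Fin n) (r : Set.Icc (0 : ℝ) 1) : pt i r ≤ 1 := by
  have h1 : ((i : ℕ) : ℝ) + 1 ≤ n := by exact_mod_cast i.2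
  exact (div_le_one (npos i)).2 (by linarith [r.2.2])

theorem pt_zero_le {n : ℕ} (i : Fin n) (r : Set.Icc (0 : ℝ) 1) : pt i 0 ≤ pt i r :=
  div_le_div_of_nonneg_right (by simpa using r.2.1) (Nat.cast_nonneg _)

theorem pt_le {n : ℕ} {i j : Fin n} (h : i < j) (r s : Set.Icc (0 : ℝ) 1) : pt i r ≤ pt j s := by
  have h1 : ((i : ℕ) : ℝ) + 1 ≤ (j : ℕ) := by exact_mod_cast h
  exact div_le_div_of_nonneg_right (by linarith [r.2.2, s.2.1]) (Nat.cast_nonneg _)

theorem pt_sub {n : ℕ} (i : Fin n) (r s : Set.Icc (0 : ℝ) 1) :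
    |pt i r - pt i s| = |(r : ℝ) - s| / n := by
  rw [pt, pt, ← sub_div, add_sub_add_left_eq_sub, abs_div, Nat.abs_cast]

end CubeA

open CubeA Finset in
theorem sCube (h : SChain) : SCube := by
  intro X E _ _ _ _ M C P x hC hC0 hP
  obtain ⟨y, hy⟩ : ∃ y, C (M.ι y - M.ι x) ≠ 0 := by
    by_contra hc
    push Not at hc
    refine hC0 (M.ext_end fun a b => ?_)
    rw [← sub_sub_sub_cancel_right _ _ (M.ι x), map_sub, hc, hc, sub_self, LinearMap.zero_apply]
  have c0 : 0 < mu M y x C :=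
    (hC.pr.mu_nonneg y x).lt_of_ne fun e => hy (hC.pr.mu_eq_zero e.symm)
  obtain ⟨T, hT, hle, hmu⟩ := h X E M C y x hC
  refine ⟨mu M y x C, c0, fun n => ?_⟩
  have hmin : ∀ (i j : Fin n) (r s : Set.Icc (0 : ℝ) 1),
      T (pt i r) * T (pt j s) = T (min (pt i r) (pt j s)) := by
    intro i j r s
    rcases le_total (pt i r) (pt j s) with e | e
    · rw [min_eq_left e]
      exact (hT _).1.swap (hT _).1 (hT _).1 (hle _ _ (pt_nonneg i r) e (pt_le_one j s))
    · rw [min_eq_right e]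
      exact hle _ _ (pt_nonneg j s) e (pt_le_one i r)
  have hB : ∀ (i j : Fin n) (r s : Set.Icc (0 : ℝ) 1),
      M.B (T (pt i r) (M.ι y - M.ι x)) (T (pt j s) (M.ι y - M.ι x)) =
        mu M y x C * min (pt i r) (pt j s) := by
    intro i j r s
    rw [← (hT _).1.adj, ← Module.End.mul_apply, hmin, min_comm, ← hmu _
      (le_min (pt_nonneg i r) (pt_nonneg j s)) ((min_le_left _ _).trans (pt_le_one i r)), mu]
  have hS : ∀ s : Fin n → Set.Icc (0 : ℝ) 1, Pr M (∑ i, (T (pt i (s i)) - T (pt i 0))) := by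
    intro s
    refine pr_sum _ (fun i => (hT _).1.sub (hT _).1
      (hle _ _ (pt_nonneg i 0) (pt_zero_le i _) (pt_le_one i _))) (fun i j hij => ?_) _
    rw [sub_mul, mul_sub, mul_sub, hmin, hmin, hmin, hmin]
    rcases lt_or_gt_of_ne hij with e | e
    · simp only [min_eq_left (pt_le e _ _), sub_self]
    · simp only [min_eq_right (pt_le e _ _), sub_self]
  choose z hz using fun s => (hS s).mem y x
  have hF : ∀ s, z s ∈ Fib M P x := by
    intro s
    have e : ∀ t, P * T t = T t := fun t => by rw [← (hT t).2, ← mul_assoc, hP]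
    change P (M.ι (z s) - M.ι x) = M.ι (z s) - M.ι x
    rw [hz, add_sub_cancel_left, ← Module.End.mul_apply, mul_sum]
    simp only [mul_sub, e]
  refine ⟨fun s => ⟨z s, hF s⟩, Subtype.ext (M.inj ?_), fun s t => ?_⟩
  · change M.ι (z 0) = M.ι x
    rw [hz]
    simp
  · have e : M.ι (z s) - M.ι (z t) =
        ∑ i, (T (pt i (s i)) (M.ι y - M.ι x) - T (pt i (t i)) (M.ι y - M.ι x)) := by
      rw [hz, hz, add_sub_add_left_eq_sub, ← LinearMap.sub_apply, ← sum_sub_distrib,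
        LinearMap.sum_apply]
      exact sum_congr rfl fun i _ => by rw [sub_sub_sub_cancel_right, LinearMap.sub_apply]
    rw [Subtype.dist_eq, ← M.dist_sq, e, LinearMap.map_sum₂, mul_sum]
    refine sum_congr rfl fun i _ => ?_
    rw [map_sum, sum_eq_single i (fun j _ hji => ?_) (by simp)]
    · rw [LinearMap.map_sub₂, map_sub (M.B _), map_sub (M.B _), hB, hB, hB, hB, min_self, min_self,
        div_mul_eq_mul_div, mul_div_assoc, ← pt_sub]
      rcases le_total (pt i (s i)) (pt i (t i)) with e | e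
      · rw [min_eq_left e, min_eq_right e, abs_of_nonpos (sub_nonpos.2 e)]; ring
      · rw [min_eq_left e, min_eq_right e, abs_of_nonneg (sub_nonneg.2 e)]; ring
    · rw [LinearMap.map_sub₂, map_sub (M.B _), map_sub (M.B _), hB, hB, hB, hB]
      rcases lt_or_gt_of_ne hji with e | e
      · simp only [min_eq_right (pt_le e _ _), sub_self]
      · simp only [min_eq_left (pt_le e _ _), sub_self]

end Pool.Agent.MP_1231ed_gt.R

end FCube

section FPack
namespace Pool.Agent.MP_1231ed_gt.R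

namespace PackA

lemma half {k : ℕ} (θ : ℝ) (hθ : 0 ≤ θ) {j l : Fin k} (h : j ≠ l) :
    ∑ b : Fin k → Bool, |(if b j = true then θ else 0) - (if b l = true then θ else 0)| =
      Fintype.card (Fin k → Bool) * θ / 2 := by
  have hinv : Function.Involutive (fun b : Fin k → Bool => Function.update b j (!b j)) := by
    intro b
    simp
  obtain ⟨φ, hφ⟩ : ∃ φ : Equiv.Perm (Fin k → Bool), ∀ b, φ b = Function.update b j (!b j) :=
    ⟨Function.Involutive.toPerm _ hinv, fun _ => rfl⟩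
  have h1 := Equiv.sum_comp φ
    (fun b : Fin k → Bool => |(if b j = true then θ else 0) - (if b l = true then θ else 0)|)
  have h2 : ∑ b : Fin k → Bool, (|(if b j = true then θ else 0) - (if b l = true then θ else 0)| +
      |(if φ b j = true then θ else 0) - (if φ b l = true then θ else 0)|) =
      ∑ _b : Fin k → Bool, θ := by
    refine Finset.sum_congr rfl fun b _ => ?_
    have e1 : φ b j = !b j := by simp [hφ]
    have e2 : φ b l = b l := by simp [hφ, Function.update_of_ne h.symm]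
    rw [e1, e2]
    cases b j <;> cases b l <;> simp [abs_of_nonneg hθ]
  rw [Finset.sum_add_distrib, h1, Finset.sum_const, Finset.card_univ, nsmul_eq_mul] at h2
  linarith

lemma col {I : Type} (S T : Equiv.Perm I) (hS : S * S = 1) (hT : T * T = 1) (hs : ∀ i, S i ≠ i)
    (ht : ∀ i, T i ≠ i) : ∃ U : Set I, ∀ i, (S i ∈ U ↔ i ∉ U) ∧ (T i ∈ U ↔ i ∉ U) := by
  obtain ⟨r, hr⟩ : ∃ r, r = S * T := ⟨_, rfl⟩
  have hSi : S⁻¹ = S := inv_eq_of_mul_eq_one_right hS
  have hTi : T⁻¹ = T := inv_eq_of_mul_eq_one_right hT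
  have hc : S * r * S⁻¹ = r⁻¹ := by
    rw [hr, mul_inv_rev, hTi, hSi, ← mul_assoc, hS, one_mul]
  have hz : ∀ (m : ℤ) (x : I), S ((r ^ m) x) = (r ^ (-m)) (S x) := by
    intro m x
    have h1 : S * r ^ m * S⁻¹ = r ^ (-m) := by rw [← conj_zpow, hc, inv_zpow']
    rw [← h1]
    simp
  have hSS : ∀ x, S (S x) = x := fun x => by rw [← Equiv.Perm.mul_apply, hS]; rfl
  have hrx : ∀ x, S (T x) = r x := fun x => by rw [hr]; rfl
  have hTx : ∀ x, T x = S (r x) := fun x => by rw [← hrx, hSS]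
  have hne : ∀ i, ¬ r.SameCycle i (S i) := by
    rintro i ⟨m, hm⟩
    obtain ⟨a, rfl | rfl⟩ := Int.even_or_odd' m
    · refine hs ((r ^ a) i) ?_
      rw [hz, ← hm, ← Equiv.Perm.mul_apply, ← zpow_add]
      congr 2
      ring
    · refine ht ((r ^ a) i) ?_
      have h2 : r ((r ^ a) i) = (r ^ (1 + a)) i := by rw [zpow_add, zpow_one]; rfl
      rw [hTx, h2, hz, ← hm, ← Equiv.Perm.mul_apply, ← zpow_add]
      congr 2
      ring
  let q : I → Quotient (Equiv.Perm.SameCycle.setoid r) := Quotient.mk _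
  have hq : ∀ x y, q x = q y ↔ r.SameCycle x y := fun x y => Quotient.eq
  have key : ∀ i, WellOrderingRel (q (S i)) (q i) ↔ ¬ WellOrderingRel (q i) (q (S i)) := by
    intro i
    refine ⟨fun h => asymm h, fun h => ?_⟩
    rcases trichotomous_of WellOrderingRel (q i) (q (S i)) with h1 | h1 | h1
    · exact absurd h1 h
    · exact absurd ((hq _ _).1 h1) (hne i)
    · exact h1
  refine ⟨{i | WellOrderingRel (q i) (q (S i))}, fun i => ⟨?_, ?_⟩⟩
  · show WellOrderingRel (q (S i)) (q (S (S i))) ↔ ¬ WellOrderingRel (q i) (q (S i))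
    rw [hSS]
    exact key i
  · show WellOrderingRel (q (T i)) (q (S (T i))) ↔ ¬ WellOrderingRel (q i) (q (S i))
    have h1 : q (S (T i)) = q i := by
      rw [hrx, hq]
      exact Equiv.Perm.sameCycle_apply_left.2 Equiv.Perm.SameCycle.rfl
    have h2 : q (T i) = q (S i) := by
      have h3 := hz 1 i
      rw [zpow_one] at h3
      rw [hTx, h3, hq]
      exact Equiv.Perm.sameCycle_zpow_left.2 Equiv.Perm.SameCycle.rfl
    rw [h1, h2]
    exact key i

end PackA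

theorem sCol : SCol := by
  intro I s t hs ht hs' ht'
  exact PackA.col (Function.Involutive.toPerm s hs) (Function.Involutive.toPerm t ht)
    (Equiv.ext hs) (Equiv.ext ht) hs' ht'

theorem sPack : SPack := by
  classical
  rintro A _ a ⟨c, hc, hγ⟩ r hr htb
  obtain ⟨θ, h0, h1, h2⟩ : ∃ θ : ℝ, 0 < θ ∧ θ ≤ 1 ∧ c * θ < r ^ 2 := by
    refine ⟨min 1 (r ^ 2 / (2 * c)), by positivity, min_le_left _ _, ?_⟩
    have h3 : c * min 1 (r ^ 2 / (2 * c)) ≤ c * (r ^ 2 / (2 * c)) :=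
      mul_le_mul_of_nonneg_left (min_le_right _ _) hc.le
    have h4 : c * (r ^ 2 / (2 * c)) = r ^ 2 / 2 := by field_simp
    have h5 : 0 < r ^ 2 := by positivity
    linarith
  obtain ⟨t, htf, hcov⟩ := Metric.totallyBounded_iff.1 htb (√(c * θ / 2) / 2) (by positivity)
  obtain ⟨k, hk⟩ : ∃ k, k = htf.toFinset.card + 1 := ⟨_, rfl⟩
  obtain ⟨γ, hγ0, hd⟩ := hγ (Fintype.card (Fin k → Bool))
  have hn : (0 : ℝ) < Fintype.card (Fin k → Bool) := Nat.cast_pos.2 Fintype.card_pos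
  let e := Fintype.equivFin (Fin k → Bool)
  let p : Fin k → Fin (Fintype.card (Fin k → Bool)) → Set.Icc (0 : ℝ) 1 := fun j i =>
    if e.symm i j = true then ⟨θ, h0.le, h1⟩ else 0
  have hp : ∀ j i, (p j i : ℝ) = if e.symm i j = true then θ else 0 := by
    intro j i
    simp only [p]
    split_ifs <;> rfl
  have hball : ∀ j, γ (p j) ∈ Metric.ball a r := by
    intro j
    rw [Metric.mem_ball, ← hγ0]
    refine lt_of_pow_lt_pow_left₀ 2 hr.le (lt_of_le_of_lt ?_ h2)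
    rw [hd]
    have h3 : ∑ i, |(p j i : ℝ) - ((0 : Fin (Fintype.card (Fin k → Bool)) → Set.Icc (0 : ℝ) 1) i : ℝ)| ≤
        ∑ _i : Fin (Fintype.card (Fin k → Bool)), θ := by
      refine Finset.sum_le_sum fun i _ => ?_
      rw [hp]
      split_ifs <;> simp [abs_of_pos h0, h0.le]
    rw [Finset.sum_const, Finset.card_univ, Fintype.card_fin, nsmul_eq_mul] at h3
    calc _ ≤ c / Fintype.card (Fin k → Bool) * (Fintype.card (Fin k → Bool) * θ) := by gcongr
      _ = c * θ := by field_simp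
  have hdist : ∀ j l, j ≠ l → dist (γ (p j)) (γ (p l)) ^ 2 = c * θ / 2 := by
    intro j l hjl
    rw [hd]
    simp only [hp]
    rw [Equiv.sum_comp e.symm (fun b : Fin k → Bool =>
      |(if b j = true then θ else 0) - (if b l = true then θ else 0)|), PackA.half θ h0.le hjl]
    field_simp
  have hex : ∀ j, ∃ y : htf.toFinset, dist (γ (p j)) y < √(c * θ / 2) / 2 := by
    intro j
    obtain ⟨y, hy, hy'⟩ := Set.mem_iUnion₂.1 (hcov (hball j))
    exact ⟨⟨y, htf.mem_toFinset.2 hy⟩, hy'⟩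
  choose f hf using hex
  obtain ⟨j, l, hjl, hfe⟩ := Fintype.exists_ne_map_eq_of_card_lt f (by simp [hk])
  have h3 := dist_triangle_right (γ (p j)) (γ (p l)) (f j)
  have h4 := hf j
  have h5 := hf l
  rw [← hfe] at h5
  have h6 : √(c * θ / 2) = dist (γ (p j)) (γ (p l)) := by
    rw [← hdist j l hjl, Real.sqrt_sq dist_nonneg]
  linarith

end Pool.Agent.MP_1231ed_gt.R

end FPack

section FFib
namespace Pool.Agent.MP_1231ed_gt.R

namespace FibA

variable {X E : Type} [MetricSpace X] [AddCommGroup E] [Module ℝ E] {M : Mod X E}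
  {P Q : Module.End ℝ E}

/-- the projection of `p` to the fibre through `y` -/
noncomputable def pj (h : Pr M P) (p y : X) : X := (h.mem p y).choose

theorem pj_eq (h : Pr M P) (p y : X) : M.ι (pj h p y) = M.ι y + P (M.ι p - M.ι y) :=
  (h.mem p y).choose_spec

theorem pj_mem (h : Pr M P) (p y : X) : pj h p y ∈ Fib M P y := by
  change P (_ - _) = _ - _
  rw [pj_eq, add_sub_cancel_left, h.idem_apply]

theorem pj_sub (h : Pr M P) (p q y : X) :
    M.ι (pj h p y) - M.ι (pj h q y) = P (M.ι p - M.ι q) := by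
  rw [pj_eq, pj_eq, add_sub_add_left_eq_sub, ← map_sub, sub_sub_sub_cancel_right]

theorem fib_sub {p q x : X} (hp : p ∈ Fib M P x) (hq : q ∈ Fib M P x) :
    P (M.ι p - M.ι q) = M.ι p - M.ι q := by
  have h1 : P (M.ι p - M.ι x) = M.ι p - M.ι x := hp
  have h2 : P (M.ι q - M.ι x) = M.ι q - M.ι x := hq
  rw [← sub_sub_sub_cancel_right (M.ι p) (M.ι q) (M.ι x), map_sub P (M.ι p - M.ι x), h1, h2]

theorem pj_pj (h : Pr M P) {p x : X} (hp : p ∈ Fib M P x) (y : X) : pj h (pj h p y) x = p := by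
  have h1 : P (M.ι p - M.ι x) = M.ι p - M.ι x := hp
  apply M.inj
  rw [pj_eq, pj_eq, add_sub_right_comm, map_add, h.idem_apply, ← map_add, sub_add_sub_cancel',
    h1, add_sub_cancel]

theorem dist_of_sq {A B : Type} [MetricSpace A] [MetricSpace B] {a a' : A} {b b' : B}
    (h : dist a a' ^ 2 = dist b b' ^ 2) : dist a a' = dist b b' :=
  (pow_left_inj₀ dist_nonneg dist_nonneg two_ne_zero).1 h

theorem pj_dist (h : Pr M P) (p q y : X) :
    dist (pj h p y) (pj h q y) ^ 2 = M.B (M.ι p - M.ι q) (P (M.ι p - M.ι q)) := by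
  rw [← M.dist_sq, pj_sub, h.adj, h.idem_apply]

theorem mix (h : Pr M P) (e : P * Q = 0) {a b x : X} (ha : a ∈ Fib M P x) (hb : b ∈ Fib M Q x) :
    M.ι (pj h a b) - M.ι x = (M.ι a - M.ι x) + (M.ι b - M.ι x) := by
  have h1 : P (M.ι a - M.ι x) = M.ι a - M.ι x := ha
  have h2 : Q (M.ι b - M.ι x) = M.ι b - M.ι x := hb
  have h3 : P (M.ι b - M.ι x) = 0 := by
    rw [← h2, ← Module.End.mul_apply, e, LinearMap.zero_apply]
  rw [pj_eq, ← sub_sub_sub_cancel_right (M.ι a) (M.ι b) (M.ι x), map_sub P (M.ι a - M.ι x), h1, h3]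
  abel

theorem prod (h : Pr M P) (h' : Pr M Q) (e : P * Q = 0) (x : X) :
    IsProd (Fib M (P + Q) x) (Fib M P x) (Fib M Q x) := by
  have e' : Q * P = 0 := h.swap h' Pr.zero e
  have k : ∀ a b, a ∈ Fib M P x → b ∈ Fib M Q x →
      P (M.ι (pj h a b) - M.ι x) = M.ι a - M.ι x ∧ Q (M.ι (pj h a b) - M.ι x) = M.ι b - M.ι x := by
    intro a b ha hb
    have h1 : P (M.ι a - M.ι x) = M.ι a - M.ι x := ha
    have h2 : Q (M.ι b - M.ι x) = M.ι b - M.ι x := hb
    have h3 : P (M.ι b - M.ι x) = 0 := by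
      rw [← h2, ← Module.End.mul_apply, e, LinearMap.zero_apply]
    have h4 : Q (M.ι a - M.ι x) = 0 := by
      rw [← h1, ← Module.End.mul_apply, e', LinearMap.zero_apply]
    rw [mix h e ha hb, map_add, map_add, h1, h2, h3, h4, add_zero, zero_add]
    exact ⟨rfl, rfl⟩
  refine ⟨⟨fun p => (⟨pj h p x, pj_mem h _ _⟩, ⟨pj h' p x, pj_mem h' _ _⟩),
    fun c => ⟨pj h c.1 c.2, ?_⟩, fun p => ?_, fun c => ?_⟩, fun p q => ?_⟩
  · change (P + Q) (_ - _) = _ - _
    rw [LinearMap.add_apply, (k _ _ c.1.2 c.2.2).1, (k _ _ c.1.2 c.2.2).2, mix h e c.1.2 c.2.2]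
  · have h1 : (P + Q) (M.ι p - M.ι x) = M.ι p - M.ι x := p.2
    refine Subtype.ext (M.inj (sub_left_injective (b := M.ι x) ?_))
    change M.ι (pj h (pj h p x) (pj h' p x)) - M.ι x = M.ι p - M.ι x
    rw [mix h e (pj_mem h p x) (pj_mem h' p x), pj_eq, pj_eq, add_sub_cancel_left,
      add_sub_cancel_left]
    exact h1
  · refine Prod.ext (Subtype.ext (M.inj ?_)) (Subtype.ext (M.inj ?_))
    · change M.ι (pj h (pj h c.1 c.2) x) = M.ι c.1
      rw [pj_eq, (k _ _ c.1.2 c.2.2).1, add_sub_cancel]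
    · change M.ι (pj h' (pj h c.1 c.2) x) = M.ι c.2
      rw [pj_eq, (k _ _ c.1.2 c.2.2).2, add_sub_cancel]
  · change dist (p : X) q ^ 2 = dist (pj h p x) (pj h q x) ^ 2 + dist (pj h' p x) (pj h' q x) ^ 2
    rw [pj_dist, pj_dist, ← map_add, ← LinearMap.add_apply, fib_sub p.2 q.2, M.dist_sq]

end FibA

open FibA

theorem sFib : SFib := by
  intro X E _ _ _ M P h
  refine ⟨fun x y => ⟨⟨⟨fun p => ⟨pj h p y, pj_mem h _ _⟩, fun p => ⟨pj h p x, pj_mem h _ _⟩,
    fun p => Subtype.ext (pj_pj h p.2 y), fun p => Subtype.ext (pj_pj h p.2 x)⟩,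
    Isometry.of_dist_eq fun p q => dist_of_sq ?_⟩⟩, fun x => ⟨fun h0 => ?_, ?_⟩,
    fun Q x h' e => prod h h' e x⟩
  · change dist (pj h p y) (pj h q y) ^ 2 = dist (p : X) q ^ 2
    rw [pj_dist, fib_sub p.2 q.2, M.dist_sq]
  · by_contra hn
    rw [not_nontrivial_iff_subsingleton] at hn
    refine h0 (M.ext_end fun a b => ?_)
    have h1 : pj h a x = pj h b x :=
      congrArg Subtype.val (hn.elim ⟨_, pj_mem h a x⟩ ⟨_, pj_mem h b x⟩)
    rw [← pj_sub h a b x, h1, sub_self, LinearMap.zero_apply]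
  · rintro ⟨p, q, hpq⟩ rfl
    have h1 := fib_sub p.2 q.2
    rw [LinearMap.zero_apply, eq_comm, sub_eq_zero] at h1
    exact hpq (Subtype.ext (M.inj h1))

theorem sCongr : SCongr := by
  intro X Y Z X' Y' Z' _ _ _ _ _ _
  refine ⟨?_, ?_⟩
  · rintro ⟨e, he⟩ ⟨f⟩ ⟨g⟩ ⟨k⟩
    refine ⟨(f.symm.toEquiv.trans e).trans (g.toEquiv.prodCongr k.toEquiv), fun p q => ?_⟩
    change dist p q ^ 2 = dist (g (e (f.symm p)).1) (g (e (f.symm q)).1) ^ 2 +
      dist (k (e (f.symm p)).2) (k (e (f.symm q)).2) ^ 2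
    rw [g.dist_eq, k.dist_eq, ← he, f.symm.dist_eq]
  · rintro ⟨e, he⟩ ⟨e', he'⟩ ⟨g⟩ ⟨k⟩
    refine ⟨⟨(e.trans (g.toEquiv.prodCongr k.toEquiv)).trans e'.symm,
      Isometry.of_dist_eq fun p q => dist_of_sq ?_⟩⟩
    change dist (e'.symm (g (e p).1, k (e p).2)) (e'.symm (g (e q).1, k (e q).2)) ^ 2 = _
    rw [he', e'.apply_symm_apply, e'.apply_symm_apply, g.dist_eq, k.dist_eq, he]

end Pool.Agent.MP_1231ed_gt.R

end FFib

section FNu
namespace Pool.Agent.MP_1231ed_gt.R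

namespace NuA

variable {X E : Type} [MetricSpace X] [AddCommGroup E] [Module ℝ E] {M : Mod X E}
  {Q Q' : Module.End ℝ E}

/-- the squared diameter of a fibre -/
noncomputable def nu (M : Mod X E) (x : X) (Q : Module.End ℝ E) : ℝ :=
  sSup (Set.range fun p : Fib M Q x × Fib M Q x => dist p.1 p.2 ^ 2)

theorem mu_sq (h : Pr M Q) (y z : X) :
    mu M y z Q = M.B (Q (M.ι y - M.ι z)) (Q (M.ι y - M.ι z)) := by
  rw [mu, ← h.adj, h.idem_apply]

theorem nu_eq (h : Pr M Q) (x : X) :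
    nu M x Q = sSup (Set.range fun p : X × X => mu M p.1 p.2 Q) := by
  refine congrArg sSup (Set.Subset.antisymm ?_ ?_)
  · rintro _ ⟨⟨⟨a, ha⟩, b, hb⟩, rfl⟩
    refine ⟨(a, b), ?_⟩
    have ha' : Q (M.ι a - M.ι x) = M.ι a - M.ι x := ha
    have hb' : Q (M.ι b - M.ι x) = M.ι b - M.ι x := hb
    have e : Q (M.ι a - M.ι b) = M.ι a - M.ι b := by
      rw [← sub_sub_sub_cancel_right (M.ι a) (M.ι b) (M.ι x), map_sub, ha', hb']
    change mu M a b Q = dist a b ^ 2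
    rw [mu, e, M.dist_sq]
  · rintro _ ⟨⟨y, z⟩, rfl⟩
    obtain ⟨a, ha⟩ := h.mem y x
    obtain ⟨b, hb⟩ := h.mem z x
    have ha' : a ∈ Fib M Q x := by
      change Q (M.ι a - M.ι x) = M.ι a - M.ι x
      rw [ha, add_sub_cancel_left, h.idem_apply]
    have hb' : b ∈ Fib M Q x := by
      change Q (M.ι b - M.ι x) = M.ι b - M.ι x
      rw [hb, add_sub_cancel_left, h.idem_apply]
    refine ⟨(⟨a, ha'⟩, ⟨b, hb'⟩), ?_⟩
    change dist a b ^ 2 = mu M y z Q
    rw [mu_sq h, ← M.dist_sq, ha, hb, add_sub_add_left_eq_sub, ← map_sub,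
      sub_sub_sub_cancel_right]

theorem mix (h : Pr M Q) (h' : Pr M Q') (e : Q * Q' = 0) (y z y' z' : X) :
    ∃ u w, mu M u w (Q + Q') = mu M y z Q + mu M y' z' Q' := by
  have e' : ∀ v, Q' (Q v) = 0 := fun v => by
    rw [← Module.End.mul_apply, h.swap h' Pr.zero e, LinearMap.zero_apply]
  obtain ⟨u, hu⟩ := h.mem y y'
  obtain ⟨w, hw⟩ := h.mem z z'
  have d : M.ι u - M.ι w =
      (M.ι y' - M.ι z') + Q (M.ι y - M.ι z) - Q (M.ι y' - M.ι z') := by
    rw [hu, hw]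
    simp only [map_sub]
    abel
  have d1 : Q (M.ι u - M.ι w) = Q (M.ι y - M.ι z) := by
    rw [d, map_sub, map_add, h.idem_apply, h.idem_apply, add_sub_cancel_left]
  have d2 : Q' (M.ι u - M.ι w) = Q' (M.ι y' - M.ι z') := by
    rw [d, map_sub, map_add, e', e', add_zero, sub_zero]
  exact ⟨u, w, by rw [mu_add, mu_sq h, mu_sq h', mu_sq h, mu_sq h', d1, d2]⟩

end NuA

open NuA in
theorem sNu : SNu := by
  intro X E _ _ _ M C x hC ⟨K, hK⟩
  have : Nonempty X := ⟨x⟩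
  have bd : ∀ Q, Pr M Q → C * Q = Q → BddAbove (Set.range fun p : X × X => mu M p.1 p.2 Q) :=
    fun Q h e => ⟨K, by
      rintro _ ⟨p, rfl⟩
      exact (hC.mu_mono h e _ _).trans (hK _ _)⟩
  have le : ∀ Q, Pr M Q → C * Q = Q → ∀ y z, mu M y z Q ≤ nu M x Q := fun Q h e y z => by
    rw [nu_eq h]
    exact le_csSup (bd Q h e) ⟨(y, z), rfl⟩
  have ge : ∀ Q, Pr M Q → ∀ t, (∀ y z, mu M y z Q ≤ t) → nu M x Q ≤ t := fun Q h t ht => by
    rw [nu_eq h]
    refine csSup_le (Set.range_nonempty _) ?_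
    rintro _ ⟨p, rfl⟩
    exact ht _ _
  refine ⟨nu M x, fun Q Q' h h' e e' h0 => le_antisymm ?_ ?_, fun Q Q' ⟨f⟩ => ?_,
    fun Q h e h0 => ?_⟩
  · refine ge _ (h.add h' h0) _ fun y z => ?_
    rw [mu_add]
    exact add_le_add (le Q h e y z) (le Q' h' e' y z)
  · refine le_sub_iff_add_le.1 (ge Q h _ fun y z => le_sub_comm.1 (ge Q' h' _ fun y' z' => ?_))
    obtain ⟨u, w, huw⟩ := mix h h' h0 y z y' z'
    have := le _ (h.add h' h0) (by rw [mul_add, e, e']) u w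
    linarith
  · refine congrArg sSup (Set.Subset.antisymm ?_ ?_)
    · rintro _ ⟨p, rfl⟩
      exact ⟨(f p.1, f p.2), congrArg (· ^ 2) (f.dist_eq _ _)⟩
    · rintro _ ⟨p, rfl⟩
      exact ⟨(f.symm p.1, f.symm p.2), congrArg (· ^ 2) (f.symm.dist_eq _ _)⟩
  · refine M.ext_end fun y z => ?_
    exact h.mu_eq_zero (le_antisymm (h0 ▸ le Q h e y z) (h.mu_nonneg y z))

end Pool.Agent.MP_1231ed_gt.R

end FNu

section FAsm
namespace Pool.Agent.MP_1231ed_gt.R

open Filter Topology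

namespace AsmA

variable {X E : Type} [MetricSpace X] [AddCommGroup E] [Module ℝ E] {M : Mod X E}
  {J : Type} {e : J → Module.End ℝ E}

theorem mul_sum_eq [DecidableEq J] (h : Orth M e) (F : Finset J) (j : J) :
    e j * ∑ i ∈ F, e i = if j ∈ F then e j else 0 := by
  rw [Finset.mul_sum]
  split_ifs with hj
  · rw [Finset.sum_eq_single j (fun i _ hn => h.2 j i hn.symm) (fun h' => absurd hj h'), (h.1 j).idem]
  · exact Finset.sum_eq_zero fun i hi => h.2 j i fun e => hj (e ▸ hi)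

theorem pr_sum (h : Orth M e) (F : Finset J) : Pr M (∑ i ∈ F, e i) := by
  classical
  induction F using Finset.induction_on with
  | empty => exact Pr.zero
  | insert j F hj ih =>
    rw [Finset.sum_insert hj]
    exact (h.1 j).add ih (by rw [mul_sum_eq h, if_neg hj])

theorem sum_le (h : Orth M e) {F G : Finset J} (hFG : F ⊆ G) :
    (∑ i ∈ G, e i) * ∑ i ∈ F, e i = ∑ i ∈ F, e i := by
  classical
  refine (pr_sum h F).swap (pr_sum h G) (pr_sum h F) ?_
  rw [Finset.sum_mul]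
  exact Finset.sum_congr rfl fun i hi => by rw [mul_sum_eq h, if_pos (hFG hi)]

theorem mu_sum (x y : X) (F : Finset J) :
    mu M x y (∑ i ∈ F, e i) = ∑ i ∈ F, mu M x y (e i) := by
  simp only [mu, LinearMap.sum_apply, LinearMap.map_sum₂]

end AsmA

open AsmA

theorem sPyth (h : SSup) : SPyth := by
  classical
  intro X E _ _ _ _ M J e Q ho hQ x y
  obtain ⟨Q₀, a1, a2, a3, a4⟩ := h X E M (Set.range fun F : Finset J => ∑ i ∈ F, e i)
    ⟨_, ∅, rfl⟩ (by rintro _ ⟨F, rfl⟩; exact pr_sum ho F) (by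
      rintro _ ⟨F, rfl⟩ _ ⟨G, rfl⟩
      exact ⟨_, ⟨F ∪ G, rfl⟩, sum_le ho Finset.subset_union_left,
        sum_le ho Finset.subset_union_right⟩)
  have e1 := a3 _ hQ.1.compl (by
    rintro _ ⟨F, rfl⟩
    rw [Finset.mul_sum]
    exact Finset.sum_eq_zero fun i _ => by rw [sub_mul, one_mul, hQ.2.1, sub_self])
  have e2 := hQ.2.2 _ a1.compl fun j => by
    have := a2 _ ⟨{j}, rfl⟩
    simp only [Finset.sum_singleton] at this
    rw [sub_mul, one_mul, this, sub_self]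
  rw [sub_mul, one_mul, sub_eq_zero] at e1 e2
  have e3 : Q₀ = Q := e1.trans (a1.swap hQ.1 hQ.1 e2.symm)
  refine hasSum_of_isLUB_of_nonneg _ (fun j => (ho.1 j).mu_nonneg x y) ?_
  have := a4 x y
  rw [e3, ← Set.range_comp] at this
  simpa only [Function.comp_def, mu_sum] using this

theorem sAsm : SAsm := by
  classical
  intro X E _ _ _ _ M J e Q ho hQ x w hw hs
  let v : J → E := fun j => M.ι (w j) - M.ι x
  have hv : ∀ j, e j (v j) = v j := hw
  have hv' : ∀ i j, i ≠ j → e i (v j) = 0 := fun i j hn => by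
    rw [← hv j, ← Module.End.mul_apply, ho.2 i j hn, LinearMap.zero_apply]
  have hsum : ∀ (F : Finset J) j, e j (∑ i ∈ F, v i) = if j ∈ F then v j else 0 := by
    intro F j
    rw [map_sum]
    split_ifs with hj
    · rw [Finset.sum_eq_single j (fun i _ hn => hv' j i hn.symm) (fun h' => absurd hj h'), hv]
    · exact Finset.sum_eq_zero fun i hi => hv' j i fun e => hj (e ▸ hi)
  have ex : ∀ F : Finset J, ∃ a, M.ι a = M.ι x + ∑ i ∈ F, v i := by
    intro F
    induction F using Finset.induction_on with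
    | empty => exact ⟨x, by simp⟩
    | insert j F hj ih =>
      obtain ⟨a, ha⟩ := ih
      obtain ⟨z, hz⟩ := (ho.1 j).mem (w j) a
      refine ⟨z, ?_⟩
      rw [hz, ha, ← sub_sub, map_sub (e j) (M.ι (w j) - M.ι x), hsum, if_neg hj, sub_zero,
        Finset.sum_insert hj]
      change _ + e j (v j) = _
      rw [hv]
      abel
  choose a ha using ex
  have hq : ∀ F : Finset J, M.B (∑ i ∈ F, v i) (∑ i ∈ F, v i) = ∑ i ∈ F, dist (w i) x ^ 2 := by
    intro F
    rw [LinearMap.map_sum₂]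
    refine Finset.sum_congr rfl fun i hi => ?_
    rw [← hv i, (ho.1 i).adj, hsum, if_pos hi, M.dist_sq]
  have hd : ∀ F G : Finset J, F ⊆ G →
      dist (a G) (a F) ^ 2 = ∑ i ∈ G, dist (w i) x ^ 2 - ∑ i ∈ F, dist (w i) x ^ 2 := by
    intro F G h
    rw [← M.dist_sq, ha, ha, add_sub_add_left_eq_sub, ← Finset.sum_sdiff_eq_sub h, hq,
      Finset.sum_sdiff_eq_sub h]
  have hc : CauchySeq a := by
    rw [Metric.cauchySeq_iff']
    intro ε hε
    obtain ⟨N, hN⟩ := Metric.cauchySeq_iff'.1 hs.hasSum.cauchySeq (ε ^ 2) (by positivity)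
    refine ⟨N, fun G hG => ?_⟩
    have := hN G hG
    rw [Real.dist_eq, ← hd N G hG, abs_of_nonneg (by positivity)] at this
    exact lt_of_pow_lt_pow_left₀ 2 hε.le this
  obtain ⟨z, hz⟩ := cauchySeq_tendsto_of_complete hc
  have lim : ∀ u, Tendsto (fun F : Finset J => M.B (∑ i ∈ F, v i) u) atTop
      (𝓝 (M.B (M.ι z - M.ι x) u)) := fun u => by
    have := ((M.cont x u).tendsto z).comp hz
    simpa only [Function.comp_def, ha, add_sub_cancel_left] using this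
  refine ⟨z, M.ext_vec fun c d => ?_, fun j => M.ext_vec fun c d => ?_⟩
  · rw [hQ.1.adj]
    refine tendsto_nhds_unique (lim _) ((lim _).congr fun F => ?_)
    rw [← hQ.1.adj, map_sum Q]
    congr 2
    exact Finset.sum_congr rfl fun i _ => by rw [← hv i, ← Module.End.mul_apply, hQ.2.1]
  · rw [(ho.1 j).adj]
    refine tendsto_nhds_unique (lim _) (tendsto_const_nhds.congr' ?_)
    filter_upwards [eventually_ge_atTop ({j} : Finset J)] with F hF
    rw [← (ho.1 j).adj, hsum, if_pos (hF (Finset.mem_singleton_self j))]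

end Pool.Agent.MP_1231ed_gt.R

end FAsm

section FInf
namespace Pool.Agent.MP_1231ed_gt.R

namespace InfA

variable {X E : Type} [MetricSpace X] [AddCommGroup E] [Module ℝ E] {M : Mod X E}
  {P Q : Module.End ℝ E}

theorem coord (h : Pr M P) (x y : X) : ∃ z : Fib M P x, P (M.ι y - M.ι x) = M.ι z - M.ι x := by
  obtain ⟨z, hz⟩ := h.mem y x
  have e : P (M.ι y - M.ι x) = M.ι z - M.ι x := by rw [hz, add_sub_cancel_left]
  refine ⟨⟨z, ?_⟩, e⟩
  change P (M.ι z - M.ι x) = M.ι z - M.ι x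
  rw [← e, h.idem_apply]

theorem mu_of (h : Pr M P) {x y y' p p' : X} (hp : P (M.ι y - M.ι x) = M.ι p - M.ι x)
    (hp' : P (M.ι y' - M.ι x) = M.ι p' - M.ι x) : mu M y y' P = dist p p' ^ 2 := by
  have e : P (M.ι y - M.ι y') = M.ι p - M.ι p' := by
    rw [← sub_sub_sub_cancel_right (M.ι y) (M.ι y') (M.ι x), map_sub, hp, hp',
      sub_sub_sub_cancel_right]
  rw [← M.dist_sq, ← e, h.adj, h.idem_apply, ← h.adj, mu]

theorem pyth (h1 : SPyth) [CompleteSpace X] {J : Type} {e : J → Module.End ℝ E} (he : Orth M e)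
    (hQ : IsSup M e Q) {x y y' : X} {p p' : J → X}
    (hp : ∀ j, e j (M.ι y - M.ι x) = M.ι (p j) - M.ι x)
    (hp' : ∀ j, e j (M.ι y' - M.ι x) = M.ι (p' j) - M.ι x) :
    HasSum (fun j => dist (p j) (p' j) ^ 2) (mu M y y' Q) := by
  have h := h1 X E M J e Q he hQ y y'
  rwa [show (fun j => mu M y y' (e j)) = fun j => dist (p j) (p' j) ^ 2 from
    funext fun j => mu_of (he.1 j) (hp j) (hp' j)] at h

theorem bound (h1 : SPyth) (h2 : SAsm) [CompleteSpace X] {J : Type} {e : J → Module.End ℝ E}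
    (he : Orth M e) (hQ : IsSup M e Q) {K : ℝ} (hK : ∀ y z, mu M y z Q ≤ K) {x : X}
    (p q : ∀ j, Fib M (e j) x) : Summable fun j => dist (p j : X) (q j) ^ 2 := by
  classical
  refine summable_of_sum_le (c := K) (fun j => by positivity) fun F => ?_
  have key : ∀ r : ∀ j, Fib M (e j) x, ∃ z, ∀ j,
      e j (M.ι z - M.ι x) = M.ι (if j ∈ F then (r j : X) else x) - M.ι x := fun r => by
    obtain ⟨z, -, hz⟩ := h2 X E M J e Q he hQ x (fun j => if j ∈ F then (r j : X) else x)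
      (fun j => by
        by_cases hj : j ∈ F
        · rw [if_pos hj]; exact (r j).2
        · rw [if_neg hj]; exact self_mem_Fib _ _)
      (summable_of_ne_finset_zero (s := F) fun j hj => by rw [if_neg hj]; simp)
    exact ⟨z, hz⟩
  obtain ⟨y, hy⟩ := key p
  obtain ⟨z, hz⟩ := key q
  refine le_trans ?_ ((sum_le_hasSum F (fun j _ => by positivity) (pyth h1 he hQ hy hz)).trans
    (hK y z))
  exact le_of_eq (Finset.sum_congr rfl fun j hj => by rw [if_pos hj, if_pos hj])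

end InfA

open InfA in
theorem sInf' (h1 : SPyth) (h2 : SAsm) : SInf := by
  intro X E _ _ _ _ M J e f Q Q' x he hf hQ hQ' hψ ⟨K, hK⟩
  have ψ : ∀ j, Fib M (e j) x ≃ᵢ Fib M (f j) x := fun j => (hψ j).some
  let R : X → X → Prop := fun y w => ∃ p : ∀ j, Fib M (e j) x,
    (∀ j, e j (M.ι y - M.ι x) = M.ι (p j) - M.ι x) ∧
      ∀ j, f j (M.ι w - M.ι x) = M.ι (ψ j (p j)) - M.ι x
  have fwd : ∀ y : Fib M Q x, ∃ w : Fib M Q' x, R y w := fun y => by
    choose p hp using fun j => coord (he.1 j) x y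
    obtain ⟨w, hw, hw'⟩ := h2 X E M J f Q' hf hQ' x (fun j => ψ j (p j)) (fun j => (ψ j (p j)).2)
      ((bound h1 h2 he hQ hK p fun j => (ψ j).symm ⟨x, self_mem_Fib _ _⟩).congr fun j => by
        rw [← Subtype.dist_eq, ← (ψ j).dist_eq, IsometryEquiv.apply_symm_apply, Subtype.dist_eq])
    exact ⟨⟨w, hw⟩, p, hp, hw'⟩
  have bwd : ∀ w : Fib M Q' x, ∃ y : Fib M Q x, R y w := fun w => by
    choose p hp using fun j => coord (hf.1 j) x w
    obtain ⟨y, hy, hy'⟩ := h2 X E M J e Q he hQ x (fun j => (ψ j).symm (p j))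
      (fun j => ((ψ j).symm (p j)).2)
      (bound h1 h2 he hQ hK (fun j => (ψ j).symm (p j)) fun j => ⟨x, self_mem_Fib _ _⟩)
    exact ⟨⟨y, hy⟩, fun j => (ψ j).symm (p j), hy', fun j => by
      rw [IsometryEquiv.apply_symm_apply]; exact hp j⟩
  have iso : ∀ (y y' : Fib M Q x) (w w' : Fib M Q' x), R y w → R y' w' → dist w w' = dist y y' := by
    rintro y y' w w' ⟨p, hp, hq⟩ ⟨p', hp', hq'⟩
    have a := pyth h1 he hQ hp hp'
    have b := pyth h1 hf hQ' hq hq'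
    rw [show (fun j => dist (ψ j (p j) : X) (ψ j (p' j)) ^ 2) = fun j => dist (p j : X) (p' j) ^ 2 from
      funext fun j => by rw [← Subtype.dist_eq, (ψ j).dist_eq, Subtype.dist_eq]] at b
    have c := b.unique a
    rw [mu_of hQ.1 y.2 y'.2, mu_of hQ'.1 w.2 w'.2] at c
    exact (pow_left_inj₀ dist_nonneg dist_nonneg two_ne_zero).1 c
  choose a ha using fwd
  have hi : Isometry a := Isometry.of_dist_eq fun y y' => iso y y' _ _ (ha y) (ha y')
  have hs : Function.Surjective a := fun w => by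
    obtain ⟨y, hy⟩ := bwd w
    exact ⟨y, dist_eq_zero.1 ((iso y y _ _ (ha y) hy).trans (dist_self y))⟩
  exact ⟨⟨Equiv.ofBijective a ⟨hi.injective, hs⟩, hi⟩⟩

end Pool.Agent.MP_1231ed_gt.R

end FInf

section FBdd
namespace Pool.Agent.MP_1231ed_gt.R

namespace BddA

variable {X E : Type} [MetricSpace X] [AddCommGroup E] [Module ℝ E] {M : Mod X E}
  {C : Module.End ℝ E} {x : X}

/-- Admissible automorphisms. -/
structure Adm (M : Mod X E) (C : Module.End ℝ E) (x : X)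
    (g : Module.End ℝ E ≃+* Module.End ℝ E) : Prop where
  pr : ∀ Q, Pr M Q ↔ Pr M (g Q)
  fix : g C = C
  fib : ∀ Q, Pr M Q → Nonempty (Fib M Q x ≃ᵢ Fib M (g Q) x)

theorem Adm.trans {g g' : Module.End ℝ E ≃+* Module.End ℝ E} (h : Adm M C x g)
    (h' : Adm M C x g') : Adm M C x (g.trans g') :=
  ⟨fun Q => (h.pr Q).trans (h'.pr _), by rw [RingEquiv.trans_apply, h.fix, h'.fix], fun Q hQ => by
    obtain ⟨a⟩ := h.fib Q hQ
    obtain ⟨b⟩ := h'.fib _ ((h.pr Q).1 hQ)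
    exact ⟨a.trans b⟩⟩

theorem Adm.symm {g : Module.End ℝ E ≃+* Module.End ℝ E} (h : Adm M C x g) :
    Adm M C x g.symm := by
  have h1 : ∀ Q, Pr M Q ↔ Pr M (g.symm Q) := fun Q => by rw [h.pr (g.symm Q), g.apply_symm_apply]
  refine ⟨h1, by rw [RingEquiv.symm_apply_eq, h.fix], fun Q hQ => ?_⟩
  have := h.fib _ ((h1 Q).1 hQ)
  rw [g.apply_symm_apply] at this
  exact ⟨this.some.symm⟩

theorem Adm.refl : Adm M C x (RingEquiv.refl _) :=
  ⟨fun _ => Iff.rfl, rfl, fun _ _ => ⟨IsometryEquiv.refl _⟩⟩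

theorem adm_flip {P : Module.End ℝ E} {c : Module.End ℝ E ≃+* Module.End ℝ E} (F : Flip M P c)
    (h : c C = C) : Adm M C x c :=
  ⟨fun Q => ⟨F.cpr Q, fun hQ => by simpa [F.inv] using F.cpr _ hQ⟩, h, fun Q hQ => F.fib Q x hQ⟩

/-- Matched pairs. -/
def Good (M : Mod X E) (C : Module.End ℝ E) (x : X) (S S' : Module.End ℝ E)
    (F : Set (Module.End ℝ E × Module.End ℝ E)) : Prop :=
  (∀ p ∈ F, Pr M p.1 ∧ p.1 ≠ 0 ∧ S * p.1 = p.1 ∧ S' * p.2 = p.2 ∧
    ∃ g, Adm M C x g ∧ g p.1 = p.2) ∧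
  ∀ p ∈ F, ∀ q ∈ F, p ≠ q → p.1 * q.1 = 0 ∧ p.2 * q.2 = 0

theorem exists_max (S S' : Module.End ℝ E) : ∃ F, Maximal (Good M C x S S') F := by
  refine zorn_subset {F | Good M C x S S' F} fun K hK hc => ⟨⋃₀ K, ⟨?_, ?_⟩,
    fun s hs => Set.subset_sUnion_of_mem hs⟩
  · rintro p ⟨F, hF, hp⟩
    exact (hK hF).1 p hp
  · rintro p ⟨F, hF, hp⟩ q ⟨F', hF', hq⟩ hn
    rcases hc.total hF hF' with h | h
    · exact (hK hF').2 p (h hp) q hq hn
    · exact (hK hF).2 p hp q (h hq) hn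

theorem sup [CompleteSpace X] (h2 : SSupO) {J : Type} {e : J → Module.End ℝ E} (h : Orth M e) :
    ∃ Q, IsSup M e Q := by
  obtain ⟨Q, a, b, c⟩ := h2 X E M (Set.range e) (by rintro _ ⟨j, rfl⟩; exact h.1 j) (by
    rintro _ ⟨i, rfl⟩ _ ⟨j, rfl⟩ hn
    exact h.2 i j fun e => hn (by rw [e]))
  exact ⟨Q, a, fun j => b _ ⟨j, rfl⟩, fun S hS h' => c S hS (by rintro _ ⟨j, rfl⟩; exact h' j)⟩

theorem sup_le {J : Type} {e : J → Module.End ℝ E} {Q S : Module.End ℝ E} (h : IsSup M e Q)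
    (hS : Pr M S) (h' : ∀ j, S * e j = e j) : S * Q = Q := by
  have := h.2.2 _ hS.compl fun j => by rw [sub_mul, one_mul, h', sub_self]
  rw [sub_mul, one_mul, sub_eq_zero] at this
  exact this.symm

theorem cut {J : Type} {e : J → Module.End ℝ E} {Q n : Module.End ℝ E} (h : Orth M e)
    (h' : IsSup M e Q) (hn : Pr M n) (hc : ∀ S, Pr M S → n * S = S * n) :
    Orth M (fun j => n * e j) ∧ IsSup M (fun j => n * e j) (n * Q) := by
  refine ⟨⟨fun j => hn.mul (h.1 j) (hc _ (h.1 j)), fun i j hij => ?_⟩,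
    hn.mul h'.1 (hc _ h'.1), fun j => ?_, fun S hS hz => ?_⟩
  · change n * e i * (n * e j) = 0
    rw [hc _ (h.1 j), mul_assoc, ← mul_assoc (e i), h.2 i j hij, zero_mul, mul_zero]
  · rw [hc Q h'.1, mul_assoc, ← mul_assoc n, hn.idem, ← mul_assoc, ← hc Q h'.1, mul_assoc, h'.2.1]
  · rw [← mul_assoc]
    exact h'.2.2 _ (hS.mul hn (hc S hS).symm) fun j => by rw [mul_assoc]; exact hz j

theorem inv_elt [CompleteSpace X] (h1 : SSup) (hC : Pr M C)
    (hcm : ∀ S S', Pr M S → Pr M S' → C * S = S → S * S' = S' * S) {r : Module.End ℝ E}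
    (hr : Pr M r) : ∃ n, Pr M n ∧ C * n = n ∧ n * r = 0 ∧ (∀ g, Adm M C x g → g n = n) ∧
      ∀ S, Pr M S → C * S = S → (∀ g, Adm M C x g → S * g r = 0) → n * S = S := by
  let D : Set (Module.End ℝ E) := {S | Pr M S ∧ C * S = S ∧ ∀ g, Adm M C x g → S * g r = 0}
  obtain ⟨n, a1, a2, a3, -⟩ := h1 X E M D ⟨0, Pr.zero, by simp, by simp⟩ (fun S hS => hS.1) (by
    rintro S ⟨s1, s2, s3⟩ T ⟨t1, t2, t3⟩
    have e := hcm S T s1 t1 s2
    have hT : Pr M (T - S * T) := t1.sub (s1.mul t1 e) (by rw [e, ← mul_assoc, t1.idem])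
    refine ⟨S + (T - S * T), ⟨s1.add hT (by rw [mul_sub, ← mul_assoc, s1.idem, sub_self]), ?_,
      fun g hg => ?_⟩, ?_, ?_⟩
    · rw [mul_add, mul_sub, ← mul_assoc, s2, t2]
    · rw [add_mul, sub_mul, mul_assoc, s3 g hg, t3 g hg]; simp
    · rw [add_mul, sub_mul, s1.idem, e, mul_assoc, s1.idem]; simp
    · rw [add_mul, sub_mul, mul_assoc, t1.idem]; simp)
  have hn : n ∈ D := by
    refine ⟨a1, ?_, fun g hg => ?_⟩
    · have := a3 _ hC.compl fun S hS => by rw [sub_mul, one_mul, hS.2.1, sub_self]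
      rw [sub_mul, one_mul, sub_eq_zero] at this
      exact this.symm
    · have h := (hg.pr r).1 hr
      exact h.swap a1 Pr.zero (a3 _ h fun S hS => hS.1.swap h Pr.zero (hS.2.2 g hg))
  have key : ∀ g, Adm M C x g → n * g n = g n := fun g hg => a2 _ ⟨(hg.pr n).1 a1, by
    conv_lhs => rw [← hg.fix, ← map_mul, hn.2.1], fun g' hg' => by
      have := congrArg g (hn.2.2 _ (hg'.trans hg.symm))
      rwa [map_mul, RingEquiv.trans_apply, g.apply_symm_apply, map_zero] at this⟩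
  refine ⟨n, a1, hn.2.1, hn.2.2 _ Adm.refl, fun g hg => ?_, fun S s1 s2 s3 => a2 S ⟨s1, s2, s3⟩⟩
  have h := congrArg g (key _ hg.symm)
  rw [map_mul, g.apply_symm_apply] at h
  rw [← key g hg]
  exact ((hg.pr n).1 a1).swap a1 a1 h

end BddA

open BddA in
theorem sBdd (h1 : SSup) (h2 : SSupO) (h3 : SInf) (h4 : SNu) : SBdd := by
  intro X E _ _ _ _ M C P P' c c' x hC hcm F F' hc hc' hK
  obtain ⟨nu, n1, n2, n3⟩ := h4 X E M C x hC hK
  have hS := hC.mul F.pr (hcm C P hC F.pr hC.idem)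
  have hS' := hC.mul F'.pr (hcm C P' hC F'.pr hC.idem)
  have le : ∀ {P Q : Module.End ℝ E}, C * P * Q = Q → C * Q = Q := fun {P Q} h => by
    rw [← h, ← mul_assoc, ← mul_assoc, hC.idem]
  obtain ⟨G, hG⟩ := exists_max (M := M) (C := C) (x := x) (C * P) (C * P')
  obtain ⟨g1, g2⟩ := hG.prop
  let e : G → Module.End ℝ E := fun p => p.1.1
  let f : G → Module.End ℝ E := fun p => p.1.2
  have hf : ∀ p ∈ G, Pr M p.2 := fun p hp => by
    obtain ⟨a, -, -, -, g, hg, b⟩ := g1 p hp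
    exact b ▸ (hg.pr _).1 a
  have oe : Orth M e := ⟨fun p => (g1 p p.2).1, fun p q hn =>
    (g2 p p.2 q q.2 fun h => hn (Subtype.ext h)).1⟩
  have of : Orth M f := ⟨fun p => hf p p.2, fun p q hn =>
    (g2 p p.2 q q.2 fun h => hn (Subtype.ext h)).2⟩
  obtain ⟨Q, hQ⟩ := sup h2 oe
  obtain ⟨Q', hQ'⟩ := sup h2 of
  have q1 : C * P * Q = Q := sup_le hQ hS fun p => (g1 p p.2).2.2.1
  have q2 : C * P' * Q' = Q' := sup_le hQ' hS' fun p => (g1 p p.2).2.2.2.1
  have hr := hS.sub hQ.1 q1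
  have hr' := hS'.sub hQ'.1 q2
  have r1 : C * P * (C * P - Q) = C * P - Q := by rw [mul_sub, hS.idem, q1]
  have r2 : C * P' * (C * P' - Q') = C * P' - Q' := by rw [mul_sub, hS'.idem, q2]
  have r3 : (C * P - Q) * Q = 0 := by rw [sub_mul, q1, hQ.1.idem, sub_self]
  have r4 : (C * P' - Q') * Q' = 0 := by rw [sub_mul, q2, hQ'.1.idem, sub_self]
  have s1 : Q + (C * P - Q) = C * P := by abel
  have s2 : Q' + (C * P' - Q') = C * P' := by abel
  generalize C * P - Q = r at hr r1 r3 s1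
  generalize C * P' - Q' = r' at hr' r2 r4 s2
  -- invariant elements
  have iso : ∀ n, Pr M n → C * n = n → (∀ g, Adm M C x g → g n = n) →
      Nonempty (Fib M (n * Q) x ≃ᵢ Fib M (n * Q') x) := by
    intro n hn hCn hi
    have hcn : ∀ S, Pr M S → n * S = S * n := fun S hS => hcm n S hn hS hCn
    obtain ⟨a1, a2⟩ := cut oe hQ hn hcn
    obtain ⟨b1, b2⟩ := cut of hQ' hn hcn
    refine h3 X E M G _ _ _ _ x a1 b1 a2 b2 (fun p => ?_) ?_
    · obtain ⟨-, -, -, -, g, hg, b⟩ := g1 p p.2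
      have := hg.fib _ (a1.1 p)
      rwa [map_mul, hi g hg, show g (e p) = f p from b] at this
    · obtain ⟨K, hK⟩ := hK
      exact ⟨K, fun y z => (hC.mu_mono a2.1 (by rw [← mul_assoc, hCn]) y z).trans (hK y z)⟩
  have hlf : ∀ {P : Module.End ℝ E} {c : Module.End ℝ E ≃+* Module.End ℝ E}, Flip M P c →
      c C = C → ∀ n, Pr M n → C * n = n → (∀ g, Adm M C x g → g n = n) →
      nu n = 2 * nu (n * P) := by
    intro P c F hc n hn hCn hi
    have e := hcm n P hn F.pr hCn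
    have a := hn.mul F.pr e
    have b : c (n * P) = n - n * P := by
      rw [map_mul, hi c (adm_flip F hc), F.cP, mul_sub, mul_one]
    have d := n2 _ _ (F.fib _ x a)
    have := n1 (n * P) (c (n * P)) a (F.cpr _ a) (by rw [← mul_assoc, hCn])
      (by rw [b, mul_sub, ← mul_assoc, hCn]) (by
        rw [b, mul_sub, a.idem, e, mul_assoc, hn.idem, sub_self])
    rw [← d, b, add_sub_cancel] at this
    linarith
  have cnt : ∀ n, Pr M n → C * n = n → (∀ g, Adm M C x g → g n = n) →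
      nu (n * r) = nu (n * r') := by
    intro n hn hCn hi
    have hcn : ∀ S, Pr M S → n * S = S * n := fun S hS => hcm n S hn hS hCn
    have hnC : n * C = n := hC.swap hn hn hCn
    have add : ∀ {Q r : Module.End ℝ E}, Pr M Q → Pr M r → r * Q = 0 →
        nu (n * (Q + r)) = nu (n * Q) + nu (n * r) := fun {Q r} a b d => by
      rw [mul_add]
      exact n1 _ _ (hn.mul a (hcn _ a)) (hn.mul b (hcn _ b)) (by rw [← mul_assoc, hCn])
        (by rw [← mul_assoc, hCn]) (by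
          rw [hcn r b, mul_assoc, ← mul_assoc Q, b.swap a Pr.zero d, zero_mul, mul_zero])
    have a := add hQ.1 hr r3
    have b := add hQ'.1 hr' r4
    rw [s1, ← mul_assoc, hnC] at a
    rw [s2, ← mul_assoc, hnC] at b
    have d := n2 _ _ (iso n hn hCn hi)
    have u := hlf F hc n hn hCn hi
    have v := hlf F' hc' n hn hCn hi
    linarith
  have nu0 : nu 0 = 0 := by
    have := n1 0 0 Pr.zero Pr.zero (by simp) (by simp) (by simp)
    rw [add_zero] at this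
    linarith
  have disj : ∀ g, Adm M C x g → r' * g r = 0 := by
    intro g hg
    by_contra hne
    have a := (hg.pr r).1 hr
    have ec := hcm r' (g r) hr' a (le r2)
    have b := hr'.mul a ec
    have b' := (hg.symm.pr _).1 b
    have u : r * g.symm (r' * g r) = g.symm (r' * g r) := g.injective (by
      rw [map_mul, g.apply_symm_apply, ec, ← mul_assoc, a.idem])
    have v : r' * (r' * g r) = r' * g r := by rw [← mul_assoc, hr'.idem]
    have w : g.symm (r' * g r) ≠ 0 := fun h => hne (by simpa using congrArg g h)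
    generalize hs : g.symm (r' * g r) = s at b' u w
    have hgs : g s = r' * g r := by rw [← hs, g.apply_symm_apply]
    generalize r' * g r = t at b v hgs
    have o1 : ∀ p ∈ G, p.1 * s = 0 := fun p hp => by
      have : p.1 * r = 0 := hr.swap (g1 p hp).1 Pr.zero (by
        rw [← show Q * p.1 = p.1 from hQ.2.1 ⟨p, hp⟩, ← mul_assoc, r3, zero_mul])
      rw [← u, ← mul_assoc, this, zero_mul]
    have o2 : ∀ p ∈ G, p.2 * t = 0 := fun p hp => by
      have : p.2 * r' = 0 := hr'.swap (hf p hp) Pr.zero (by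
        rw [← show Q' * p.2 = p.2 from hQ'.2.1 ⟨p, hp⟩, ← mul_assoc, r4, zero_mul])
      rw [← v, ← mul_assoc, this, zero_mul]
    have hG' : Good M C x (C * P) (C * P') (insert (s, t) G) := by
      refine ⟨?_, ?_⟩
      · rintro p (rfl | hp)
        · exact ⟨b', w, by rw [← u, ← mul_assoc, r1], by rw [← v, ← mul_assoc, r2], g, hg, hgs⟩
        · exact g1 p hp
      · rintro p (rfl | hp) q (rfl | hq) hn
        · exact absurd rfl hn
        · exact ⟨(g1 q hq).1.swap b' Pr.zero (o1 q hq), (hf q hq).swap b Pr.zero (o2 q hq)⟩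
        · exact ⟨o1 p hp, o2 p hp⟩
        · exact g2 p hp q hq hn
    have := o1 _ (hG.le_of_ge hG' (Set.subset_insert _ _) (Set.mem_insert _ _))
    exact w (b'.idem.symm.trans this)
  obtain ⟨n, a1, a2, a3, a4, a5⟩ := inv_elt (x := x) h1 hC hcm hr
  have z' : r' = 0 := by
    have := cnt n a1 a2 a4
    rw [a3, a5 r' hr' (le r2) disj, nu0] at this
    exact n3 _ hr' (le r2) this.symm
  have z : r = 0 := by
    have := cnt C hC hC.idem fun g hg => hg.fix
    rw [z', mul_zero, nu0, le r1] at this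
    exact n3 _ hr (le r1) this
  have := iso C hC hC.idem fun g hg => hg.fix
  rw [z, add_zero] at s1
  rw [z', add_zero] at s2
  rwa [le q1, le q2, s1, s2] at this

end Pool.Agent.MP_1231ed_gt.R

end FBdd

section FMain
namespace Pool.Agent.MP_1231ed_gt.R

namespace MainA

variable {X E : Type} [MetricSpace X] [AddCommGroup E] [Module ℝ E] {M : Mod X E}
  {π P P' : Module.End ℝ E} {c c' : Module.End ℝ E ≃+* Module.End ℝ E}

/-- The data of a decomposition as a square. -/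
structure FlipP (M : Mod X E) (π P : Module.End ℝ E)
    (c : Module.End ℝ E ≃+* Module.End ℝ E) : Prop where
  pr : Pr M P
  cP : c P = 1 - P
  inv : ∀ Q, c (c Q) = Q
  cpr : ∀ Q, Pr M Q → Pr M (c Q)
  cpi : c π = π
  fib : ∀ Q x, Pr M Q → Nonempty (Fib M Q x ≃ᵢ Fib M (c Q) x)

theorem FlipP.fl (F : FlipP M π P c) : Flip M P c := ⟨F.pr, F.cP, F.inv, F.cpr, F.fib⟩

theorem flip (hProj : SProj) (hConj : SConj) (hFib : SFib) (hπ : IsPi M π) (Y : Type)
    [MetricSpace Y] (e : X ≃ Y × Y)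
    (he : ∀ p q : X, dist p q ^ 2 = dist (e p).1 (e q).1 ^ 2 + dist (e p).2 (e q).2 ^ 2) :
    ∃ P c, FlipP M π P c ∧ ∀ x : X, ∃ g : Fib M P x ≃ᵢ Y, ∀ p, g p = (e p).1 := by
  obtain ⟨P, hP, h1, h2⟩ := hProj X E M Y Y e he
  let f₀ : X ≃ X := e.trans ((Equiv.prodComm Y Y).trans e.symm)
  have hf₀ : ∀ x, f₀ x = e.symm ((e x).2, (e x).1) := fun x => rfl
  let f : X ≃ᵢ X := ⟨f₀, Isometry.of_dist_eq fun p q => by
    refine (pow_left_inj₀ dist_nonneg dist_nonneg two_ne_zero).1 ?_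
    change dist (f₀ p) (f₀ q) ^ 2 = _
    rw [he, he p q, hf₀, hf₀]
    simp [add_comm]⟩
  have hf : ∀ x, f x = e.symm ((e x).2, (e x).1) := fun x => rfl
  obtain ⟨c, c1, c2, c3, c4, c5⟩ := hConj X E M f fun x => by simp [hf]
  refine ⟨P, c, ⟨hP, c5 _ _ fun x y => ⟨_, h1 x y, ?_⟩, c1, c2, c3 π hπ, fun Q x hQ => ?_⟩, h2⟩
  · have := h1 (f y) (f x)
    simp only [hf, Equiv.apply_symm_apply] at this ⊢
    rw [this]
    simp only [LinearMap.sub_apply, Module.End.one_apply, map_sub]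
    abel
  · obtain ⟨g⟩ := c4 Q x
    obtain ⟨g'⟩ := (hFib X E M _ (c2 Q hQ)).1 (f x) x
    exact ⟨g.trans g'⟩

theorem prod (hFib : SFib) {Q Q' S : Module.End ℝ E} (h : Pr M Q) (h' : Pr M Q') (e : Q * Q' = 0)
    (e' : Q + Q' = S) (x : X) : IsProd (Fib M S x) (Fib M Q x) (Fib M Q' x) := by
  subst e'
  exact (hFib X E M Q h).2.2 Q' x h' e

theorem prod_sub (hFib : SFib) {Q S : Module.End ℝ E} (h : Pr M Q) (h' : Pr M S) (e : S * Q = Q)
    (x : X) : IsProd (Fib M S x) (Fib M Q x) (Fib M (S - Q) x) :=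
  prod hFib h (h'.sub h e) (by rw [mul_sub, h'.swap h h e, h.idem, sub_self]) (by abel) x

section

variable [CompleteSpace X] [Nonempty X]

theorem comm0 (hComm : SComm) (hπ : IsPi M π) {S S' : Module.End ℝ E} (h : Pr M S) (h' : Pr M S')
    (e : (1 - π) * S = S) : S * S' = S' * S := by
  have h1 := hComm X E M π S S' hπ h h'
  have h2 : (1 - π) * S' = S' * (1 - π) := by
    rw [sub_mul, mul_sub, hπ.comm h', one_mul, mul_one]
  rw [← mul_assoc, e, ← mul_assoc, h2, mul_assoc, e] at h1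
  exact h1

theorem half (hComm : SComm) (hFib : SFib) (hCongr : SCongr) (hπ : IsPi M π) (F : FlipP M π P c)
    {T W : Module.End ℝ E} (hT : Pr M T) (hW : Pr M W) (hR : (1 - π) * W = W) (hWT : W * T = T)
    (hc : c T = W - T) (hcW : c W = W) (x : X) : Nonempty (Fib M T x ≃ᵢ Fib M (W * P) x) := by
  have hS := hW.mul F.pr (comm0 hComm hπ hW F.pr hR)
  have hSR : W * (W * P) = W * P := by rw [← mul_assoc, hW.idem]
  have hcS : c (W * P) = W - W * P := by rw [map_mul, hcW, F.cP, mul_sub, mul_one]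
  generalize W * P = S at hS hSR hcS
  have e : T * S = S * T := comm0 hComm hπ hT hS (by rw [← hWT, ← mul_assoc, hR])
  have hTS : Pr M (T * S) := hT.mul hS e
  have h1 := prod_sub hFib hTS hT (by rw [← mul_assoc, hT.idem]) x
  have h2 := prod_sub hFib hTS hS (by rw [e, ← mul_assoc, hS.idem]) x
  have h3 := F.fib (T - T * S) x (hT.sub hTS (by rw [← mul_assoc, hT.idem]))
  have hTR : T * W = T := hW.swap hT hT hWT
  have h4 : c (T - T * S) = S - T * S := by
    rw [map_sub, map_mul, hc, hcS, mul_sub (W - T), sub_mul W T, sub_mul W T, hW.idem, hTR, hSR]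
    abel
  rw [h4] at h3
  exact (hCongr _ _ _ _ _ _).2 h1 h2 ⟨IsometryEquiv.refl _⟩ h3

omit [Nonempty X] in
theorem hil1 (hHF : SHF) (hFib : SFib) (hCongr : SCongr) (hπ : IsPi M π) (F : FlipP M π P c)
    (x : X) : ∃ (U : Type) (_ : NormedAddCommGroup U) (_ : InnerProductSpace ℝ U)
      (_ : CompleteSpace U), Nonempty (Fib M (P * π) x ≃ᵢ U) ∧ IsProd (Fib M π x) U U := by
  have h1 : Pr M (P * π) := F.pr.mul hπ.pr (hπ.comm F.pr).symm
  obtain ⟨U, i1, i2, i3, ⟨g⟩⟩ := hHF X E M (P * π) x h1 fun v => F.pr.hs (hπ.mem v)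
  refine ⟨U, i1, i2, i3, ⟨g⟩, ?_⟩
  have h2 := prod_sub hFib h1 hπ.pr (by
    rw [← mul_assoc, hπ.comm F.pr, mul_assoc, hπ.pr.idem]) x
  have h3 := F.fib (P * π) x h1
  have h4 : c (P * π) = π - P * π := by rw [map_mul, F.cP, F.cpi, sub_mul, one_mul]
  rw [h4] at h3
  obtain ⟨g'⟩ := h3
  exact (hCongr _ _ _ _ _ _).1 h2 ⟨IsometryEquiv.refl _⟩ ⟨g⟩ ⟨g'.symm.trans g⟩

theorem both (hHF : SHF) (hHD : SHDim) (hComm : SComm) (hFib : SFib) (hCongr : SCongr)
    (hπ : IsPi M π) (F : FlipP M π P c) (F' : FlipP M π P' c')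
    {T W : Module.End ℝ E} (hT : Pr M T) (hW : Pr M W) (hR : (1 - π) * W = W) (hWT : W * T = T)
    (hc : c T = W - T) (hcW : c W = W) (hc' : c' T = W - T) (hcW' : c' W = W) (x : X) :
    Nonempty (Fib M (P * π + W * P) x ≃ᵢ Fib M (P' * π + W * P') x) := by
  obtain ⟨g⟩ := half hComm hFib hCongr hπ F hT hW hR hWT hc hcW x
  obtain ⟨g'⟩ := half hComm hFib hCongr hπ F' hT hW hR hWT hc' hcW' x
  obtain ⟨U, _, _, _, ⟨k⟩, hU⟩ := hil1 hHF hFib hCongr hπ F x
  obtain ⟨U', _, _, _, ⟨k'⟩, hU'⟩ := hil1 hHF hFib hCongr hπ F' x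
  obtain ⟨j⟩ := hHD _ U U' hU hU'
  have hpW : π * W = 0 := by
    rw [sub_mul, one_mul] at hR
    exact sub_eq_self.1 hR
  have key : ∀ {P : Module.End ℝ E}, Pr M P →
      IsProd (Fib M (P * π + W * P) x) (Fib M (P * π) x) (Fib M (W * P) x) := fun {P} hP =>
    prod hFib (hP.mul hπ.pr (hπ.comm hP).symm) (hW.mul hP (comm0 hComm hπ hW hP hR)) (by
      rw [mul_assoc, ← mul_assoc π, hpW, zero_mul, mul_zero]) rfl x
  exact (hCongr _ _ _ _ _ _).2 (key F.pr) (key F'.pr) ⟨(k.trans j).trans k'.symm⟩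
    ⟨g.symm.trans g'⟩

/-- Atoms. -/
structure At (M : Mod X E) (π Q : Module.End ℝ E) : Prop where
  pr : Pr M Q
  le : (1 - π) * Q = Q
  ne : Q ≠ 0
  min : ∀ S, Pr M S → Q * S = S → S = 0 ∨ S = Q

theorem At.orth (hComm : SComm) (hπ : IsPi M π) {Q Q' : Module.End ℝ E} (h : At M π Q)
    (h' : At M π Q') (hn : Q ≠ Q') : Q * Q' = 0 := by
  have e := comm0 hComm hπ h.pr h'.pr h.le
  have h1 := h.pr.mul h'.pr e
  rcases h.min _ h1 (by rw [← mul_assoc, h.pr.idem]) with h2 | h2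
  · exact h2
  rcases h'.min _ h1 (by rw [e, ← mul_assoc, h'.pr.idem]) with h3 | h3
  · exact h3
  · exact absurd (h2.symm.trans h3) hn

omit [CompleteSpace X] [Nonempty X] in
theorem At.map (F : FlipP M π P c) {Q : Module.End ℝ E} (h : At M π Q) : At M π (c Q) := by
  refine ⟨F.cpr _ h.pr, ?_, fun h0 => h.ne (c.injective (by rw [h0, map_zero])), fun S hS e => ?_⟩
  · conv_rhs => rw [← h.le, map_mul, map_sub, map_one, F.cpi]
  · rcases h.min (c S) (F.cpr _ hS) (by rw [← F.inv Q, ← map_mul, e]) with h1 | h1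
    · exact Or.inl (by rw [← F.inv S, h1, map_zero])
    · exact Or.inr (by rw [← F.inv S, h1])

theorem At.map_ne (hComm : SComm) (hπ : IsPi M π) (F : FlipP M π P c) {Q : Module.End ℝ E}
    (h : At M π Q) : c Q ≠ Q := by
  intro e
  have h1 : c (Q * P) = Q - Q * P := by rw [map_mul, e, F.cP, mul_sub, mul_one]
  rcases h.min _ (h.pr.mul F.pr (comm0 hComm hπ h.pr F.pr h.le))
    (by rw [← mul_assoc, h.pr.idem]) with h2 | h2
  · rw [h2, map_zero, sub_zero] at h1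
    exact h.ne h1.symm
  · rw [h2, e, sub_self] at h1
    exact h.ne h1

theorem split (hComm : SComm) (hSupO : SSupO) (hCol : SCol) (hπ : IsPi M π) (F : FlipP M π P c)
    (F' : FlipP M π P' c') : ∃ T T' : Module.End ℝ E, Pr M T ∧ Pr M T' ∧ (1 - π) * T = T ∧
      (1 - π) * T' = T' ∧ T * T' = 0 ∧ c T = T' ∧ c' T = T' ∧
      ∀ Q, At M π Q → T * Q = Q ∨ T' * Q = Q := by
  let s : {Q // At M π Q} → {Q // At M π Q} := fun Q => ⟨c Q, Q.2.map F⟩
  let t : {Q // At M π Q} → {Q // At M π Q} := fun Q => ⟨c' Q, Q.2.map F'⟩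
  obtain ⟨J, hJ⟩ := hCol _ s t (fun Q => Subtype.ext (F.inv _)) (fun Q => Subtype.ext (F'.inv _))
    (fun Q e => Q.2.map_ne hComm hπ F (congrArg Subtype.val e))
    (fun Q e => Q.2.map_ne hComm hπ F' (congrArg Subtype.val e))
  have sup : ∀ K : Set {Q // At M π Q}, ∃ T, Pr M T ∧ (∀ Q ∈ K, T * Q.1 = Q.1) ∧
      ∀ S, Pr M S → (∀ Q ∈ K, S * Q.1 = 0) → S * T = 0 := by
    intro K
    obtain ⟨T, h1, h2, h3⟩ := hSupO X E M (Subtype.val '' K)
      (by rintro _ ⟨Q, -, rfl⟩; exact Q.2.pr)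
      (by rintro _ ⟨Q, -, rfl⟩ _ ⟨Q', -, rfl⟩ hn; exact Q.2.orth hComm hπ Q'.2 hn)
    exact ⟨T, h1, fun Q hQ => h2 _ ⟨Q, hQ, rfl⟩, fun S hS h => h3 S hS (by
      rintro _ ⟨Q, hQ, rfl⟩; exact h Q hQ)⟩
  obtain ⟨T, h1, h2, h3⟩ := sup J
  obtain ⟨T', h1', h2', h3'⟩ := sup Jᶜ
  have hpi : ∀ Q : {Q // At M π Q}, π * Q.1 = 0 := fun Q => by
    have := Q.2.le
    rw [sub_mul, one_mul] at this
    exact sub_eq_self.1 this
  have key : ∀ {P : Module.End ℝ E} {c : Module.End ℝ E ≃+* Module.End ℝ E} (F : FlipP M π P c),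
      (∀ Q : {Q // At M π Q}, (⟨c Q, Q.2.map F⟩ : {Q // At M π Q}) ∈ J ↔ Q ∉ J) → c T = T' := by
    intro P c F hc
    have e1 : (1 - c T) * T' = 0 := h3' _ (F.cpr _ h1).compl fun Q hQ => by
      have := congrArg c (h2 _ ((hc Q).2 hQ))
      rw [map_mul, F.inv] at this
      rw [sub_mul, one_mul, this, sub_self]
    have e2 : (1 - c T') * T = 0 := h3 _ (F.cpr _ h1').compl fun Q hQ => by
      have := congrArg c (h2' ⟨c Q, Q.2.map F⟩ fun h => (hc Q).1 h hQ)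
      rw [map_mul, F.inv] at this
      rw [sub_mul, one_mul, this, sub_self]
    have e3 := congrArg c e2
    rw [map_mul, map_sub, map_one, F.inv, map_zero, sub_mul, one_mul, sub_eq_zero] at e3
    rw [sub_mul, one_mul, sub_eq_zero] at e1
    rw [e3]
    exact (F.cpr _ h1).swap h1' h1' e1.symm
  refine ⟨T, T', h1, h1', ?_, ?_, ?_, key F fun Q => (hJ Q).1, key F' fun Q => (hJ Q).2,
    fun Q hQ => ?_⟩
  · rw [sub_mul, one_mul, h3 π hπ.pr fun Q _ => hpi Q, sub_zero]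
  · rw [sub_mul, one_mul, h3' π hπ.pr fun Q _ => hpi Q, sub_zero]
  · refine h3' T h1 fun Q hQ => Q.2.pr.swap h1 Pr.zero (h3 _ Q.2.pr fun Q' hQ' => ?_)
    exact Q.2.orth hComm hπ Q'.2 fun e => hQ (by rw [Subtype.ext e]; exact hQ')
  · by_cases h : (⟨Q, hQ⟩ : {Q // At M π Q}) ∈ J
    · exact Or.inl (h2 _ h)
    · exact Or.inr (h2' _ h)

theorem dich (hHF : SHF) (hHD : SHDim) (hComm : SComm) (hSupO : SSupO) (hCol : SCol)
    (hFib : SFib) (hCongr : SCongr) (hπ : IsPi M π) (F : FlipP M π P c) (F' : FlipP M π P' c')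
    (x : X) : ∃ C, Cont M C ∧ (∀ S S', Pr M S → Pr M S' → C * S = S → S * S' = S' * S) ∧
      c C = C ∧ c' C = C ∧ Nonempty (Fib M (P - C * P) x ≃ᵢ Fib M (P' - C * P') x) := by
  obtain ⟨T, T', h1, h1', h2, h2', h3, h4, h5, h6⟩ := split hComm hSupO hCol hπ F F'
  have hW := h1.add h1' h3
  have hWR : (1 - π) * (T + T') = T + T' := by rw [mul_add, h2, h2']
  have hWT : (T + T') * T = T := by rw [add_mul, h1.idem, h1.swap h1' Pr.zero h3, add_zero]
  have hWT' : (T + T') * T' = T' := by rw [add_mul, h1'.idem, h3, zero_add]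
  have hcW : c (T + T') = T + T' := by rw [map_add, h4, ← h4, F.inv, add_comm]
  have hcW' : c' (T + T') = T + T' := by rw [map_add, h5, ← h5, F'.inv, add_comm]
  have hb := both hHF hHD hComm hFib hCongr hπ F F' h1 hW hWR hWT (by rw [h4]; abel) hcW
    (by rw [h5]; abel) hcW' x
  generalize T + T' = W at hW hWR hWT hWT' hcW hcW' hb
  have hC : Pr M (1 - π - W) := hπ.pr.compl.sub hW hWR
  have hCR : (1 - π) * (1 - π - W) = 1 - π - W := by
    rw [mul_sub (1 - π) (1 - π), hπ.pr.compl.idem, hWR]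
  have hCT : (1 - π - W) * T = 0 := by rw [sub_mul, h2, hWT, sub_self]
  have hCT' : (1 - π - W) * T' = 0 := by rw [sub_mul, h2', hWT', sub_self]
  have hle : ∀ S, (1 - π - W) * S = S → (1 - π) * S = S := fun S hS => by
    rw [← hS, ← mul_assoc, hCR]
  have hP : ∀ {P : Module.End ℝ E}, Pr M P → P - (1 - π - W) * P = P * π + W * P := fun {P} h => by
    rw [sub_mul, sub_mul, one_mul, hπ.comm h]; abel
  refine ⟨1 - π - W, ⟨hC, fun S S' hS hS' a _ => comm0 hComm hπ hS hS' (hle S a),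
    fun S hS a hn => ?_⟩, fun S S' hS hS' a => comm0 hComm hπ hS hS' (hle S a),
    by rw [map_sub, map_sub, map_one, F.cpi, hcW], by rw [map_sub, map_sub, map_one, F'.cpi, hcW'],
    by rw [hP F.pr, hP F'.pr]; exact hb⟩
  by_contra hno
  push Not at hno
  have hat : At M π S := ⟨hS, hle S a, hn, fun S' hS' b => by
    by_cases h0 : S' = 0
    · exact Or.inl h0
    · exact Or.inr (hno S' hS' b h0)⟩
  apply hn
  rcases h6 S hat with b | b
  · rw [← a, ← b, ← mul_assoc, hCT, zero_mul]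
  · rw [← a, ← b, ← mul_assoc, hCT', zero_mul]

end

theorem cubes_map {A A' : Type} [MetricSpace A] [MetricSpace A'] (g : A ≃ᵢ A') {a : A}
    (h : Cubes a) : Cubes (g a) := by
  obtain ⟨c, hc, h⟩ := h
  refine ⟨c, hc, fun n => ?_⟩
  obtain ⟨γ, h1, h2⟩ := h n
  exact ⟨fun s => g (γ s), by simp only [h1], fun s t => by rw [g.dist_eq, h2]⟩

theorem cont_le {C S : Module.End ℝ E} (h : Cont M C) (hS : Pr M S) (e : C * S = S) : Cont M S := by
  have : ∀ Q, S * Q = Q → C * Q = Q := fun Q hQ => by rw [← hQ, ← mul_assoc, e]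
  exact ⟨hS, fun Q Q' a b u v => h.comm Q Q' a b (this _ u) (this _ v),
    fun Q a u hn => h.split Q a (this _ u) hn⟩

theorem fib_eq {S : Module.End ℝ E} {x y : X} (h : y ∈ Fib M S x) : Fib M S y = Fib M S x := by
  ext z
  have h' : S (M.ι y - M.ι x) = M.ι y - M.ι x := h
  change S (M.ι z - M.ι y) = M.ι z - M.ι y ↔ S (M.ι z - M.ι x) = M.ι z - M.ι x
  rw [← sub_add_sub_cancel (M.ι z) (M.ι y) (M.ι x), map_add, h', add_left_inj]

theorem sq (hFib : SFib) (hCongr : SCongr) (F : FlipP M π P c) {C : Module.End ℝ E} (hC : Pr M C)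
    (e : C * P = P * C) (hc : c C = C) (x : X) :
    IsProd (Fib M C x) (Fib M (C * P) x) (Fib M (C * P) x) := by
  have h1 := hC.mul F.pr e
  have h2 := prod_sub hFib h1 hC (by rw [← mul_assoc, hC.idem]) x
  have h3 := F.fib (C * P) x h1
  have h4 : c (C * P) = C - C * P := by rw [map_mul, hc, F.cP, mul_sub, mul_one]
  rw [h4] at h3
  obtain ⟨g⟩ := h3
  exact (hCongr _ _ _ _ _ _).1 h2 ⟨IsometryEquiv.refl _⟩ ⟨IsometryEquiv.refl _⟩ ⟨g.symm⟩

theorem bdd {C : Module.End ℝ E} (hC : Pr M C) {x : X} {Y : Type} [MetricSpace Y]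
    (h : IsProd (Fib M C x) Y Y) (hY : Bornology.IsBounded (Set.univ : Set Y)) :
    ∃ K : ℝ, ∀ y z, mu M y z C ≤ K := by
  obtain ⟨K, hK⟩ := Metric.isBounded_iff.1 hY
  obtain ⟨e, he⟩ := h
  refine ⟨K ^ 2 + K ^ 2, fun y z => ?_⟩
  obtain ⟨y', hy⟩ := hC.mem y x
  obtain ⟨z', hz⟩ := hC.mem z x
  have h1 : y' ∈ Fib M C x := by
    change C _ = _
    rw [hy, add_sub_cancel_left, hC.idem_apply]
  have h2 : z' ∈ Fib M C x := by
    change C _ = _
    rw [hz, add_sub_cancel_left, hC.idem_apply]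
  have h3 : mu M y z C = dist y' z' ^ 2 := by
    rw [← M.dist_sq, hy, hz, add_sub_add_left_eq_sub, ← map_sub, sub_sub_sub_cancel_right, hC.adj,
      hC.idem_apply, ← hC.adj, mu]
  have h4 := he ⟨y', h1⟩ ⟨z', h2⟩
  rw [Subtype.dist_eq] at h4
  rw [h3, h4]
  exact add_le_add (pow_le_pow_left₀ dist_nonneg (hK trivial trivial) 2)
    (pow_le_pow_left₀ dist_nonneg (hK trivial trivial) 2)

open FibA in
theorem prod' {P Q S : Module.End ℝ E} (h : Pr M P) (h' : Pr M Q) (e : P * Q = 0) (s : P + Q = S)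
    (x : X) : ∃ g : Fib M S x ≃ Fib M P x × Fib M Q x,
      (∀ p q, dist p q ^ 2 = dist (g p).1 (g q).1 ^ 2 + dist (g p).2 (g q).2 ^ 2) ∧
      ∀ p q, dist (g p).1 (g q).1 ^ 2 = mu M p q P := by
  subst s
  have e' : Q * P = 0 := h.swap h' Pr.zero e
  have k : ∀ a b, a ∈ Fib M P x → b ∈ Fib M Q x →
      P (M.ι (pj h a b) - M.ι x) = M.ι a - M.ι x ∧ Q (M.ι (pj h a b) - M.ι x) = M.ι b - M.ι x := by
    intro a b ha hb
    have h1 : P (M.ι a - M.ι x) = M.ι a - M.ι x := ha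
    have h2 : Q (M.ι b - M.ι x) = M.ι b - M.ι x := hb
    have h3 : P (M.ι b - M.ι x) = 0 := by
      rw [← h2, ← Module.End.mul_apply, e, LinearMap.zero_apply]
    have h4 : Q (M.ι a - M.ι x) = 0 := by
      rw [← h1, ← Module.End.mul_apply, e', LinearMap.zero_apply]
    rw [mix h e ha hb, map_add, map_add, h1, h2, h3, h4, add_zero, zero_add]
    exact ⟨rfl, rfl⟩
  refine ⟨⟨fun p => (⟨pj h p x, pj_mem h _ _⟩, ⟨pj h' p x, pj_mem h' _ _⟩),
    fun c => ⟨pj h c.1 c.2, ?_⟩, fun p => ?_, fun c => ?_⟩, fun p q => ?_, fun p q => ?_⟩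
  · change (P + Q) (_ - _) = _ - _
    rw [LinearMap.add_apply, (k _ _ c.1.2 c.2.2).1, (k _ _ c.1.2 c.2.2).2, mix h e c.1.2 c.2.2]
  · have h1 : (P + Q) (M.ι p - M.ι x) = M.ι p - M.ι x := p.2
    refine Subtype.ext (M.inj (sub_left_injective (b := M.ι x) ?_))
    change M.ι (pj h (pj h p x) (pj h' p x)) - M.ι x = M.ι p - M.ι x
    rw [mix h e (pj_mem h p x) (pj_mem h' p x), pj_eq, pj_eq, add_sub_cancel_left,
      add_sub_cancel_left]
    exact h1
  · refine Prod.ext (Subtype.ext (M.inj ?_)) (Subtype.ext (M.inj ?_))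
    · change M.ι (pj h (pj h c.1 c.2) x) = M.ι c.1
      rw [pj_eq, (k _ _ c.1.2 c.2.2).1, add_sub_cancel]
    · change M.ι (pj h' (pj h c.1 c.2) x) = M.ι c.2
      rw [pj_eq, (k _ _ c.1.2 c.2.2).2, add_sub_cancel]
  · change dist (p : X) q ^ 2 = dist (pj h p x) (pj h q x) ^ 2 + dist (pj h' p x) (pj h' q x) ^ 2
    rw [pj_dist, pj_dist, ← map_add, ← LinearMap.add_apply, fib_sub p.2 q.2, M.dist_sq]
  · change dist (pj h p x) (pj h q x) ^ 2 = _
    rw [pj_dist, mu, M.symm]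

theorem ratio [CompleteSpace X] (hIvt : SIvt) {D Q : Module.End ℝ E} (hD : Cont M D) (hQ : Pr M Q)
    (e : D * Q = Q) {x : X} (p q : Fib M Q x) {t : ℝ} (h0 : 0 ≤ t) (h1 : t ≤ 1) :
    ∃ (W₁ W₂ : Type) (_ : MetricSpace W₁) (_ : MetricSpace W₂) (g : Fib M Q x ≃ W₁ × W₂),
      (∀ u v, dist u v ^ 2 = dist (g u).1 (g v).1 ^ 2 + dist (g u).2 (g v).2 ^ 2) ∧
      dist (g p).1 (g q).1 ^ 2 = t * dist p q ^ 2 := by
  have hm : mu M p q Q = dist p q ^ 2 := by
    rw [mu, FibA.fib_sub p.2 q.2, M.dist_sq, Subtype.dist_eq]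
  obtain ⟨S, hS, a, -, b⟩ := hIvt X E M D p q hD 0 Q Pr.zero hQ e (mul_zero _) (t * dist p q ^ 2)
    (by simp only [mu, LinearMap.zero_apply, map_zero]; positivity)
    (by rw [hm]; exact mul_le_of_le_one_left (by positivity) h1)
  obtain ⟨g, g1, g2⟩ := prod' hS (hQ.sub hS a)
    (by rw [mul_sub, hQ.swap hS hS a, hS.idem, sub_self]) (add_sub_cancel S Q) x
  exact ⟨_, _, inferInstance, inferInstance, g, g1, by rw [g2, b]⟩

end MainA

open MainA in
theorem main (hEmb : SEmb) (hProj : SProj) (hConj : SConj) (hPi : SPi) (hHF : SHF) (hHD : SHDim)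
    (hComm : SComm) (hSupO : SSupO) (hCol : SCol) (hFib : SFib) (hCongr : SCongr) (hSub : SSub)
    (hIvt : SIvt) (hCube : SCube) (hBdd : SBdd) (A B : Type) [MetricSpace A] [MetricSpace B]
    [CompleteSpace A] (φ : A × A ≃ B × B) (hφ : ∀ p q : A × A,
      dist (φ p).1 (φ q).1 ^ 2 + dist (φ p).2 (φ q).2 ^ 2 = dist p.1 q.1 ^ 2 + dist p.2 q.2 ^ 2) :
    ∃ (Y Y' Z W : Type) (_ : MetricSpace Y) (_ : MetricSpace Y') (_ : MetricSpace Z)
      (_ : MetricSpace W), IsProd A Y Z ∧ IsProd B Y' Z ∧ IsProd W Y Y ∧ IsProd W Y' Y' ∧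
      (∀ (Y₁ Y₂ : Type) [MetricSpace Y₁] [MetricSpace Y₂], IsProd Y Y₁ Y₂ →
        ∀ (p q : Y₁) (t : ℝ), 0 ≤ t → t ≤ 1 →
        ∃ (W₁ W₂ : Type) (_ : MetricSpace W₁) (_ : MetricSpace W₂) (e : Y₁ ≃ W₁ × W₂),
          (∀ u v : Y₁, dist u v ^ 2 = dist (e u).1 (e v).1 ^ 2 + dist (e u).2 (e v).2 ^ 2) ∧
          dist (e p).1 (e q).1 ^ 2 = t * dist p q ^ 2) ∧ Nonempty Y ∧
      (Bornology.IsBounded (Set.univ : Set Y) → Nonempty (Y ≃ᵢ Y')) ∧
      (Nontrivial Y → ∀ y : Y, Cubes y) := by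
  rcases isEmpty_or_nonempty A with hA | ⟨⟨a₀⟩⟩
  · have : IsEmpty B := ⟨fun b => hA.false (φ.symm (b, b)).1⟩
    refine ⟨PUnit, PUnit, A, PUnit, inferInstance, inferInstance, inferInstance, inferInstance,
      ⟨Equiv.equivOfIsEmpty _ _, fun a => hA.elim a⟩, ⟨Equiv.equivOfIsEmpty _ _, fun a => this.elim a⟩,
      ⟨(Equiv.prodPUnit _).symm, fun _ _ => by simp⟩, ⟨(Equiv.prodPUnit _).symm, fun _ _ => by simp⟩,
      ?_, inferInstance, fun _ => ⟨IsometryEquiv.refl _⟩,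
      fun h => absurd h (not_nontrivial PUnit)⟩
    rintro Y₁ Y₂ _ _ ⟨e, -⟩ p q t - -
    have : p = q := by
      have h := e.symm.injective (Subsingleton.elim (e.symm (p, (e ⟨⟩).2)) (e.symm (q, (e ⟨⟩).2)))
      exact congrArg Prod.fst h
    exact ⟨Y₁, PUnit, inferInstance, inferInstance, (Equiv.prodPUnit Y₁).symm,
      fun u v => by simp, by simp [this]⟩
  let X := WithLp 2 (A × A)
  let e : X ≃ A × A := WithLp.equiv 2 (A × A)
  have he : ∀ p q : X, dist p q ^ 2 = dist (e p).1 (e q).1 ^ 2 + dist (e p).2 (e q).2 ^ 2 := by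
    intro p q
    rw [WithLp.prod_dist_eq_add (by norm_num)]
    have h2 : (2 : ENNReal).toReal = ((2 : ℕ) : ℝ) := by norm_num
    rw [h2, Real.rpow_natCast, Real.rpow_natCast, one_div,
      Real.rpow_inv_natCast_pow (by positivity) two_ne_zero]
    rfl
  have : Nonempty X := ⟨e.symm (a₀, a₀)⟩
  obtain ⟨E, _, _, ⟨M⟩⟩ := hEmb X
  obtain ⟨π, hπ⟩ := hPi X E M
  obtain ⟨P, c, F, hP⟩ := flip hProj hConj hFib hπ A e he
  obtain ⟨P', c', F', hP'⟩ := flip hProj hConj hFib hπ B (e.trans φ) fun p q => by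
    rw [he]; exact (hφ _ _).symm
  let x : X := e.symm (a₀, a₀)
  obtain ⟨g, -⟩ := hP x
  obtain ⟨g', -⟩ := hP' x
  obtain ⟨C, hC, hcm, hc, hc', ⟨j⟩⟩ := dich hHF hHD hComm hSupO hCol hFib hCongr hπ F F' x
  have e1 := hcm C P hC.pr F.pr hC.pr.idem
  have e2 := hcm C P' hC.pr F'.pr hC.pr.idem
  have hS := hC.pr.mul F.pr e1
  have hS' := hC.pr.mul F'.pr e2
  have p1 := prod_sub hFib hS F.pr (by rw [e1, ← mul_assoc, F.pr.idem]) x
  have p2 := prod_sub hFib hS' F'.pr (by rw [e2, ← mul_assoc, F'.pr.idem]) x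
  have q1 := sq hFib hCongr F hC.pr e1 hc x
  have hD : Cont M (C * P) := cont_le hC hS (by rw [← mul_assoc, hC.pr.idem])
  refine ⟨Fib M (C * P) x, Fib M (C * P') x, Fib M (P - C * P) x, Fib M C x, inferInstance,
    inferInstance, inferInstance, inferInstance,
    (hCongr _ _ _ _ _ _).1 p1 ⟨g⟩ ⟨IsometryEquiv.refl _⟩ ⟨IsometryEquiv.refl _⟩,
    (hCongr _ _ _ _ _ _).1 p2 ⟨g'⟩ ⟨IsometryEquiv.refl _⟩ ⟨j.symm⟩, q1,
    sq hFib hCongr F' hC.pr e2 hc' x, fun Y₁ Y₂ _ _ hY p q t h0 h1 => ?_, ⟨⟨x, self_mem_Fib _ x⟩⟩,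
    fun hb => hBdd X E M C P P' c c' x hC.pr hcm F.fl F'.fl hc hc' (bdd hC.pr q1 hb),
    fun hn y => ?_⟩
  · obtain ⟨Q, hQ, hCQ, ⟨k⟩⟩ := hSub X E M _ x Y₁ Y₂ hS hY
    obtain ⟨W₁, W₂, i1, i2, e', u1, u2⟩ := ratio hIvt hD hQ hCQ (k.symm p) (k.symm q) h0 h1
    refine ⟨W₁, W₂, i1, i2, k.symm.toEquiv.trans e', fun u v => ?_, ?_⟩
    · rw [← k.symm.dist_eq]; exact u1 _ _
    · rw [← k.symm.dist_eq p q]; exact u2
  · exact cubes_map (⟨Equiv.setCongr (fib_eq y.2), fun _ _ => rfl⟩ :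
      Fib M (C * P) y.1 ≃ᵢ Fib M (C * P) x)
      (hCube X E M _ _ y.1 hD (((hFib X E M _ hS).2.1 x).2 hn) hS.idem)

end Pool.Agent.MP_1231ed_gt.R

end FMain

section FAll
namespace Pool.Agent.MP_1231ed_gt.R

theorem all (A B : Type) [MetricSpace A] [MetricSpace B] [CompleteSpace A] (φ : A × A ≃ B × B)
    (hφ : ∀ p q : A × A, Real.sqrt (dist (φ p).1 (φ q).1 ^ 2 + dist (φ p).2 (φ q).2 ^ 2)
      = Real.sqrt (dist p.1 q.1 ^ 2 + dist p.2 q.2 ^ 2)) :
    ∃ (Y Y' Z W : Type) (_ : MetricSpace Y) (_ : MetricSpace Y') (_ : MetricSpace Z)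
      (_ : MetricSpace W), IsProd A Y Z ∧ IsProd B Y' Z ∧ IsProd W Y Y ∧ IsProd W Y' Y' ∧
      (∀ (Y₁ Y₂ : Type) [MetricSpace Y₁] [MetricSpace Y₂], IsProd Y Y₁ Y₂ →
        ∀ (p q : Y₁) (t : ℝ), 0 ≤ t → t ≤ 1 →
        ∃ (W₁ W₂ : Type) (_ : MetricSpace W₁) (_ : MetricSpace W₂) (e : Y₁ ≃ W₁ × W₂),
          (∀ u v : Y₁, dist u v ^ 2 = dist (e u).1 (e v).1 ^ 2 + dist (e u).2 (e v).2 ^ 2) ∧
          dist (e p).1 (e q).1 ^ 2 = t * dist p q ^ 2) ∧ Nonempty Y ∧
      (Bornology.IsBounded (Set.univ : Set Y) → Nonempty (Y ≃ᵢ Y')) ∧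
      (Nontrivial Y → ∀ y : Y, Cubes y) :=
  have hI := sIvt sSup' (sSmall sSup')
  main sEmb (sProj sLin) (sConj sLin) (sPi sHI) (sHF sHI) sHDim (sComm sTr sBern) (sSupO sSup') sCol
    sFib sCongr (sSub (sProj sLin) sFib) hI (sCube (sChain sSup' hI))
    (sBdd sSup' (sSupO sSup') (sInf' (sPyth sSup') sAsm) sNu) A B φ fun p q =>
      (Real.sqrt_inj (by positivity) (by positivity)).1 (hφ p q)

theorem slice {A Y Z : Type} [MetricSpace A] [MetricSpace Y] [MetricSpace Z] (e : A ≃ Y × Z)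
    (he : ∀ p q : A, dist p q ^ 2 = dist (e p).1 (e q).1 ^ 2 + dist (e p).2 (e q).2 ^ 2) (z : Z) :
    Isometry fun y : Y => e.symm (y, z) :=
  Isometry.of_dist_eq fun y y' => (pow_left_inj₀ dist_nonneg dist_nonneg two_ne_zero).1 (by
    rw [he]; simp)

/-- Bounded complete spaces. -/
theorem bounded (A B : Type) [MetricSpace A] [MetricSpace B] [CompleteSpace A]
    (hA : Bornology.IsBounded (Set.univ : Set A)) (φ : A × A ≃ B × B)
    (hφ : ∀ p q : A × A, Real.sqrt (dist (φ p).1 (φ q).1 ^ 2 + dist (φ p).2 (φ q).2 ^ 2)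
      = Real.sqrt (dist p.1 q.1 ^ 2 + dist p.2 q.2 ^ 2)) : Nonempty (A ≃ᵢ B) := by
  rcases isEmpty_or_nonempty A with h | ⟨⟨a⟩⟩
  · have : IsEmpty B := ⟨fun b => h.false (φ.symm (b, b)).1⟩
    exact ⟨⟨Equiv.equivOfIsEmpty A B, fun a => h.elim a⟩⟩
  obtain ⟨Y, Y', Z, W, _, _, _, _, h1, h2, -, -, -, -, h3, -⟩ := all A B φ hφ
  refine (sCongr _ _ _ _ _ _).2 h1 h2 (h3 ?_) ⟨IsometryEquiv.refl _⟩
  obtain ⟨e, he⟩ := h1
  obtain ⟨K, hK⟩ := Metric.isBounded_iff.1 hA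
  exact Metric.isBounded_iff.2 ⟨K, fun y _ y' _ => by
    rw [← (slice e he (e a).2).dist_eq]; exact hK trivial trivial⟩

/-- In a complete counterexample every point is the corner of snowflaked cubes of all dimensions
and no ball is totally bounded. -/
theorem cubes (A B : Type) [MetricSpace A] [MetricSpace B] [CompleteSpace A] (φ : A × A ≃ B × B)
    (hφ : ∀ p q : A × A, Real.sqrt (dist (φ p).1 (φ q).1 ^ 2 + dist (φ p).2 (φ q).2 ^ 2)
      = Real.sqrt (dist p.1 q.1 ^ 2 + dist p.2 q.2 ^ 2)) (h : IsEmpty (A ≃ᵢ B)) (a : A) :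
    Cubes a ∧ ∀ r : ℝ, 0 < r → ¬ TotallyBounded (Metric.ball a r) := by
  obtain ⟨Y, Y', Z, W, _, _, _, _, h1, h2, -, -, -, -, h3, h4⟩ := all A B φ hφ
  have hn : Nontrivial Y := by
    by_contra hn
    rw [not_nontrivial_iff_subsingleton] at hn
    exact h.false ((sCongr _ _ _ _ _ _).2 h1 h2 (h3 (Set.toFinite _).isBounded)
      ⟨IsometryEquiv.refl _⟩).some
  obtain ⟨e, he⟩ := h1
  obtain ⟨c, hc, h5⟩ := h4 hn (e a).1
  have : Cubes a := ⟨c, hc, fun n => by
    obtain ⟨γ, g1, g2⟩ := h5 n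
    exact ⟨fun s => e.symm (γ s, (e a).2), by simp [g1], fun s t => by
      rw [(slice e he (e a).2).dist_eq, g2]⟩⟩
  exact ⟨this, sPack A a this⟩

end Pool.Agent.MP_1231ed_gt.R

end FAll

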