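import Mathlib

set_option autoImplicit false

namespace Pool.Agent.MP_1231ed_gt.R

/-- `X` is isometric to the product of `Y` and `Z` with the Euclidean product metric. -/
def IsProd (X Y Z : Type) [MetricSpace X] [MetricSpace Y] [MetricSpace Z] : Prop :=
  ∃ e : X ≃ Y × Z, ∀ p q : X, dist p q ^ 2 = dist (e p).1 (e q).1 ^ 2 + dist (e p).2 (e q).2 ^ 2

end Pool.Agent.MP_1231ed_gt.R
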